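import Pool.Agent.Lib_MP_8c2fb0_tt.Defs

namespace Pool.Agent.TTr

/-- Piece A1.  A place which is finite on the subfield `k` and sends the transcendental element
`x` to zero.
Proof: `A = k[x]` (`Algebra.adjoin k {x}` as a subring), `I = (x)`.  `I ≠ ⊤`, because
`1 = x * p(x)` makes `x` algebraic over `k`.  Then
`Ideal.image_subset_nonunits_valuationSubring` (Mathlib.RingTheory.Valuation.LocalSubring). -/
theorem exists_place {K : Type*} [Field K] (k : Subfield K) (x : K) (hx : Transcendental k x) :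
    ∃ V : ValuationSubring K, (∀ y ∈ k, y ∈ V) ∧ x ∈ V.nonunits := by
  have hxB : x ∈ (Algebra.adjoin k {x}).toSubring := Algebra.subset_adjoin rfl
  have hI : Ideal.span {(⟨x, hxB⟩ : (Algebra.adjoin k {x}).toSubring)} ≠ ⊤ := by
    intro h
    rw [Ideal.eq_top_iff_one, Ideal.mem_span_singleton'] at h
    obtain ⟨c, hc⟩ := h
    have h2 : (c : K) * x = 1 := congrArg Subtype.val hc
    have h3 : (c : K) ∈ (Polynomial.aeval x : Polynomial k →ₐ[k] K).range :=
      (Algebra.adjoin_singleton_eq_range_aeval k x).le c.2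
    obtain ⟨p, hp⟩ := h3
    have hp' : Polynomial.aeval x p = (c : K) := hp
    apply hx
    refine ⟨p * Polynomial.X - 1, fun h0 => ?_, ?_⟩
    · have h4 : p * Polynomial.X = 1 := sub_eq_zero.mp h0
      exact Polynomial.not_isUnit_X (IsUnit.of_mul_eq_one p (by rw [mul_comm]; exact h4))
    · rw [map_sub, map_mul, Polynomial.aeval_X, map_one, hp', h2, sub_self]
  obtain ⟨V, hV⟩ := Ideal.image_subset_nonunits_valuationSubring _ hI
  refine ⟨V, fun y hy => hV.1 ?_, hV.2 ⟨_, Ideal.subset_span rfl, rfl⟩⟩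
  exact (Algebra.adjoin k {x}).algebraMap_mem ⟨y, hy⟩

end Pool.Agent.TTr
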