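import Pool.Agent.Lib_MP_8c2fb0_tt.Defs

namespace Pool.Agent.TTr

open Matrix

/-- `Nm` and `Nt` are natural in the ring -/
theorem Nm_map {R S : Type*} [CommRing R] [CommRing S] (φ : R →+* S) (l : ℕ) (α β s : R) :
    Nm l (φ α) (φ β) (φ s) = (Nm l α β s).map φ := by
  ext i j
  simp [Nm, Matrix.map_apply, map_add, map_mul, map_pow, map_neg]

theorem Nt_map {R S : Type*} [CommRing R] [CommRing S] (φ : R →+* S) (l : ℕ) (α t σ : R) :
    Nt l (φ α) (φ t) (φ σ) = (Nt l α t σ).map φ := by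
  ext i j
  simp [Nt, Matrix.map_apply, map_add, map_mul, map_pow, map_neg]

/-- the entrywise identity of `det_Nt_eq` -/
theorem Nt_entry {R : Type*} [CommRing R] (l : ℕ) (α β s t : R) (h : β * t = 1)
    (i j : Fin (2 * l + 1)) :
    Nt l α t (s * t) i j = t ^ ((i : ℕ) - l) * (t ^ (l - (j : ℕ)) * Nm l α β s i j) := by
  have hk : ∀ k : ℕ, t ^ k * β ^ k = 1 := fun k => by
    rw [← mul_pow, mul_comm t β, h, one_pow]
  unfold Nt Nm
  have h2 : t ^ (l - (j : ℕ)) * α ^ (l - (i : ℕ)) * (Nat.choose (2 * l - i) (2 * l - j) : R) =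
      t ^ ((i : ℕ) - l) * (t ^ (l - (j : ℕ)) *
        (α ^ (l - (i : ℕ)) * β ^ ((i : ℕ) - l) * (Nat.choose (2 * l - i) (2 * l - j) : R))) := by
    have := hk ((i : ℕ) - l)
    linear_combination (-(t ^ (l - (j : ℕ)) * α ^ (l - (i : ℕ)) *
      (Nat.choose (2 * l - i) (2 * l - j) : R))) * this
  have h1 : t ^ ((j : ℕ) - l) * (α ^ ((i : ℕ) - l) + α ^ (l - (i : ℕ))) * (Nat.choose i j : R) *
      (-(s * t)) ^ ((i : ℕ) - (j : ℕ)) =
      t ^ ((i : ℕ) - l) * (t ^ (l - (j : ℕ)) *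
        (β ^ (l - (i : ℕ)) * (α ^ ((i : ℕ) - l) + α ^ (l - (i : ℕ))) * (Nat.choose i j : R) *
      (-s) ^ ((i : ℕ) - (j : ℕ)))) := by
    rcases le_or_gt (j : ℕ) (i : ℕ) with hji | hij
    · have he : ((i : ℕ) - l) + (l - (j : ℕ)) =
          (l - (i : ℕ)) + (((j : ℕ) - l) + ((i : ℕ) - (j : ℕ))) := by
        omega
      have h3 : t ^ ((i : ℕ) - l) * t ^ (l - (j : ℕ)) =
          t ^ (l - (i : ℕ)) * (t ^ ((j : ℕ) - l) * t ^ ((i : ℕ) - (j : ℕ))) := by
        rw [← pow_add, ← pow_add, ← pow_add, he]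
      have h4 : (-(s * t)) ^ ((i : ℕ) - (j : ℕ)) =
          (-s) ^ ((i : ℕ) - (j : ℕ)) * t ^ ((i : ℕ) - (j : ℕ)) := by
        rw [← mul_pow]; congr 1; ring
      have h5 := hk (l - (i : ℕ))
      rw [h4]
      generalize (α ^ ((i : ℕ) - l) + α ^ (l - (i : ℕ))) = A
      generalize (Nat.choose (i : ℕ) (j : ℕ) : R) = C
      generalize (-s) ^ ((i : ℕ) - (j : ℕ)) = D
      calc t ^ ((j : ℕ) - l) * A * C * (D * t ^ ((i : ℕ) - (j : ℕ)))
          = (t ^ (l - (i : ℕ)) * β ^ (l - (i : ℕ))) *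
            (t ^ ((j : ℕ) - l) * A * C * (D * t ^ ((i : ℕ) - (j : ℕ)))) := by rw [h5, one_mul]
        _ = (t ^ (l - (i : ℕ)) * (t ^ ((j : ℕ) - l) * t ^ ((i : ℕ) - (j : ℕ)))) *
            (β ^ (l - (i : ℕ)) * A * C * D) := by ring
        _ = (t ^ ((i : ℕ) - l) * t ^ (l - (j : ℕ))) * (β ^ (l - (i : ℕ)) * A * C * D) := by rw [h3]
        _ = _ := by ring
    · rw [Nat.choose_eq_zero_of_lt hij]
      simp
  rw [h1, h2, ← mul_add, ← mul_add]

/-- Piece A2.  Rescaling: row `i` times `t ^ (i - l)`, column `j` times `t ^ (l - j)`.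
Entrywise `t ^ (i - l) * Nm i j * t ^ (l - j) = Nt i j` if `β * t = 1`, `σ = s * t`: for `j ≤ i`
the exponents `(i - l) + (l - j) = (l - i) + (i - j) + (j - l)` (truncated), for `i < j` the first
term of both sides is zero since `Nat.choose i j = 0`; in the second term
`t ^ (i - l) * β ^ (i - l) = 1`.  Then `Matrix.det_mul_row`, `Matrix.det_mul_column`. -/
theorem det_Nt_eq {R : Type*} [CommRing R] (l : ℕ) (α β s t : R) (h : β * t = 1) :
    (Nt l α t (s * t)).det = (∏ i : Fin (2 * l + 1), t ^ ((i : ℕ) - l)) *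
      (∏ j : Fin (2 * l + 1), t ^ (l - (j : ℕ))) * (Nm l α β s).det := by
  have h1 : Nt l α t (s * t) = Matrix.of fun i j : Fin (2 * l + 1) =>
      t ^ ((i : ℕ) - l) * (Matrix.of fun i j : Fin (2 * l + 1) =>
        t ^ (l - (j : ℕ)) * Nm l α β s i j) i j := by
    ext i j
    simp only [Matrix.of_apply]
    exact Nt_entry l α β s t h i j
  rw [h1, Matrix.det_mul_column (fun i : Fin (2 * l + 1) => t ^ ((i : ℕ) - l)),
    Matrix.det_mul_row (fun j : Fin (2 * l + 1) => t ^ (l - (j : ℕ))), mul_assoc]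

/-- the reduction at `t = σ = 0` is upper triangular with diagonal `1 + α ^ (l - i)` (`i < l`),
`3`, `1`. -/
theorem det_Nt_zero {R : Type*} [CommRing R] (l : ℕ) (α : R) :
    (Nt l α 0 0).det = 3 * ∏ i ∈ Finset.range l, (1 + α ^ (l - i)) := by
  have hU : (Nt l α (0 : R) 0).BlockTriangular id := by
    intro i j hij
    have hij' : (j : ℕ) < (i : ℕ) := hij
    have hi := i.2
    unfold Nt
    rw [neg_zero, zero_pow (by omega : (i : ℕ) - (j : ℕ) ≠ 0), mul_zero, zero_add,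
      Nat.choose_eq_zero_of_lt (by omega : 2 * l - (i : ℕ) < 2 * l - (j : ℕ))]
    simp
  rw [Matrix.det_of_isUpperTriangular hU]
  have hd : ∀ i : Fin (2 * l + 1), Nt l α (0 : R) 0 i i =
      (0 : R) ^ ((i : ℕ) - l) * (α ^ ((i : ℕ) - l) + α ^ (l - (i : ℕ))) +
        (0 : R) ^ (l - (i : ℕ)) * α ^ (l - (i : ℕ)) := by
    intro i
    unfold Nt
    simp
  rw [Finset.prod_congr rfl fun i _ => hd i,
    Fin.prod_univ_eq_prod_range (fun i : ℕ => (0 : R) ^ (i - l) * (α ^ (i - l) + α ^ (l - i)) +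
      (0 : R) ^ (l - i) * α ^ (l - i)) (2 * l + 1),
    show 2 * l + 1 = l + (l + 1) by ring, Finset.prod_range_add, Finset.prod_range_succ']
  have h1 : ∏ x ∈ Finset.range l, ((0 : R) ^ (x - l) * (α ^ (x - l) + α ^ (l - x)) +
      (0 : R) ^ (l - x) * α ^ (l - x)) = ∏ i ∈ Finset.range l, (1 + α ^ (l - i)) := by
    refine Finset.prod_congr rfl fun x hx => ?_
    have hx' := Finset.mem_range.1 hx
    rw [show x - l = 0 by omega, zero_pow (by omega : l - x ≠ 0)]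
    simp
  have h2 : ∏ k ∈ Finset.range l, ((0 : R) ^ (l + (k + 1) - l) *
      (α ^ (l + (k + 1) - l) + α ^ (l - (l + (k + 1)))) +
      (0 : R) ^ (l - (l + (k + 1))) * α ^ (l - (l + (k + 1)))) = 1 := by
    refine Finset.prod_eq_one fun k _ => ?_
    rw [show l + (k + 1) - l = k + 1 by omega, show l - (l + (k + 1)) = 0 by omega]
    simp
  rw [h1, h2]
  simp only [add_zero, Nat.sub_self, pow_zero, mul_one, one_mul]
  ring

end Pool.Agent.TTr
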