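import Pool.Agent.Lib_MP_8c2fb0_tt.Defs

namespace Pool.Agent.TTr

open Matrix

/-- binomial transform -/
private def SS {κ : Type*} [Field κ] (a : ℕ → κ) (i : ℕ) : κ :=
  ∑ k ∈ Finset.range (i + 1), a k * (Nat.choose i k : κ)

private theorem SS_zero {κ : Type*} [Field κ] (a : ℕ → κ) : SS a 0 = a 0 := by
  simp [SS]

private theorem SS_succ {κ : Type*} [Field κ] (a : ℕ → κ) (i : ℕ) :
    SS a (i + 1) = SS a i + SS (fun k => a (k + 1)) i := by
  unfold SS
  have h0 : ∑ k ∈ Finset.range (i + 1), a k * (Nat.choose i k : κ) =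
      ∑ k ∈ Finset.range i, a (k + 1) * (Nat.choose i (k + 1) : κ) +
      a 0 * (Nat.choose i 0 : κ) := Finset.sum_range_succ' _ i
  have h3 : ∑ k ∈ Finset.range (i + 1 + 1), a k * (Nat.choose (i + 1) k : κ) =
      ∑ k ∈ Finset.range (i + 1), a (k + 1) * (Nat.choose (i + 1) (k + 1) : κ) +
      a 0 * (Nat.choose (i + 1) 0 : κ) := Finset.sum_range_succ' _ (i + 1)
  have h1 : ∑ k ∈ Finset.range (i + 1), a (k + 1) * (Nat.choose (i + 1) (k + 1) : κ) =
      ∑ k ∈ Finset.range (i + 1), a (k + 1) * (Nat.choose i k : κ) +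
      ∑ k ∈ Finset.range (i + 1), a (k + 1) * (Nat.choose i (k + 1) : κ) := by
    rw [← Finset.sum_add_distrib]
    refine Finset.sum_congr rfl fun k _ => ?_
    rw [Nat.choose_succ_succ]
    push_cast
    ring
  have h2 : ∑ k ∈ Finset.range (i + 1), a (k + 1) * (Nat.choose i (k + 1) : κ) =
      ∑ k ∈ Finset.range i, a (k + 1) * (Nat.choose i (k + 1) : κ) := by
    rw [Finset.sum_range_succ, Nat.choose_succ_self]
    simp
  rw [h3, h0, h1, h2]
  simp only [Nat.choose_zero_right, Nat.cast_one, mul_one]
  ring

private theorem SS_lin {κ : Type*} [Field κ] (a b : ℕ → κ) (c d : κ) (i : ℕ) :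
    SS (fun k => c * a k + d * b k) i = c * SS a i + d * SS b i := by
  unfold SS
  rw [Finset.mul_sum, Finset.mul_sum, ← Finset.sum_add_distrib]
  refine Finset.sum_congr rfl fun k _ => ?_
  ring

private theorem SS_mul {κ : Type*} [Field κ] (a : ℕ → κ) (c : κ) (i : ℕ) :
    SS (fun k => c * a k) i = c * SS a i := by
  unfold SS
  rw [Finset.mul_sum]
  refine Finset.sum_congr rfl fun k _ => ?_
  ring

private theorem SS_tri {κ : Type*} [Field κ] (a : ℕ → κ) (n : ℕ) (h : ∀ i < n, SS a i = 0) :
    ∀ k < n, a k = 0 := by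
  intro k
  induction k using Nat.strong_induction_on with
  | _ k ih =>
    intro hk
    have h1 := h k hk
    unfold SS at h1
    rw [Finset.sum_range_succ, Finset.sum_eq_zero, zero_add, Nat.choose_self, Nat.cast_one,
      mul_one] at h1
    · exact h1
    · intro j hj
      have hj' := Finset.mem_range.mp hj
      rw [ih j hj' (lt_trans hj' hk), zero_mul]

/-- extension of the range of summation -/
private theorem SS_ext {κ : Type*} [Field κ] (a : ℕ → κ) (i n : ℕ) (h : i + 1 ≤ n) :
    ∑ k ∈ Finset.range n, a k * (Nat.choose i k : κ) = SS a i := by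
  unfold SS
  symm
  refine Finset.sum_subset (Finset.range_subset_range.mpr h) ?_
  intro k _ hk
  rw [Finset.mem_range, not_lt] at hk
  rw [Nat.choose_eq_zero_of_lt (by omega), Nat.cast_zero, mul_zero]

/-- uniqueness -/
private theorem core {κ : Type*} [Field κ] (α : κ) (h1 : α ≠ 1) :
    ∀ (m n : ℕ) (a b : ℕ → κ), (∀ k, m ≤ k → a k = 0) → (∀ k, n ≤ k → b k = 0) →
      (∀ i < m + n, SS a i + α ^ i * SS b i = 0) → α ≠ 0 →
      (∀ k, a k = 0) ∧ ∀ k, b k = 0 := by
  intro m
  induction m with
  | zero =>
    intro n a b ha hb h h0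
    have ha' : ∀ k, a k = 0 := fun k => ha k (Nat.zero_le k)
    have hSa : ∀ i, SS a i = 0 := by
      intro i
      unfold SS
      refine Finset.sum_eq_zero fun k _ => ?_
      rw [ha' k, zero_mul]
    refine ⟨ha', ?_⟩
    have hb' := SS_tri b n (fun i hi => by
      have := h i (by omega)
      rw [hSa i, zero_add] at this
      exact (mul_eq_zero.mp this).resolve_left (pow_ne_zero _ h0))
    intro k
    rcases lt_or_ge k n with hk | hk
    · exact hb' k hk
    · exact hb k hk
  | succ m ih =>
    intro n a b ha hb h h0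
    have h2 := ih n (fun k => a (k + 1)) (fun k => (α - 1) * b k + α * b (k + 1))
      (fun k hk => ha (k + 1) (by omega))
      (fun k hk => by rw [hb k hk, hb (k + 1) (by omega)]; ring)
      (fun i hi => by
        have e1 := h i (by omega)
        have e2 := h (i + 1) (by omega)
        rw [SS_succ a i, SS_succ b i] at e2
        rw [SS_lin b (fun k => b (k + 1))]
        rw [pow_succ] at e2
        linear_combination e2 - e1) h0
    obtain ⟨h3, h4⟩ := h2
    have hb0 : ∀ d k, n ≤ k + d → b k = 0 := by
      intro d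
      induction d with
      | zero => intro k hk; exact hb k hk
      | succ d ihd =>
        intro k hk
        have e1 := ihd (k + 1) (by omega)
        have e2 := h4 k
        rw [e1, mul_zero, add_zero] at e2
        exact (mul_eq_zero.mp e2).resolve_left (sub_ne_zero.mpr h1)
    have hb1 : ∀ k, b k = 0 := fun k => hb0 n k (by omega)
    refine ⟨?_, hb1⟩
    intro k
    cases k with
    | zero =>
      have e := h 0 (by omega)
      rw [SS_zero, SS_zero, hb1 0, mul_zero, add_zero] at e
      exact e
    | succ k => exact h3 k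

/-- relation between the leading coefficients -/
private theorem lead {κ : Type*} [Field κ] (α : κ) :
    ∀ (m n : ℕ) (a b : ℕ → κ), (∀ k, m < k → a k = 0) → (∀ k, n < k → b k = 0) →
      (∀ i ≤ m + n, SS a i + α ^ i * SS b i = 0) →
      (1 - α) ^ n * a m + (α - 1) ^ m * α ^ n * b n = 0 := by
  intro m
  induction m with
  | zero =>
    intro n
    induction n with
    | zero =>
      intro a b _ _ h
      have e := h 0 (by omega)
      rw [SS_zero, SS_zero] at e
      linear_combination e
    | succ n ih =>
      intro a b ha hb h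
      have e := ih (fun k => (1 - α) * a k + 1 * a (k + 1)) (fun k => α * b (k + 1))
        (fun k hk => by rw [ha k hk, ha (k + 1) (by omega)]; ring)
        (fun k hk => by rw [hb (k + 1) (by omega)]; ring)
        (fun i hi => by
          have e1 := h i (by omega)
          have e2 := h (i + 1) (by omega)
          rw [SS_succ a i, SS_succ b i] at e2
          rw [SS_lin a (fun k => a (k + 1)), SS_mul (fun k => b (k + 1))]
          rw [pow_succ] at e2
          linear_combination e2 - α * e1)
      rw [ha 1 (by omega)] at e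
      linear_combination e
  | succ m ih =>
    intro n a b ha hb h
    have e := ih n (fun k => a (k + 1)) (fun k => (α - 1) * b k + α * b (k + 1))
      (fun k hk => ha (k + 1) (by omega))
      (fun k hk => by rw [hb k hk, hb (k + 1) (by omega)]; ring)
      (fun i hi => by
        have e1 := h i (by omega)
        have e2 := h (i + 1) (by omega)
        rw [SS_succ a i, SS_succ b i] at e2
        rw [SS_lin b (fun k => b (k + 1))]
        rw [pow_succ] at e2
        linear_combination e2 - e1)
    rw [hb (n + 1) (by omega)] at e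
    linear_combination e

/-- coefficients of the reversed sequence -/
private def RR {κ : Type*} [Field κ] (w : ℕ → κ) (N : ℕ) (k : ℕ) : κ :=
  (-1) ^ k * SS (fun m => w (m + k)) (N - k)

private theorem SS_RR {κ : Type*} [Field κ] :
    ∀ (i : ℕ) (w : ℕ → κ) (N : ℕ), i ≤ N → SS (RR w N) i = SS w (N - i) := by
  intro i
  induction i with
  | zero =>
    intro w N _
    rw [SS_zero]
    simp [RR]
  | succ i ih =>
    intro w N hN
    rw [SS_succ, ih w N (by omega)]
    obtain ⟨M, rfl⟩ : ∃ M, N = M + 1 := ⟨N - 1, by omega⟩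
    have e1 : SS (fun k => RR w (M + 1) (k + 1)) i =
        SS (fun k => (-1 : κ) * RR (fun m => w (m + 1)) M k) i := by
      congr 1
      funext k
      unfold RR
      have e2 : M + 1 - (k + 1) = M - k := by omega
      have e3 : (fun m => w (m + (k + 1))) = fun m => w (m + k + 1) := by
        funext m
        rw [add_assoc]
      rw [e2, e3, pow_succ]
      ring
    rw [e1, SS_mul, ih (fun m => w (m + 1)) M (by omega)]
    have e4 : M + 1 - i = (M - i) + 1 := by omega
    have e5 : M + 1 - (i + 1) = M - i := by omega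
    rw [e4, e5, SS_succ w (M - i)]
    ring

/-- Piece A4.  The reduced matrix at `t = 0`, `σ = -1`.
Its entries: column `j < l`: `(α^(i-l) + α^(l-i)) C(i,j)`; column `j > l`:
`α^(l-i) C(2l-i,2l-j)`; column `j = l`: the sum of both (truncated exponents).  Multiplying row `i`
by `α ^ (i - l)`... (or dividing row `i` by `α ^ (l - i)`, i.e. multiplying the rows by nonzero
numbers) the entries become `(1 + α^(i-l)) C(i,j)`, `C(2l-i,2l-j)` with an integer exponent `i - l`.
Suppose `x` is in the kernel.  Put `p(i) = ∑_(j<l) x_j C(i,j)`, `p'(i) = ∑_(j>l) x_j C(2l-i,2l-j)`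
(polynomials in `i` of degree `< l`), `z = x_l`, `q(i) = C(i,l)`, `q'(i) = C(2l-i,l)` (degree `l`,
leading coefficients `1/l!` and `(-1)^l/l!`).  Then `G1(i) + α^(i-l) G2(i) = 0` for `i = 0..2l`
with `G1 = p + p' + z (q + q')`, `G2 = p + z q`.  Apply the difference operators
`(E - 1)^l (E - α)^l` (`E` = shift) at `i = 0`: `(E-1)^l G1 = z (1 + (-1)^l)`,
`(E-α)^l (const) = (1-α)^l const`, `(E-α)^l α^(i-l) G2 = α^i Δ^l G2 = α^i z`,
`(E-1)^l α^i z = (α-1)^l α^i z`.  So `0 = (α-1)^l z ((-1)^l (1 + (-1)^l) + 1)
= (α-1)^l z (2 + (-1)^l)` and `z = 0` (characteristic zero).  Then `G1 = p + p'`, `G2 = p` have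
degree `< l` and `G1(i) + α^(i-l) G2(i) = 0` for `2 l` consecutive `i`; the same recurrence
(characteristic polynomial `(X-1)^l (X-α)^l`, constant term nonzero) gives it for all natural `i`
(or directly: apply `(E-1)^a (E-α)^b` and descend on the degrees), whence `G2 = 0`, `G1 = 0`
(`E - α` is injective on polynomials since `α ≠ 1`), so all `x_j = 0`.
Any other proof is welcome (the determinant is `± (1 + 2 (-1)^l)` times powers of `α`, `α - 1`). -/
theorem det_Nt_neg_one {κ : Type*} [Field κ] [CharZero κ] (l : ℕ) (α : κ) (h0 : α ≠ 0)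
    (h1 : α ≠ 1) : (Nt l α 0 (-1)).det ≠ 0 := by
  classical
  intro hdet
  obtain ⟨v, hv, hMv⟩ := Matrix.exists_mulVec_eq_zero_iff.mpr hdet
  apply hv
  set V : ℕ → κ := fun k => if h : k < 2 * l + 1 then v ⟨k, h⟩ else 0 with hV
  have hVv : ∀ j : Fin (2 * l + 1), V j = v j := by
    intro j
    simp only [hV, j.2, dif_pos]
  set p : ℕ → κ := fun k => if k ≤ l then V k else 0 with hp
  set w : ℕ → κ := fun k => if k ≤ l then V (2 * l - k) else 0 with hw
  -- the equations
  have heq : ∀ i, i ≤ 2 * l →
      (α ^ (i - l) + α ^ (l - i)) * SS p i + α ^ (l - i) * SS w (2 * l - i) = 0 := by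
    intro i hi
    have h2 := congrFun hMv ⟨i, by omega⟩
    rw [Matrix.mulVec, dotProduct, Pi.zero_apply] at h2
    have h3 : ∀ j : Fin (2 * l + 1), Nt l α 0 (-1) (⟨i, by omega⟩ : Fin (2 * l + 1)) j * v j =
        (fun j : ℕ => (0 ^ (j - l) * (α ^ (i - l) + α ^ (l - i)) * (Nat.choose i j : κ) +
          0 ^ (l - j) * α ^ (l - i) * (Nat.choose (2 * l - i) (2 * l - j) : κ)) * V j) j := by
      intro j
      simp only [Nt, hVv j, neg_neg, one_pow, mul_one]
    rw [Finset.sum_congr rfl fun j _ => h3 j,
      Fin.sum_univ_eq_sum_range (fun j : ℕ => (0 ^ (j - l) * (α ^ (i - l) + α ^ (l - i)) *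
        (Nat.choose i j : κ) + 0 ^ (l - j) * α ^ (l - i) *
          (Nat.choose (2 * l - i) (2 * l - j) : κ)) * V j) (2 * l + 1)] at h2
    have h4 : ∑ j ∈ Finset.range (2 * l + 1), (0 ^ (j - l) * (α ^ (i - l) + α ^ (l - i)) *
        (Nat.choose i j : κ) + 0 ^ (l - j) * α ^ (l - i) *
          (Nat.choose (2 * l - i) (2 * l - j) : κ)) * V j =
        (α ^ (i - l) + α ^ (l - i)) *
          ∑ j ∈ Finset.range (2 * l + 1), p j * (Nat.choose i j : κ) +
        α ^ (l - i) * ∑ j ∈ Finset.range (2 * l + 1),
          w (2 * l - j) * (Nat.choose (2 * l - i) (2 * l - j) : κ) := by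
      rw [Finset.mul_sum, Finset.mul_sum, ← Finset.sum_add_distrib]
      refine Finset.sum_congr rfl fun j hj => ?_
      have hj' := Finset.mem_range.mp hj
      have e1 : (0 : κ) ^ (j - l) * V j = p j := by
        simp only [hp]
        split_ifs with hjl
        · rw [Nat.sub_eq_zero_of_le hjl, pow_zero, one_mul]
        · rw [zero_pow (by omega), zero_mul]
      have e2 : (0 : κ) ^ (l - j) * V j = w (2 * l - j) := by
        simp only [hw]
        split_ifs with hjl
        · rw [Nat.sub_eq_zero_of_le (by omega), pow_zero, one_mul,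
            show 2 * l - (2 * l - j) = j by omega]
        · rw [zero_pow (by omega), zero_mul]
      rw [← e1, ← e2]
      ring
    rw [h4, SS_ext p i (2 * l + 1) (by omega)] at h2
    have h5 : ∑ j ∈ Finset.range (2 * l + 1),
          w (2 * l - j) * (Nat.choose (2 * l - i) (2 * l - j) : κ) = SS w (2 * l - i) := by
      rw [← SS_ext w (2 * l - i) (2 * l + 1) (by omega)]
      rw [← Finset.sum_range_reflect]
      refine Finset.sum_congr rfl fun j hj => ?_
      have hj' := Finset.mem_range.mp hj
      rw [show 2 * l - (2 * l + 1 - 1 - j) = j by omega]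
    rw [h5] at h2
    exact h2
  set q : ℕ → κ := RR w (2 * l) with hq
  have hwz : ∀ k, l < k → w k = 0 := by
    intro k hk
    simp only [hw]
    rw [if_neg (by omega)]
  have hqz : ∀ k, l < k → q k = 0 := by
    intro k hk
    simp only [hq, RR, SS]
    rw [Finset.sum_eq_zero, mul_zero]
    intro m _
    rw [hwz (m + k) (by omega), zero_mul]
  have hql : q l = (-1) ^ l * w l := by
    simp only [hq, RR, SS]
    rw [Finset.sum_range_succ', Finset.sum_eq_zero, zero_add, Nat.choose_zero_right,
      Nat.cast_one, mul_one, zero_add]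
    intro m _
    rw [hwz (m + 1 + l) (by omega), zero_mul]
  have hpz : ∀ k, l < k → p k = 0 := by
    intro k hk
    simp only [hp]
    rw [if_neg (by omega)]
  have hpl : p l = V l := by
    simp only [hp, le_refl, if_true]
  have hwl : w l = V l := by
    simp only [hw, le_refl, if_true]
    rw [show 2 * l - l = l by omega]
  set a : ℕ → κ := fun k => α ^ l * p k + α ^ l * q k with ha
  have hmain : ∀ i, i ≤ 2 * l → SS a i + α ^ i * SS p i = 0 := by
    intro i hi
    have e := heq i hi
    rw [← SS_RR i w (2 * l) hi] at e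
    rw [ha, SS_lin p q]
    rcases le_or_gt l i with hli | hli
    · rw [Nat.sub_eq_zero_of_le hli, pow_zero] at e
      have e3 : α ^ i = α ^ l * α ^ (i - l) := by
        rw [← pow_add]
        congr 1
        omega
      rw [e3]
      linear_combination (α ^ l) * e
    · rw [Nat.sub_eq_zero_of_le hli.le, pow_zero] at e
      have e3 : α ^ l = α ^ i * α ^ (l - i) := by
        rw [← pow_add]
        congr 1
        omega
      rw [e3]
      linear_combination (α ^ i) * e
  -- the middle coefficient vanishes
  have hVl : V l = 0 := by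
    have e := lead α l l a p (fun k hk => by simp only [ha]; rw [hpz k hk, hqz k hk]; ring)
      hpz (fun i hi => hmain i (by omega))
    simp only [ha] at e
    rw [hpl, hql, hwl] at e
    have e6 : (1 - α) ^ l = (-1) ^ l * (α - 1) ^ l := by
      rw [← mul_pow]
      congr 1
      ring
    rw [e6] at e
    have e7 : ((-1 : κ)) ^ l * (-1) ^ l = 1 := by
      rw [← mul_pow]
      norm_num
    have e8 : α ^ l * (α - 1) ^ l * ((-1) ^ l + 2) * V l = 0 := by
      linear_combination e - (α - 1) ^ l * α ^ l * V l * e7
    rcases mul_eq_zero.mp e8 with e9 | e9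
    · exfalso
      rcases mul_eq_zero.mp e9 with e10 | e10
      · rcases mul_eq_zero.mp e10 with e11 | e11
        · exact pow_ne_zero _ h0 e11
        · exact pow_ne_zero _ (sub_ne_zero.mpr h1) e11
      · rcases neg_one_pow_eq_or κ l with e11 | e11
        · rw [e11] at e10
          norm_num at e10
        · rw [e11] at e10
          norm_num at e10
    · exact e9
  have hcore := core α h1 l l a p
    (fun k hk => by
      rcases Nat.lt_or_ge l k with hk' | hk'
      · simp only [ha]; rw [hpz k hk', hqz k hk']; ring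
      · have : k = l := le_antisymm hk' hk
        subst this
        simp only [ha]
        rw [hpl, hql, hwl, hVl]; ring)
    (fun k hk => by
      rcases Nat.lt_or_ge l k with hk' | hk'
      · exact hpz k hk'
      · have : k = l := le_antisymm hk' hk
        subst this
        rw [hpl, hVl])
    (fun i hi => hmain i (by omega)) h0
  obtain ⟨ha0, hp0⟩ := hcore
  have hq0 : ∀ k, q k = 0 := by
    intro k
    have e := ha0 k
    simp only [ha] at e
    rw [hp0 k, mul_zero, zero_add] at e
    exact (mul_eq_zero.mp e).resolve_left (pow_ne_zero _ h0)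
  have hSw : ∀ i < 2 * l + 1, SS w i = 0 := by
    intro i hi
    have e := SS_RR (2 * l - i) w (2 * l) (by omega)
    rw [show 2 * l - (2 * l - i) = i by omega] at e
    rw [← e]
    unfold SS
    refine Finset.sum_eq_zero fun k _ => ?_
    have := hq0 k
    rw [hq] at this
    rw [this, zero_mul]
  have hw0 := SS_tri w (2 * l + 1) hSw
  funext j
  rw [Pi.zero_apply, ← hVv j]
  rcases le_or_gt (j : ℕ) l with hj | hj
  · have e := hp0 (j : ℕ)
    simp only [hp] at e
    rw [if_pos hj] at e
    exact e
  · have e := hw0 (2 * l - (j : ℕ)) (by omega)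
    simp only [hw] at e
    rw [if_pos (by omega), show 2 * l - (2 * l - (j : ℕ)) = (j : ℕ) by omega] at e
    exact e

end Pool.Agent.TTr
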