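import Pool.Agent.Lib_MP_8c2fb0_tt.Defs

namespace Pool.Agent.TTr

open Matrix

/-- a matrix which is upper triangular modulo `s` has determinant the product of the diagonal
modulo `s` -/
theorem det_tri_mod {R : Type*} [CommRing R] (n : ℕ) (s : R) (A : Matrix (Fin n) (Fin n) R)
    (hA : ∀ i j : Fin n, j < i → s ∣ A i j) : s ∣ A.det - ∏ i, A i i := by
  rw [← Ideal.mem_span_singleton, ← Ideal.Quotient.eq, RingHom.map_det, map_prod,
    Matrix.det_of_upperTriangular]
  · rfl
  · intro i j hij
    simp only [RingHom.mapMatrix_apply, Matrix.map_apply]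
    rw [Ideal.Quotient.eq_zero_iff_mem, Ideal.mem_span_singleton]
    exact hA i j hij

/-- Piece A5a.  General first order expansion.  `M i j` divisible by `s ^ (i - j)` below the
diagonal: `M i j = s ^ (i - j) * c i j` for `j ≤ i`.
Proof: `det = ∑ sign ∏ M (σ i) i`.  A permutation contributes a multiple of
`s ^ (total descent)`, total descent = total ascent; total descent `0` only for `σ = 1`, total
descent `1` only for the transpositions of two neighbours. -/
theorem det_first_order {R : Type*} [CommRing R] (n : ℕ) (s : R) (M : ℕ → ℕ → R)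
    (c : ℕ → ℕ → R) (hM : ∀ i j, j ≤ i → M i j = s ^ (i - j) * c i j) :
    ∃ G : R, (Matrix.of fun i j : Fin (n + 1) => M i j).det =
      (∏ i ∈ Finset.range (n + 1), M i i) -
      s * (∑ i ∈ Finset.range n, c (i + 1) i * M i (i + 1) *
        ∏ j ∈ (Finset.range (n + 1)).filter (fun j => j ≠ i ∧ j ≠ i + 1), M j j) + s ^ 2 * G := by
  induction n with
  | zero => exact ⟨0, by simp⟩
  | succ n ih =>
    obtain ⟨G, hG⟩ := ih
    -- expansion along the last row
    rw [Matrix.det_succ_row _ (Fin.last (n + 1)), Fin.sum_univ_castSucc, Fin.sum_univ_castSucc]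
    -- the terms far from the diagonal
    have h1 : s ^ 2 ∣ ∑ i : Fin n, (-1 : R) ^ (((Fin.last (n + 1) : Fin (n + 2)) : ℕ) +
        ((i.castSucc.castSucc : Fin (n + 2)) : ℕ)) *
        (Matrix.of fun i j : Fin (n + 1 + 1) => M i j) (Fin.last (n + 1)) i.castSucc.castSucc *
        ((Matrix.of fun i j : Fin (n + 1 + 1) => M i j).submatrix (Fin.last (n + 1)).succAbove
          i.castSucc.castSucc.succAbove).det := by
      refine Finset.dvd_sum fun i _ => ?_
      refine Dvd.dvd.mul_right (Dvd.dvd.mul_left ?_ _) _
      simp only [Matrix.of_apply, Fin.val_last, Fin.val_castSucc]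
      rw [hM _ _ (by omega)]
      exact Dvd.dvd.mul_right (pow_dvd_pow s (by omega)) _
    obtain ⟨G1, hG1⟩ := h1
    -- the corner
    have h2 : ((Matrix.of fun i j : Fin (n + 1 + 1) => M i j).submatrix
        (Fin.last (n + 1)).succAbove (Fin.last (n + 1)).succAbove).det =
        (Matrix.of fun i j : Fin (n + 1) => M i j).det := by
      congr 1
      ext i j
      simp
    -- the neighbour of the corner
    have h3 : s ∣ ((Matrix.of fun i j : Fin (n + 1 + 1) => M i j).submatrix
        (Fin.last (n + 1)).succAbove (Fin.last n).castSucc.succAbove).det -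
        (∏ i ∈ Finset.range n, M i i) * M n (n + 1) := by
      have hcol : ∀ k : Fin (n + 1), (((Fin.last n).castSucc.succAbove k : Fin (n + 2)) : ℕ) =
          if (k : ℕ) < n then (k : ℕ) else n + 1 := by
        intro k
        by_cases hk : (k : ℕ) < n
        · rw [if_pos hk, Fin.succAbove_of_castSucc_lt _ _ (by
            rw [Fin.lt_def]; simpa using hk)]
          simp
        · rw [if_neg hk, Fin.succAbove_of_le_castSucc _ _ (by
            rw [Fin.le_def]; simp only [Fin.val_castSucc, Fin.val_last]; omega)]
          simp only [Fin.val_succ]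
          have := k.isLt
          omega
      have hprod : (∏ i ∈ Finset.range n, M i i) * M n (n + 1) =
          ∏ i : Fin (n + 1), ((Matrix.of fun i j : Fin (n + 1 + 1) => M i j).submatrix
            (Fin.last (n + 1)).succAbove (Fin.last n).castSucc.succAbove) i i := by
        rw [Fin.prod_univ_castSucc, Finset.prod_range]
        congr 1
        · refine Finset.prod_congr rfl fun i _ => ?_
          simp only [Matrix.submatrix_apply, Matrix.of_apply, Fin.succAbove_last,
            Fin.val_castSucc]
          rw [hcol]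
          simp
        · simp only [Matrix.submatrix_apply, Matrix.of_apply, Fin.succAbove_last,
            Fin.val_castSucc]
          rw [hcol]
          simp
      rw [hprod]
      refine det_tri_mod _ s _ fun i j hij => ?_
      simp only [Matrix.submatrix_apply, Matrix.of_apply, Fin.succAbove_last,
        Fin.val_castSucc]
      have hij' : (j : ℕ) < i := hij
      have := i.isLt
      rw [hcol, if_pos (by omega), hM _ _ (by omega)]
      exact Dvd.dvd.mul_right (dvd_pow_self s (by omega)) _
    obtain ⟨G3, hG3⟩ := h3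
    rw [hG1, h2, hG]
    have h3' := sub_eq_iff_eq_add.mp hG3
    rw [h3']
    -- the product of the diagonal and the sum
    have hs : ∀ i ∈ Finset.range n,
        c (i + 1) i * M i (i + 1) *
          ∏ j ∈ (Finset.range (n + 1 + 1)).filter (fun j => j ≠ i ∧ j ≠ i + 1), M j j =
        c (i + 1) i * M i (i + 1) *
          (∏ j ∈ (Finset.range (n + 1)).filter (fun j => j ≠ i ∧ j ≠ i + 1), M j j) *
          M (n + 1) (n + 1) := by
      intro i hi
      rw [Finset.mem_range] at hi
      rw [Finset.range_add_one (n := n + 1), Finset.filter_insert, if_pos (by omega),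
        Finset.prod_insert (by simp)]
      ring
    have hl : (Finset.range (n + 1 + 1)).filter (fun j => j ≠ n ∧ j ≠ n + 1) =
        Finset.range n := by
      ext j
      simp only [Finset.mem_filter, Finset.mem_range]
      omega
    rw [Finset.sum_range_succ, Finset.sum_congr rfl hs, ← Finset.sum_mul, hl,
      Finset.prod_range_succ (fun i => M i i) (n + 1)]
    simp only [Matrix.of_apply, Fin.val_last, Fin.val_castSucc]
    rw [hM (n + 1) n (by omega)]
    have e1 : (-1 : R) ^ (n + 1 + (n + 1)) = 1 := by
      rw [← two_mul, pow_mul]; simp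
    have e2 : (-1 : R) ^ (n + 1 + n) = -1 := by
      rw [show n + 1 + n = 2 * n + 1 by ring, pow_succ, pow_mul]; simp
    rw [e1, e2, show n + 1 - n = 1 by omega]
    refine ⟨G1 - c (n + 1) n * G3 + M (n + 1) (n + 1) * G, ?_⟩
    ring

/-- Piece A5b.  The expansion of `det N_l`. -/
theorem det_Nm_expand {R : Type*} [CommRing R] (l : ℕ) (α β s : R) :
    ∃ G : R, (Nm l α β s).det = (∏ i ∈ Finset.range (2 * l + 1), dg l α β i) +
      s * EE l α β + s ^ 2 * G := by
  classical
  obtain ⟨G, hG⟩ := det_first_order (2 * l) s
    (fun i j => if i < 2 * l + 1 then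
      β ^ (l - i) * (α ^ (i - l) + α ^ (l - i)) * (Nat.choose i j : R) * (-s) ^ (i - j) +
        α ^ (l - i) * β ^ (i - l) * (Nat.choose (2 * l - i) (2 * l - j) : R) else 0)
    (fun i j => if i < 2 * l + 1 then
      β ^ (l - i) * (α ^ (i - l) + α ^ (l - i)) * (Nat.choose i j : R) * (-1) ^ (i - j) +
        (if i = j then α ^ (l - i) * β ^ (i - l) else 0) else 0)
    (by
      intro i j hij
      by_cases hi : i < 2 * l + 1
      · simp only [if_pos hi]
        by_cases h : i = j
        · subst h
          simp
        · rw [if_neg h, Nat.choose_eq_zero_of_lt (show 2 * l - i < 2 * l - j by omega), neg_pow s]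
          push_cast
          ring
      · simp only [if_neg hi, mul_zero])
  refine ⟨G, ?_⟩
  have hdet : (Nm l α β s).det = (Matrix.of fun i j : Fin (2 * l + 1) =>
      (fun i j : ℕ => if i < 2 * l + 1 then
      β ^ (l - i) * (α ^ (i - l) + α ^ (l - i)) * (Nat.choose i j : R) * (-s) ^ (i - j) +
        α ^ (l - i) * β ^ (i - l) * (Nat.choose (2 * l - i) (2 * l - j) : R) else 0) i j).det := by
    congr 1
    ext i j
    simp only [Nm, Matrix.of_apply, if_pos i.isLt]
  rw [hdet, hG]
  have hdiag : ∀ i ∈ Finset.range (2 * l + 1), (if i < 2 * l + 1 then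
      β ^ (l - i) * (α ^ (i - l) + α ^ (l - i)) * (Nat.choose i i : R) * (-s) ^ (i - i) +
        α ^ (l - i) * β ^ (i - l) * (Nat.choose (2 * l - i) (2 * l - i) : R) else 0) =
        dg l α β i := by
    intro i hi
    rw [Finset.mem_range] at hi
    rw [if_pos hi]
    simp [dg]
  rw [Finset.prod_congr rfl hdiag]
  have hsum : (∑ i ∈ Finset.range (2 * l),
      (if i + 1 < 2 * l + 1 then
        β ^ (l - (i + 1)) * (α ^ ((i + 1) - l) + α ^ (l - (i + 1))) *
          (Nat.choose (i + 1) i : R) * (-1) ^ (i + 1 - i) +
        (if i + 1 = i then α ^ (l - (i + 1)) * β ^ ((i + 1) - l) else 0) else 0) *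
      (if i < 2 * l + 1 then
        β ^ (l - i) * (α ^ (i - l) + α ^ (l - i)) * (Nat.choose i (i + 1) : R) *
          (-s) ^ (i - (i + 1)) +
        α ^ (l - i) * β ^ (i - l) * (Nat.choose (2 * l - i) (2 * l - (i + 1)) : R) else 0) *
      ∏ j ∈ (Finset.range (2 * l + 1)).filter (fun j => j ≠ i ∧ j ≠ i + 1),
        (if j < 2 * l + 1 then
      β ^ (l - j) * (α ^ (j - l) + α ^ (l - j)) * (Nat.choose j j : R) * (-s) ^ (j - j) +
        α ^ (l - j) * β ^ (j - l) * (Nat.choose (2 * l - j) (2 * l - j) : R) else 0)) =
      - EE l α β := by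
    rw [EE, ← Finset.sum_neg_distrib]
    refine Finset.sum_congr rfl fun i hi => ?_
    rw [Finset.mem_range] at hi
    rw [Finset.prod_congr rfl (g := fun j => dg l α β j) (fun j hj => hdiag j
      (Finset.mem_of_mem_filter j hj))]
    have a1 : i + 1 < 2 * l + 1 := by omega
    have a2 : ¬ (i + 1 = i) := by omega
    have a3 : i < 2 * l + 1 := by omega
    rw [if_pos a1, if_neg a2, if_pos a3,
      Nat.choose_eq_zero_of_lt (show i < i + 1 by omega),
      show i + 1 - i = 1 by omega, Nat.choose_succ_self_right,
      show 2 * l - i = (2 * l - (i + 1)) + 1 by omega, Nat.choose_succ_self_right, uu]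
    push_cast
    ring
  rw [hsum]
  ring

end Pool.Agent.TTr
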