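import Pool.Agent.Lib_MP_8c2fb0_tt.A1

namespace Pool.Agent.TTr

/-- powers of congruent units are congruent -/
theorem a6_zpow {κ : Type*} [Field κ] (V : ValuationSubring κ) {x y : κ}
    (hx : V.valuation x = 1) (hy : V.valuation y = 1) (hxy : V.valuation (x - y) < 1) (n : ℤ) :
    V.valuation (x ^ n - y ^ n) < 1 := by
  have hx0 : x ≠ 0 := by
    rintro rfl; simp at hx
  have hy0 : y ≠ 0 := by
    rintro rfl; simp at hy
  have hpx : ∀ m : ℤ, V.valuation (x ^ m) = 1 := fun m => by rw [map_zpow₀, hx, one_zpow]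
  have hpy : ∀ m : ℤ, V.valuation (y ^ m) = 1 := fun m => by rw [map_zpow₀, hy, one_zpow]
  induction n using Int.induction_on with
  | zero => simp
  | succ i ih =>
    have e : x ^ ((i : ℤ) + 1) - y ^ ((i : ℤ) + 1) =
        x ^ (i : ℤ) * (x - y) + y * (x ^ (i : ℤ) - y ^ (i : ℤ)) := by
      rw [zpow_add_one₀ hx0, zpow_add_one₀ hy0]; ring
    rw [e]
    refine lt_of_le_of_lt (V.valuation.map_add _ _) (max_lt ?_ ?_)
    · rw [map_mul, hpx, one_mul]; exact hxy
    · rw [map_mul, hy, one_mul]; exact ih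
  | pred i ih =>
    have e : x ^ (-(i : ℤ) - 1) - y ^ (-(i : ℤ) - 1) =
        x ^ (-1 : ℤ) * (x ^ (-(i : ℤ)) - y ^ (-(i : ℤ))) -
          y ^ (-(i : ℤ)) * (x ^ (-1 : ℤ) * y ^ (-1 : ℤ)) * (x - y) := by
      rw [zpow_sub_one₀ hx0, zpow_sub_one₀ hy0, zpow_neg_one, zpow_neg_one]
      field_simp
      ring
    rw [e]
    refine lt_of_le_of_lt (V.valuation.map_sub _ _) (max_lt ?_ ?_)
    · rw [map_mul, hpx, one_mul]; exact ih
    · rw [map_mul, map_mul, map_mul, hpx, hpy, hpy, one_mul, one_mul]; simpa using hxy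

/-- Piece A6.  Only one `c` with `1 + α ^ c + β ^ c = 0` if `α` is transcendental over `ℚ`.
Proof: `α - 1` is transcendental over the prime field (`(⊥ : Subfield κ)`), take a place `V` of
`κ` with `α - 1` in the maximal ideal (`exists_place`), so `α ≡ 1`.  `β ^ c = -(1 + α ^ c)`
reduces to `-2 ≠ 0` (characteristic zero residue field, it contains `ℚ`), so `β ^ c` is a unit of
`V` and so is `β` (`c ≠ 0`, valuation).  In the residue field `b ^ c = -2`, `b ^ c' = -2`, hence
`(-2) ^ c' = b ^ (c c') = (-2) ^ c` and `c = c'` (`zpow` of `-2` in characteristic zero; compare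
absolute values in `ℚ`). -/
theorem unique_exponent {κ : Type*} [Field κ] [CharZero κ] {α β : κ} (hα : Transcendental ℚ α)
    (c c' : ℤ) (hc : c ≠ 0) (hc' : c' ≠ 0) (hβ : β ≠ 0) (h : 1 + α ^ c + β ^ c = 0)
    (h' : 1 + α ^ c' + β ^ c' = 0) : c = c' := by
  have hbot : ∀ y : (⊥ : Subfield κ), ∃ q : ℚ, algebraMap ℚ κ q = (y : κ) := by
    intro y
    have h1 : (⊥ : Subfield κ) ≤ (algebraMap ℚ κ).fieldRange := bot_le
    exact RingHom.mem_fieldRange.1 (h1 y.2)
  have hx : Transcendental (⊥ : Subfield κ) (α - 1) := by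
    intro halg
    have : Algebra.IsAlgebraic ℚ (⊥ : Subfield κ) := by
      constructor
      intro y
      obtain ⟨q, hq⟩ := hbot y
      have : y = algebraMap ℚ (⊥ : Subfield κ) q := by
        apply Subtype.ext
        rw [← hq]
        rw [eq_ratCast, eq_ratCast]
        simp
      rw [this]
      exact isAlgebraic_algebraMap q
    have h1 : IsAlgebraic ℚ (α - 1) := IsAlgebraic.restrictScalars ℚ halg
    have h2 : IsAlgebraic ℚ ((α - 1) + 1) := h1.add isAlgebraic_one
    rw [sub_add_cancel] at h2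
    exact hα h2
  obtain ⟨V, hV, hxV⟩ := exists_place ⊥ (α - 1) hx
  have hxV' : V.valuation (α - 1) < 1 := V.mem_nonunits_iff.1 hxV
  have hrat : ∀ q : ℚ, q ≠ 0 → V.valuation (q : κ) = 1 := by
    intro q hq
    have hmem : ∀ r : ℚ, V.valuation (r : κ) ≤ 1 := fun r => by
      rw [V.valuation_le_one_iff]
      refine hV _ ?_
      exact SubfieldClass.ratCast_mem _ r
    refine le_antisymm (hmem q) ?_
    have h1 := hmem q⁻¹
    rw [Rat.cast_inv, map_inv₀] at h1
    have hq' : V.valuation (q : κ) ≠ 0 := by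
      rw [Valuation.ne_zero_iff]
      exact_mod_cast hq
    exact (inv_le_one₀ (zero_lt_iff.2 hq')).1 h1
  have hα1 : V.valuation α = 1 := by
    have e : α = 1 + (α - 1) := by ring
    have h1 : V.valuation (1 + (α - 1)) = V.valuation (1 : κ) := by
      apply Valuation.map_add_eq_of_lt_left
      rw [map_one]; exact hxV'
    rw [e, h1, map_one]
  have key : ∀ d : ℤ, 1 + α ^ d + β ^ d = 0 → V.valuation (β ^ d - (-2)) < 1 := by
    intro d hd
    have h1 := a6_zpow V hα1 (map_one _) hxV' d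
    rw [one_zpow] at h1
    have e : β ^ d - (-2) = -(α ^ d - 1) := by linear_combination hd
    rw [e, Valuation.map_neg]
    exact h1
  have h2v : V.valuation (-2 : κ) = 1 := by
    have := hrat (-2) (by norm_num)
    simpa using this
  have hβd : ∀ d : ℤ, 1 + α ^ d + β ^ d = 0 → V.valuation (β ^ d) = 1 := by
    intro d hd
    have e : β ^ d = -2 + (β ^ d - (-2)) := by ring
    have h1 : V.valuation (-2 + (β ^ d - (-2))) = V.valuation (-2 : κ) := by
      apply Valuation.map_add_eq_of_lt_left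
      rw [h2v]; exact key d hd
    rw [e, h1, h2v]
  have e1 := a6_zpow V (hβd c h) h2v (key c h) c'
  have e2 := a6_zpow V (hβd c' h') h2v (key c' h') c
  rw [← zpow_mul] at e1 e2
  rw [mul_comm c' c] at e2
  have e3 : V.valuation ((-2 : κ) ^ c' - (-2 : κ) ^ c) < 1 := by
    have e : (-2 : κ) ^ c' - (-2 : κ) ^ c =
        (β ^ (c * c') - (-2) ^ c) - (β ^ (c * c') - (-2) ^ c') := by ring
    rw [e]
    exact lt_of_le_of_lt (V.valuation.map_sub _ _) (max_lt e2 e1)
  have e4 : (-2 : ℚ) ^ c' - (-2 : ℚ) ^ c = 0 := by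
    by_contra hne
    have h1 := hrat _ hne
    push_cast at h1
    rw [h1] at e3
    exact lt_irrefl _ e3
  have e5 : (2 : ℚ) ^ c' = (2 : ℚ) ^ c := by
    have h1 : |(-2 : ℚ) ^ c'| = |(-2 : ℚ) ^ c| := by rw [sub_eq_zero.1 e4]
    rw [abs_zpow, abs_zpow] at h1
    simpa using h1
  exact (zpow_right_injective₀ (by norm_num) (by norm_num) e5).symm

end Pool.Agent.TTr
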