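import Pool.Agent.Lib_MP_8c2fb0_tt.Defs

namespace Pool.Agent.TTr

/-- Piece A7a.  The diagonal entries in terms of `δ_c = 1 + α ^ c + β ^ c`, `c = i - l`. -/
theorem dg_eq {κ : Type*} [Field κ] {α β : κ} (h0 : α ≠ 0) (hb : β ≠ 0) (l i : ℕ) :
    dg l α β i = (α * β) ^ (l - i) * (1 + α ^ ((i : ℤ) - l) + β ^ ((i : ℤ) - l)) := by
  unfold dg
  rcases le_total i l with h | h
  · obtain ⟨d, rfl⟩ := Nat.exists_eq_add_of_le h
    have e1 : i + d - i = d := by omega
    have e2 : i - (i + d) = 0 := by omega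
    have e3 : ((i : ℤ) - ((i + d : ℕ) : ℤ)) = -(d : ℤ) := by push_cast; ring
    rw [e1, e2, e3, zpow_neg, zpow_neg, zpow_natCast, zpow_natCast, mul_pow]
    have ha' : α ^ d ≠ 0 := pow_ne_zero _ h0
    have hb' : β ^ d ≠ 0 := pow_ne_zero _ hb
    field_simp
    ring
  · obtain ⟨d, rfl⟩ := Nat.exists_eq_add_of_le h
    have e1 : l + d - l = d := by omega
    have e2 : l - (l + d) = 0 := by omega
    have e3 : (((l + d : ℕ) : ℤ) - (l : ℤ)) = (d : ℤ) := by push_cast; ring
    rw [e1, e2, e3, zpow_natCast, zpow_natCast]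
    ring

theorem uu_eq {κ : Type*} [Field κ] {α β : κ} (h0 : α ≠ 0) (hb : β ≠ 0) (l i : ℕ) :
    uu l α β i = (α * β) ^ (l - i) * (α * β) ^ (l - (i + 1)) *
      (1 + α ^ ((i : ℤ) + 1 - l)) * β ^ ((i : ℤ) - l) := by
  unfold uu
  rcases Nat.lt_or_ge i l with h | h
  · obtain ⟨d, rfl⟩ := Nat.exists_eq_add_of_le (Nat.succ_le_of_lt h)
    have e1 : i.succ + d - i = d + 1 := by omega
    have e2 : i.succ + d - (i + 1) = d := by omega
    have e3 : i + 1 - (i.succ + d) = 0 := by omega
    have e4 : i - (i.succ + d) = 0 := by omega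
    have e5 : ((i : ℤ) + 1 - ((i.succ + d : ℕ) : ℤ)) = -(d : ℤ) := by push_cast; ring
    have e6 : ((i : ℤ) - ((i.succ + d : ℕ) : ℤ)) = -((d + 1 : ℕ) : ℤ) := by push_cast; ring
    rw [e1, e2, e3, e4, e5, e6, zpow_neg, zpow_neg, zpow_natCast, zpow_natCast, mul_pow, mul_pow]
    have ha' : α ^ d ≠ 0 := pow_ne_zero _ h0
    have hb' : β ^ d ≠ 0 := pow_ne_zero _ hb
    field_simp
    ring
  · obtain ⟨d, rfl⟩ := Nat.exists_eq_add_of_le h
    have e1 : l + d - l = d := by omega
    have e2 : l - (l + d) = 0 := by omega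
    have e3 : l - (l + d + 1) = 0 := by omega
    have e4 : l + d + 1 - l = d + 1 := by omega
    have e5 : (((l + d : ℕ) : ℤ) + 1 - (l : ℤ)) = ((d + 1 : ℕ) : ℤ) := by push_cast; ring
    have e6 : (((l + d : ℕ) : ℤ) - (l : ℤ)) = (d : ℤ) := by push_cast; ring
    rw [e1, e2, e3, e4, e5, e6, zpow_natCast, zpow_natCast]
    ring

/-- Piece A7b.  Value of `EE` at a point where exactly one diagonal entry vanishes, the one with
index `i₀ = l + c`: only the terms `i = i₀ - 1` and `i = i₀` survive. -/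
theorem EE_eq {κ : Type*} [Field κ] {α β : κ} (h0 : α ≠ 0) (hb : β ≠ 0) (l : ℕ) (c : ℤ)
    (h1 : -(l : ℤ) ≤ c) (h2 : c ≤ l) (hc : 1 + α ^ c + β ^ c = 0)
    (hu : ∀ c' : ℤ, c' ≠ c → 1 + α ^ c' + β ^ c' ≠ 0) :
    EE l α β = (α * β) ^ (-c).toNat *
      (((l : κ) + c) * ((l : κ) - c + 1) * (1 + α ^ c) * β ^ (c - 1) /
          (1 + α ^ (c - 1) + β ^ (c - 1)) +
        ((l : κ) + c + 1) * ((l : κ) - c) * (1 + α ^ (c + 1)) * β ^ c /
          (1 + α ^ (c + 1) + β ^ (c + 1))) *
      ∏ j ∈ (Finset.range (2 * l + 1)).filter (fun j : ℕ => (j : ℤ) - l ≠ c), dg l α β j := by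
  classical
  obtain ⟨k, hk⟩ : ∃ k : ℕ, (k : ℤ) = l + c := ⟨(l + c).toNat, Int.toNat_of_nonneg (by omega)⟩
  have hk2 : k ≤ 2 * l := by omega
  have hkc : (k : ℤ) - l = c := by omega
  have hdk : dg l α β k = 0 := by
    rw [dg_eq h0 hb, hkc, hc, mul_zero]
  have hlk : l - k = (-c).toNat := by omega
  have hd1 : 1 + α ^ (c - 1) + β ^ (c - 1) ≠ 0 := hu _ (by omega)
  have hd2 : 1 + α ^ (c + 1) + β ^ (c + 1) ≠ 0 := hu _ (by omega)
  have hfil : (Finset.range (2 * l + 1)).filter (fun j : ℕ => (j : ℤ) - l ≠ c) =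
      (Finset.range (2 * l + 1)).filter (fun j : ℕ => j ≠ k) := by
    apply Finset.filter_congr
    intro j _
    constructor
    · intro h h'
      exact h (by omega)
    · intro h h'
      exact h (by omega)
  rw [hfil]
  set P : κ := ∏ j ∈ (Finset.range (2 * l + 1)).filter (fun j : ℕ => j ≠ k), dg l α β j with hP
  set A : κ := (α * β) ^ (-c).toNat * (((l : κ) + c) * ((l : κ) - c + 1) * (1 + α ^ c) *
    β ^ (c - 1) / (1 + α ^ (c - 1) + β ^ (c - 1))) * P with hA
  set B : κ := (α * β) ^ (-c).toNat * (((l : κ) + c + 1) * ((l : κ) - c) * (1 + α ^ (c + 1)) *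
    β ^ c / (1 + α ^ (c + 1) + β ^ (c + 1))) * P with hB
  have key : ∀ i ∈ Finset.range (2 * l), ((i + 1 : ℕ) : κ) * ((2 * l - i : ℕ) : κ) * uu l α β i *
      ∏ j ∈ (Finset.range (2 * l + 1)).filter (fun j => j ≠ i ∧ j ≠ i + 1), dg l α β j =
      (if i + 1 = k then A else 0) + (if i = k then B else 0) := by
    intro i hi
    rw [Finset.mem_range] at hi
    by_cases hik : i = k
    · subst hik
      have e0 : ¬ (i + 1 = i) := by omega
      rw [if_neg e0, if_pos rfl, zero_add]
      have hins : (Finset.range (2 * l + 1)).filter (fun j : ℕ => j ≠ i) =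
          insert (i + 1) ((Finset.range (2 * l + 1)).filter (fun j => j ≠ i ∧ j ≠ i + 1)) := by
        ext j
        simp only [Finset.mem_filter, Finset.mem_range, Finset.mem_insert]
        omega
      have hPP : P = dg l α β (i + 1) *
          ∏ j ∈ (Finset.range (2 * l + 1)).filter (fun j => j ≠ i ∧ j ≠ i + 1), dg l α β j := by
        rw [hP, hins, Finset.prod_insert]
        simp
      have hdg : dg l α β (i + 1) = (α * β) ^ (l - (i + 1)) *
          (1 + α ^ (c + 1) + β ^ (c + 1)) := by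
        rw [dg_eq h0 hb]
        have : (((i + 1 : ℕ) : ℤ) - l) = c + 1 := by push_cast; omega
        rw [this]
      have huu : uu l α β i = (α * β) ^ (-c).toNat * (α * β) ^ (l - (i + 1)) *
          (1 + α ^ (c + 1)) * β ^ c := by
        rw [uu_eq h0 hb]
        have e1 : ((i : ℤ) + 1 - l) = c + 1 := by omega
        rw [e1, hkc, hlk]
      have hcast1 : ((i + 1 : ℕ) : κ) = (l : κ) + c + 1 := by
        have : ((i + 1 : ℕ) : ℤ) = (l : ℤ) + c + 1 := by push_cast; omega
        calc ((i + 1 : ℕ) : κ) = (((i + 1 : ℕ) : ℤ) : κ) := by push_cast; ring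
          _ = (((l : ℤ) + c + 1 : ℤ) : κ) := by rw [this]
          _ = (l : κ) + c + 1 := by push_cast; ring
      have hcast2 : ((2 * l - i : ℕ) : κ) = (l : κ) - c := by
        have : ((2 * l - i : ℕ) : ℤ) = (l : ℤ) - c := by omega
        calc ((2 * l - i : ℕ) : κ) = (((2 * l - i : ℕ) : ℤ) : κ) := by rw [Int.cast_natCast]
          _ = (((l : ℤ) - c : ℤ) : κ) := by rw [this]
          _ = (l : κ) - c := by push_cast; ring
      rw [hB, hPP, hdg, huu, hcast1, hcast2]
      field_simp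
    · rw [if_neg hik, add_zero]
      by_cases hik1 : i + 1 = k
      · subst hik1
        rw [if_pos rfl]
        have hins : (Finset.range (2 * l + 1)).filter (fun j : ℕ => j ≠ i + 1) =
            insert i ((Finset.range (2 * l + 1)).filter (fun j => j ≠ i ∧ j ≠ i + 1)) := by
          ext j
          simp only [Finset.mem_filter, Finset.mem_range, Finset.mem_insert]
          omega
        have hPP : P = dg l α β i *
            ∏ j ∈ (Finset.range (2 * l + 1)).filter (fun j => j ≠ i ∧ j ≠ i + 1), dg l α β j := by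
          rw [hP, hins, Finset.prod_insert]
          simp
        have hdg : dg l α β i = (α * β) ^ (l - i) * (1 + α ^ (c - 1) + β ^ (c - 1)) := by
          rw [dg_eq h0 hb]
          have : ((i : ℤ) - l) = c - 1 := by push_cast at hkc; omega
          rw [this]
        have huu : uu l α β i = (α * β) ^ (l - i) * (α * β) ^ (-c).toNat *
            (1 + α ^ c) * β ^ (c - 1) := by
          rw [uu_eq h0 hb]
          have e1 : ((i : ℤ) + 1 - l) = c := by push_cast at hkc; omega
          have e2 : ((i : ℤ) - l) = c - 1 := by push_cast at hkc; omega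
          rw [e1, e2, hlk]
        have hcast1 : ((i + 1 : ℕ) : κ) = (l : κ) + c := by
          calc ((i + 1 : ℕ) : κ) = (((i + 1 : ℕ) : ℤ) : κ) := by rw [Int.cast_natCast]
            _ = (((l : ℤ) + c : ℤ) : κ) := by rw [hk]
            _ = (l : κ) + c := by push_cast; ring
        have hcast2 : ((2 * l - i : ℕ) : κ) = (l : κ) - c + 1 := by
          have : ((2 * l - i : ℕ) : ℤ) = (l : ℤ) - c + 1 := by push_cast at hkc; omega
          calc ((2 * l - i : ℕ) : κ) = (((2 * l - i : ℕ) : ℤ) : κ) := by rw [Int.cast_natCast]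
            _ = (((l : ℤ) - c + 1 : ℤ) : κ) := by rw [this]
            _ = (l : κ) - c + 1 := by push_cast; ring
        rw [hA, hPP, hdg, huu, hcast1, hcast2]
        field_simp
      · rw [if_neg hik1]
        have : ∏ j ∈ (Finset.range (2 * l + 1)).filter (fun j => j ≠ i ∧ j ≠ i + 1),
            dg l α β j = 0 := by
          apply Finset.prod_eq_zero (i := k) _ hdk
          rw [Finset.mem_filter, Finset.mem_range]
          refine ⟨by omega, fun h => hik h.symm, fun h => hik1 h.symm⟩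
        rw [this, mul_zero]
  have hsum : EE l α β = ∑ i ∈ Finset.range (2 * l),
      ((if i + 1 = k then A else 0) + (if i = k then B else 0)) := by
    unfold EE
    exact Finset.sum_congr rfl key
  rw [hsum, Finset.sum_add_distrib]
  have hSA : ∑ i ∈ Finset.range (2 * l), (if i + 1 = k then A else 0) = A := by
    rcases Nat.eq_zero_or_pos k with h | h
    · have hlc : (l : κ) + c = 0 := by
        have : (l : ℤ) + c = 0 := by omega
        calc (l : κ) + c = (((l : ℤ) + c : ℤ) : κ) := by push_cast; ring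
          _ = 0 := by rw [this, Int.cast_zero]
      have hA0 : A = 0 := by rw [hA, hlc]; simp
      rw [hA0]
      simp
    · obtain ⟨k', rfl⟩ : ∃ k', k = k' + 1 := ⟨k - 1, by omega⟩
      have : ∀ i ∈ Finset.range (2 * l), (if i + 1 = k' + 1 then A else 0) =
          (if i = k' then A else 0) := by
        intro i _
        simp
      rw [Finset.sum_congr rfl this, Finset.sum_ite_eq', if_pos]
      rw [Finset.mem_range]; omega
  have hSB : ∑ i ∈ Finset.range (2 * l), (if i = k then B else 0) = B := by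
    rw [Finset.sum_ite_eq']
    split_ifs with h
    · rfl
    · rw [Finset.mem_range] at h
      have hlc : (l : κ) - c = 0 := by
        have : (l : ℤ) - c = 0 := by omega
        calc (l : κ) - c = (((l : ℤ) - c : ℤ) : κ) := by push_cast; ring
          _ = 0 := by rw [this, Int.cast_zero]
      rw [hB, hlc]; simp
  rw [hSA, hSB, hA, hB]
  ring

/-- Piece A7c.  The two values of `l` agree.  `X = (1 + α^c) β^(c-1) / δ_(c-1)`,
`Y = (1 + α^(c+1)) β^c / δ_(c+1)`; the bracket is `(l(l+1) - c² + c) X + (l(l+1) - c² - c) Y`, and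
`(X + Y) δ_(c-1) δ_(c+1) = β^c ((1 + α^(c+1)) (1 + α^(c-1)) - (1 + α^c)²) = β^c α^(c-1) (α-1)²`
(use `β^c = -(1 + α^c)`), which is not zero. -/
theorem bracket_inj {κ : Type*} [Field κ] [CharZero κ] {α β : κ} (h0 : α ≠ 0) (ha : α ≠ 1)
    (hb : β ≠ 0) (l m : ℕ) (c : ℤ) (hc : 1 + α ^ c + β ^ c = 0)
    (h1 : 1 + α ^ (c - 1) + β ^ (c - 1) ≠ 0) (h2 : 1 + α ^ (c + 1) + β ^ (c + 1) ≠ 0)
    (h : ((l : κ) + c) * ((l : κ) - c + 1) * (1 + α ^ c) * β ^ (c - 1) /
          (1 + α ^ (c - 1) + β ^ (c - 1)) +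
        ((l : κ) + c + 1) * ((l : κ) - c) * (1 + α ^ (c + 1)) * β ^ c /
          (1 + α ^ (c + 1) + β ^ (c + 1)) =
      ((m : κ) + c) * ((m : κ) - c + 1) * (1 + α ^ c) * β ^ (c - 1) /
          (1 + α ^ (c - 1) + β ^ (c - 1)) +
        ((m : κ) + c + 1) * ((m : κ) - c) * (1 + α ^ (c + 1)) * β ^ c /
          (1 + α ^ (c + 1) + β ^ (c + 1))) : l = m := by
  have ha1 : α ^ (c - 1) = α ^ c / α := by rw [zpow_sub_one₀ h0, div_eq_mul_inv]
  have ha2 : α ^ (c + 1) = α ^ c * α := zpow_add_one₀ h0 c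
  have hb1 : β ^ (c - 1) = β ^ c / β := by rw [zpow_sub_one₀ hb, div_eq_mul_inv]
  have hb2 : β ^ (c + 1) = β ^ c * β := zpow_add_one₀ hb c
  have hA : α ^ c ≠ 0 := zpow_ne_zero _ h0
  have hB : β ^ c ≠ 0 := zpow_ne_zero _ hb
  rw [ha1, ha2, hb1, hb2] at h
  rw [ha1, hb1] at h1
  rw [ha2, hb2] at h2
  generalize α ^ c = a at *
  generalize β ^ c = b at *
  have hba : b = -(1 + a) := by linear_combination hc
  have hXY : ((1 + a) * (b / β) / (1 + a / α + b / β) + (1 + a * α) * b / (1 + a * α + b * β)) *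
      ((1 + a / α + b / β) * (1 + a * α + b * β)) = b * (a / α) * (α - 1) ^ 2 := by
    have e1 : ((1 + a) * (b / β) / (1 + a / α + b / β) + (1 + a * α) * b / (1 + a * α + b * β)) *
      ((1 + a / α + b / β) * (1 + a * α + b * β)) =
        (1 + a) * (b / β) * (1 + a * α + b * β) + (1 + a * α) * b * (1 + a / α + b / β) := by
      rw [add_mul, mul_comm (1 + a / α + b / β) (1 + a * α + b * β)]
      rw [show (1 + a) * (b / β) / (1 + a / α + b / β) *
        ((1 + a * α + b * β) * (1 + a / α + b / β)) = (1 + a) * (b / β) * (1 + a * α + b * β) *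
          ((1 + a / α + b / β) / (1 + a / α + b / β)) by ring, div_self h1]
      rw [show (1 + a * α) * b / (1 + a * α + b * β) *
        ((1 + a * α + b * β) * (1 + a / α + b / β)) = (1 + a * α) * b * (1 + a / α + b / β) *
          ((1 + a * α + b * β) / (1 + a * α + b * β)) by ring, div_self h2]
      ring
    rw [e1]
    subst hba
    field_simp
    ring
  have hne : (1 + a) * (b / β) / (1 + a / α + b / β) + (1 + a * α) * b / (1 + a * α + b * β) ≠ 0 := by
    intro h'
    rw [h', zero_mul] at hXY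
    have : b * (a / α) * (α - 1) ^ 2 ≠ 0 :=
      mul_ne_zero (mul_ne_zero hB (div_ne_zero hA h0)) (pow_ne_zero _ (sub_ne_zero.mpr ha))
    exact this hXY.symm
  have hprod : ((l : κ) * (l + 1) - m * (m + 1)) *
      ((1 + a) * (b / β) / (1 + a / α + b / β) + (1 + a * α) * b / (1 + a * α + b * β)) = 0 := by
    linear_combination h
  have hlm : (l : κ) * (l + 1) - m * (m + 1) = 0 := by
    rcases mul_eq_zero.mp hprod with h' | h'
    · exact h'
    · exact absurd h' hne
  have hlm' : l * (l + 1) = m * (m + 1) := by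
    have : ((l * (l + 1) : ℕ) : κ) = ((m * (m + 1) : ℕ) : κ) := by
      push_cast
      linear_combination hlm
    exact_mod_cast this
  rcases lt_trichotomy l m with h' | h' | h'
  · nlinarith
  · exact h'
  · nlinarith

end Pool.Agent.TTr
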