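import Pool.Agent.Lib_MP_8c2fb0_tt.A1
import Pool.Agent.Lib_MP_8c2fb0_tt.A2
import Pool.Agent.Lib_MP_8c2fb0_tt.A4

/-! Pieces A9a, A9b: the determinant at a pole of `β`. -/

namespace Pool.Agent.TTr

open Matrix

/-- the inclusion of a subfield contained in the valuation ring -/
private def incl {K : Type*} [Field K] (k : Subfield K) (V : ValuationSubring K)
    (hk : ∀ y ∈ k, y ∈ V) : k →+* V :=
  (k.subtype).codRestrict V fun y => hk y y.2

/-- the subfield maps to the residue field -/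
private noncomputable def toRes {K : Type*} [Field K] (k : Subfield K) (V : ValuationSubring K)
    (hk : ∀ y ∈ k, y ∈ V) : k →+* IsLocalRing.ResidueField V :=
  (IsLocalRing.residue V).comp (incl k V hk)

private theorem toRes_apply {K : Type*} [Field K] (k : Subfield K) (V : ValuationSubring K)
    (hk : ∀ y ∈ k, y ∈ V) (a : K) (ha : a ∈ k) :
    toRes k V hk ⟨a, ha⟩ = IsLocalRing.residue V ⟨a, hk a ha⟩ := rfl

private theorem residue_zero {K : Type*} [Field K] (V : ValuationSubring K) (a : K) (ha : a ∈ V)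
    (hm : a ∈ V.nonunits) : IsLocalRing.residue V ⟨a, ha⟩ = 0 := by
  rw [IsLocalRing.residue_eq_zero_iff]
  obtain ⟨h, h'⟩ := ValuationSubring.mem_nonunits_iff_exists_mem_maximalIdeal.1 hm
  exact h'

/-- if `det N_l = 0` then the rescaled determinant vanishes in the residue field -/
private theorem res_det_zero {K : Type*} [Field K] (V : ValuationSubring K) (l : ℕ)
    (α β s : K) (hα : α ∈ V) (ht : β⁻¹ ∈ V) (hβ0 : β ≠ 0) (hs : s * β⁻¹ ∈ V)
    (h : (Nm l α β s).det = 0) :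
    (Nt l (IsLocalRing.residue V ⟨α, hα⟩) (IsLocalRing.residue V ⟨β⁻¹, ht⟩)
      (IsLocalRing.residue V ⟨s * β⁻¹, hs⟩)).det = 0 := by
  have h1 : (Nt l α β⁻¹ (s * β⁻¹)).det = 0 := by
    rw [det_Nt_eq l α β s β⁻¹ (mul_inv_cancel₀ hβ0), h, mul_zero]
  have h2 : (Nt l (⟨α, hα⟩ : V) ⟨β⁻¹, ht⟩ ⟨s * β⁻¹, hs⟩).det = 0 := by
    have h3 := Nt_map V.subtype l (⟨α, hα⟩ : V) ⟨β⁻¹, ht⟩ ⟨s * β⁻¹, hs⟩
    have h4 : (Nt l (V.subtype ⟨α, hα⟩) (V.subtype ⟨β⁻¹, ht⟩) (V.subtype ⟨s * β⁻¹, hs⟩)) =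
        Nt l α β⁻¹ (s * β⁻¹) := rfl
    rw [h4] at h3
    rw [h3] at h1
    have h5 : V.subtype (Nt l (⟨α, hα⟩ : V) ⟨β⁻¹, ht⟩ ⟨s * β⁻¹, hs⟩).det = 0 := by
      rw [RingHom.map_det]
      exact h1
    exact (map_eq_zero_iff V.subtype Subtype.coe_injective).1 h5
  rw [Nt_map]
  have h6 := RingHom.map_det (IsLocalRing.residue V) (Nt l (⟨α, hα⟩ : V) ⟨β⁻¹, ht⟩ ⟨s * β⁻¹, hs⟩)
  rw [h2, map_zero] at h6
  exact h6.symm

private theorem nonunits_mem {K : Type*} [Field K] (V : ValuationSubring K) {a : K}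
    (h : a ∈ V.nonunits) : a ∈ V := by
  obtain ⟨h1, -⟩ := ValuationSubring.mem_nonunits_iff_exists_mem_maximalIdeal.1 h
  exact h1

/-- Piece A9a.  If `β⁻¹` is in the maximal ideal and `s` is in `V`, then `det N_l ≠ 0`
(`det_Nt_eq` with `t = β⁻¹`, `det_Nt_zero` in the residue field). -/
theorem det_ne_of_pole {K : Type*} [Field K] [CharZero K] (k : Subfield K) (V : ValuationSubring K)
    (hk : ∀ y ∈ k, y ∈ V) (l : ℕ) (α β s : K) (hα : α ∈ k) (hαt : Transcendental ℚ α)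
    (hβ : β⁻¹ ∈ V.nonunits) (hβ0 : β ≠ 0) (hs : s ∈ V) : (Nm l α β s).det ≠ 0 := by
  intro h
  have ht : β⁻¹ ∈ V := nonunits_mem V hβ
  have hst : s * β⁻¹ ∈ V := mul_mem hs ht
  have h1 := res_det_zero V l α β s (hk α hα) ht hβ0 hst h
  have e1 : IsLocalRing.residue V ⟨β⁻¹, ht⟩ = 0 := residue_zero V _ ht hβ
  have e2 : IsLocalRing.residue V ⟨s * β⁻¹, hst⟩ = 0 := by
    have e3 : (⟨s * β⁻¹, hst⟩ : V) = ⟨s, hs⟩ * ⟨β⁻¹, ht⟩ := rfl
    rw [e3, map_mul, e1, mul_zero]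
  rw [e1, e2, det_Nt_zero, ← toRes_apply k V hk α hα] at h1
  have hinj : Function.Injective (toRes k V hk) := (toRes k V hk).injective
  have h2 : toRes k V hk (3 * ∏ i ∈ Finset.range l, (1 + (⟨α, hα⟩ : k) ^ (l - i))) = 0 := by
    rw [map_mul, map_prod, map_ofNat, ← h1]
    congr 1
  have h3 : (3 * ∏ i ∈ Finset.range l, (1 + (⟨α, hα⟩ : k) ^ (l - i))) = 0 :=
    (map_eq_zero_iff (toRes k V hk) hinj).1 h2
  have h4 : (3 * ∏ i ∈ Finset.range l, (1 + α ^ (l - i)) : K) = 0 := by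
    have h5 := congrArg k.subtype h3
    rw [map_zero, map_mul, map_prod, map_ofNat] at h5
    rw [← h5]
    congr 1
  rcases mul_eq_zero.1 h4 with h5 | h5
  · exact absurd h5 (by norm_num)
  · obtain ⟨i, hi, h6⟩ := Finset.prod_eq_zero_iff.1 h5
    have hi' : 0 < l - i := Nat.sub_pos_of_lt (Finset.mem_range.1 hi)
    apply hαt
    refine ⟨Polynomial.X ^ (l - i) + Polynomial.C 1, ?_, ?_⟩
    · exact (Polynomial.monic_X_pow_add_C (1 : ℚ) hi'.ne').ne_zero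
    · rw [map_add, map_pow, Polynomial.aeval_X, Polynomial.aeval_C, map_one, add_comm]
      exact h6

/-- Piece A9b.  The case `β⁻¹ ≡ 0`, `s β⁻¹ ≡ -1` (`det_Nt_neg_one` in the residue field). -/
theorem det_ne_of_pole' {K : Type*} [Field K] [CharZero K] (k : Subfield K)
    (V : ValuationSubring K) (hk : ∀ y ∈ k, y ∈ V) (l : ℕ) (α β s : K) (hα : α ∈ k) (h0 : α ≠ 0)
    (h1 : α ≠ 1) (hβ : β⁻¹ ∈ V.nonunits) (hβ0 : β ≠ 0) (hs : s * β⁻¹ + 1 ∈ V.nonunits) :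
    (Nm l α β s).det ≠ 0 := by
  intro h
  have ht : β⁻¹ ∈ V := nonunits_mem V hβ
  have hs1 : s * β⁻¹ + 1 ∈ V := nonunits_mem V hs
  have hst : s * β⁻¹ ∈ V := by
    have h2 := sub_mem hs1 (one_mem V)
    rwa [add_sub_cancel_right] at h2
  have h2 := res_det_zero V l α β s (hk α hα) ht hβ0 hst h
  have e1 : IsLocalRing.residue V ⟨β⁻¹, ht⟩ = 0 := residue_zero V _ ht hβ
  have e2 : IsLocalRing.residue V ⟨s * β⁻¹, hst⟩ = -1 := by
    have e3 : IsLocalRing.residue V ⟨s * β⁻¹ + 1, hs1⟩ = 0 := residue_zero V _ hs1 hs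
    have e4 : (⟨s * β⁻¹ + 1, hs1⟩ : V) = ⟨s * β⁻¹, hst⟩ + 1 := rfl
    rw [e4, map_add, map_one] at e3
    exact eq_neg_of_add_eq_zero_left e3
  rw [e1, e2, ← toRes_apply k V hk α hα] at h2
  have hinj : Function.Injective (toRes k V hk) := (toRes k V hk).injective
  have : CharZero k := RingHom.charZero k.subtype
  have : CharZero (IsLocalRing.ResidueField V) := charZero_of_injective_ringHom hinj
  refine det_Nt_neg_one l _ ?_ ?_ h2
  · intro h3
    have h4 := (map_eq_zero_iff (toRes k V hk) hinj).1 h3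
    exact h0 (congrArg Subtype.val h4)
  · intro h3
    have h4 : toRes k V hk ⟨α, hα⟩ = toRes k V hk 1 := by rw [h3, map_one]
    exact h1 (congrArg Subtype.val (hinj h4))

end Pool.Agent.TTr
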