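import Pool.Agent.Lib_MP_8c2fb0_tt.A1
import Pool.Agent.Lib_MP_8c2fb0_tt.A2
import Pool.Agent.Lib_MP_8c2fb0_tt.A5
import Pool.Agent.Lib_MP_8c2fb0_tt.A6
import Pool.Agent.Lib_MP_8c2fb0_tt.A7
import Pool.Agent.Lib_MP_8c2fb0_tt.A9ab

/-! Pieces A9c and A9d (MP_8c2fb0_lc): `not_both` and `core`. -/

set_option autoImplicit false

namespace Pool.Agent.TTr

open Matrix

section maps

variable {R S : Type*} [CommRing R] [CommRing S] (φ : R →+* S)

private theorem dg_map (l : ℕ) (α β : R) (i : ℕ) : φ (dg l α β i) = dg l (φ α) (φ β) i := by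
  simp only [dg, map_add, map_mul, map_pow]

private theorem uu_map (l : ℕ) (α β : R) (i : ℕ) : φ (uu l α β i) = uu l (φ α) (φ β) i := by
  simp only [uu, map_add, map_mul, map_pow]

private theorem EE_map (l : ℕ) (α β : R) : φ (EE l α β) = EE l (φ α) (φ β) := by
  simp only [EE, map_sum, map_mul, map_prod, map_natCast, uu_map, dg_map]

end maps

section residue

variable {K : Type*} [Field K] [CharZero K] (k : Subfield K) (V : ValuationSubring K)
  (hk : ∀ y ∈ k, y ∈ V)

/-- the inclusion of `k` in `V` -/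
private def incV : k →+* V where
  toFun y := ⟨y, hk y y.2⟩
  map_one' := rfl
  map_mul' _ _ := rfl
  map_zero' := rfl
  map_add' _ _ := rfl

include k hk in
private theorem res_charZero : CharZero (IsLocalRing.ResidueField V) := by
  have h1 : CharZero k := RingHom.charZero k.subtype
  exact charZero_of_injective_ringHom
    (f := (IsLocalRing.residue V).comp (incV k V hk)) (RingHom.injective _)

private theorem res_transcendental [CharZero (IsLocalRing.ResidueField V)] (α : K) (hα : α ∈ k)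
    (hαt : Transcendental ℚ α) :
    Transcendental ℚ (IsLocalRing.residue V (⟨α, hk α hα⟩ : V)) := by
  have h1 : CharZero k := RingHom.charZero k.subtype
  intro h
  apply hαt
  have e1 : ((IsLocalRing.residue V).comp (incV k V hk)).toRatAlgHom (⟨α, hα⟩ : k) =
      IsLocalRing.residue V (⟨α, hk α hα⟩ : V) := rfl
  rw [← e1, isAlgebraic_algHom_iff _ (RingHom.injective _)] at h
  have e2 : (k.subtype).toRatAlgHom (⟨α, hα⟩ : k) = α := rfl
  rw [← e2, isAlgebraic_algHom_iff _ (RingHom.injective _)]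
  exact h

end residue

private theorem dg_zero_ne {κ : Type*} [Field κ] [CharZero κ] {α : κ} (hα : Transcendental ℚ α)
    (l i : ℕ) : dg l α 0 i ≠ 0 := by
  have h0 : α ≠ 0 := by
    rintro rfl
    exact hα isAlgebraic_zero
  unfold dg
  rcases lt_trichotomy i l with h | h | h
  · have e1 : i - l = 0 := by omega
    have e2 : l - i ≠ 0 := by omega
    rw [e1, zero_pow e2, pow_zero, zero_mul, zero_add, pow_zero, mul_one]
    exact pow_ne_zero _ h0
  · subst h
    simp only [Nat.sub_self, pow_zero]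
    norm_num
  · have e1 : l - i = 0 := by omega
    have e2 : i - l ≠ 0 := by omega
    rw [e1, zero_pow e2, pow_zero, pow_zero, one_mul, mul_zero, add_zero]
    intro h3
    have h4 : α ^ (i - l) = -1 := by linear_combination h3
    have h5 := hα.pow (Nat.pos_of_ne_zero e2)
    rw [h4] at h5
    exact h5 isAlgebraic_one.neg

/-- the expansion in a domain, at the index `i` -/
private theorem expand_at {R : Type*} [CommRing R] (n : ℕ) (a b σ : R)
    (h : (Nm n a b σ).det = 0) (c : ℤ) (i : ℕ) (hi : (i : ℤ) - n = c) (hin : i < 2 * n + 1) :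
    ∃ G : R, dg n a b i *
      (∏ j ∈ (Finset.range (2 * n + 1)).filter (fun j : ℕ => (j : ℤ) - n ≠ c), dg n a b j) +
      σ * EE n a b + σ ^ 2 * G = 0 := by
  obtain ⟨G, hG⟩ := det_Nm_expand n a b σ
  refine ⟨G, ?_⟩
  rw [h] at hG
  have e1 : (Finset.range (2 * n + 1)).filter (fun j : ℕ => (j : ℤ) - n ≠ c) =
      (Finset.range (2 * n + 1)).erase i := by
    ext j
    simp only [Finset.mem_filter, Finset.mem_range, Finset.mem_erase]
    constructor
    · rintro ⟨h1, h2⟩
      exact ⟨by rintro rfl; exact h2 hi, h1⟩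
    · rintro ⟨h1, h2⟩
      exact ⟨h2, by omega⟩
  rw [e1, Finset.mul_prod_erase _ _ (Finset.mem_range.2 hin)]
  exact hG.symm

/-- Piece A9c.  Points of a valuation ring: if `s` is in the maximal ideal and `β` in `V`, the
determinants for `l ≠ m` are not both zero. -/
theorem not_both {K : Type*} [Field K] [CharZero K] (k : Subfield K) (V : ValuationSubring K)
    (hk : ∀ y ∈ k, y ∈ V) (l m : ℕ) (hlm : l ≠ m) (α β s : K) (hα : α ∈ k)
    (hαt : Transcendental ℚ α) (hβ : β ∈ V) (hs : s ∈ V.nonunits) (hs0 : s ≠ 0)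
    (hl : (Nm l α β s).det = 0) (hm : (Nm m α β s).det = 0) : False := by
  have hch := res_charZero k V hk
  have hsV : s ∈ V := ValuationSubring.nonunits_subset hs
  set a : V := ⟨α, hk α hα⟩ with ha
  set b : V := ⟨β, hβ⟩ with hb
  set σ : V := ⟨s, hsV⟩ with hσ
  have hA : Transcendental ℚ (IsLocalRing.residue V a) := res_transcendental k V hk α hα hαt
  set A := IsLocalRing.residue V a with hAdef
  set B := IsLocalRing.residue V b with hBdef
  have hσ0 : IsLocalRing.residue V σ = 0 := by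
    rw [IsLocalRing.residue_eq_zero_iff]
    exact (ValuationSubring.coe_mem_nonunits_iff (A := V) (a := σ)).1 hs
  have hσne : σ ≠ 0 := by
    intro h
    exact hs0 (congrArg Subtype.val h)
  have hA0 : A ≠ 0 := by
    intro h
    rw [h] at hA
    exact hA isAlgebraic_zero
  have hA1 : A ≠ 1 := by
    intro h
    rw [h] at hA
    exact hA isAlgebraic_one
  -- the determinants in `V`
  have key : ∀ n : ℕ, (Nm n α β s).det = 0 → (Nm n a b σ).det = 0 := by
    intro n hn
    have h1 : V.subtype (Nm n a b σ).det = (Nm n α β s).det := by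
      rw [RingHom.map_det]
      congr 1
    rw [hn] at h1
    exact (map_eq_zero_iff V.subtype Subtype.val_injective).1 h1
  -- the reductions
  have red : ∀ n : ℕ, (Nm n α β s).det = 0 →
      ∃ i, i < 2 * n + 1 ∧ dg n A B i = 0 := by
    intro n hn
    obtain ⟨G, hG⟩ := det_Nm_expand n a b σ
    rw [key n hn] at hG
    have h1 := congrArg (IsLocalRing.residue V) hG
    rw [map_add, map_add, map_mul, map_mul, map_pow, hσ0, map_zero, zero_mul, add_zero,
      zero_pow two_ne_zero, zero_mul, add_zero, map_prod] at h1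
    obtain ⟨i, hi, h2⟩ := Finset.prod_eq_zero_iff.1 h1.symm
    exact ⟨i, Finset.mem_range.1 hi, by rw [← dg_map]; exact h2⟩
  have hB0 : B ≠ 0 := by
    intro h
    obtain ⟨i, _, hi⟩ := red l hl
    rw [h] at hi
    exact dg_zero_ne hA l i hi
  have hAB : A * B ≠ 0 := mul_ne_zero hA0 hB0
  have d0 : (1 : IsLocalRing.ResidueField V) + A ^ (0 : ℤ) + B ^ (0 : ℤ) ≠ 0 := by
    rw [zpow_zero, zpow_zero]
    norm_num
  have red2 : ∀ n : ℕ, (Nm n α β s).det = 0 →
      ∃ (i : ℕ) (c : ℤ), (i : ℤ) - n = c ∧ i < 2 * n + 1 ∧ c ≠ 0 ∧ 1 + A ^ c + B ^ c = 0 := by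
    intro n hn
    obtain ⟨i, hi, h⟩ := red n hn
    rw [dg_eq hA0 hB0] at h
    have h2 := (mul_eq_zero.1 h).resolve_left (pow_ne_zero _ hAB)
    refine ⟨i, (i : ℤ) - n, rfl, hi, ?_, h2⟩
    intro h3
    rw [h3] at h2
    exact d0 h2
  obtain ⟨i, c, hi, hi2, hc0, hc⟩ := red2 l hl
  obtain ⟨i', c', hi', hi2', hc0', hc'⟩ := red2 m hm
  obtain rfl : c = c' := unique_exponent hA c c' hc0 hc0' hB0 hc hc'
  have hu : ∀ c' : ℤ, c' ≠ c → 1 + A ^ c' + B ^ c' ≠ 0 := by
    intro c' h1 h2
    by_cases h3 : c' = 0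
    · rw [h3] at h2
      exact d0 h2
    · exact h1 (unique_exponent hA c' c h3 hc0 hB0 h2 hc)
  obtain ⟨G, hG⟩ := expand_at l a b σ (key l hl) c i hi hi2
  obtain ⟨G', hG'⟩ := expand_at m a b σ (key m hm) c i' hi' hi2'
  have hx : dg m a b i' = dg l a b i := by
    have e1 : m - i' = l - i := by omega
    have e2 : i' - m = i - l := by omega
    unfold dg
    rw [e1, e2]
  rw [hx] at hG'
  set Hl := ∏ j ∈ (Finset.range (2 * l + 1)).filter (fun j : ℕ => (j : ℤ) - l ≠ c), dg l a b j
    with hHl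
  set Hm := ∏ j ∈ (Finset.range (2 * m + 1)).filter (fun j : ℕ => (j : ℤ) - m ≠ c), dg m a b j
    with hHm
  have h1 : σ * ((EE l a b + σ * G) * Hm - (EE m a b + σ * G') * Hl) = 0 := by
    linear_combination Hm * hG - Hl * hG'
  have h2 := (mul_eq_zero.1 h1).resolve_left hσne
  have h3 := congrArg (IsLocalRing.residue V) h2
  rw [map_sub, map_mul, map_mul, map_add, map_add, map_mul, map_mul, hσ0, zero_mul, zero_mul,
    add_zero, add_zero, map_zero, EE_map, EE_map, sub_eq_zero] at h3
  have rH : ∀ n : ℕ, IsLocalRing.residue V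
      (∏ j ∈ (Finset.range (2 * n + 1)).filter (fun j : ℕ => (j : ℤ) - n ≠ c), dg n a b j) =
      ∏ j ∈ (Finset.range (2 * n + 1)).filter (fun j : ℕ => (j : ℤ) - n ≠ c), dg n A B j := by
    intro n
    rw [map_prod]
    exact Finset.prod_congr rfl fun j _ => dg_map _ _ _ _ _
  have rHne : ∀ n : ℕ,
      ∏ j ∈ (Finset.range (2 * n + 1)).filter (fun j : ℕ => (j : ℤ) - n ≠ c), dg n A B j ≠ 0 := by
    intro n
    refine Finset.prod_ne_zero_iff.2 fun j hj => ?_
    rw [dg_eq hA0 hB0]
    exact mul_ne_zero (pow_ne_zero _ hAB) (hu _ (Finset.mem_filter.1 hj).2)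
  rw [hHl, hHm, rH l, rH m] at h3
  have el := EE_eq hA0 hB0 l c (by omega) (by omega) hc hu
  have em := EE_eq hA0 hB0 m c (by omega) (by omega) hc hu
  rw [el, em] at h3
  have hq : (A * B) ^ (-c).toNat ≠ 0 := pow_ne_zero _ hAB
  refine hlm (bracket_inj hA0 hA1 hB0 l m c hc (hu _ (by omega)) (hu _ (by omega)) ?_)
  refine mul_left_cancel₀ hq (mul_right_cancel₀ (mul_ne_zero (rHne l) (rHne m)) ?_)
  linear_combination h3

/-- Piece A9d.  The core.  If `s` is transcendental over `k = ℚ(α)`: `exists_place`, then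
`det_ne_of_pole` gives `β ∈ V` (or `β = 0`), then `not_both`.  If `β` is transcendental over
`k(s)`: `exists_place` for `k(s)` and `β⁻¹`, then `det_ne_of_pole`. -/
theorem core {K : Type*} [Field K] [CharZero K] (l m : ℕ) (hlm : l ≠ m) (α β s : K)
    (hαt : Transcendental ℚ α) (hl : (Nm l α β s).det = 0) (hm : (Nm m α β s).det = 0) :
    IsAlgebraic (IntermediateField.adjoin ℚ {α}) s ∧
      IsAlgebraic (IntermediateField.adjoin ℚ {α}) β := by
  have hαF : α ∈ IntermediateField.adjoin ℚ {α} := IntermediateField.mem_adjoin_simple_self ℚ α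
  have hs : IsAlgebraic (IntermediateField.adjoin ℚ {α}) s := by
    by_contra hs
    have hs' : Transcendental (IntermediateField.adjoin ℚ {α}).toSubfield s := hs
    obtain ⟨V, hV, hsV⟩ := exists_place _ s hs'
    have hs0 : s ≠ 0 := by
      rintro rfl
      exact hs isAlgebraic_zero
    by_cases hβ : β ∈ V
    · exact not_both _ V hV l m hlm α β s hαF hαt hβ hsV hs0 hl hm
    · have hβ0 : β ≠ 0 := by
        rintro rfl
        exact hβ V.zero_mem
      refine det_ne_of_pole _ V hV l α β s hαF hαt ?_ hβ0 (ValuationSubring.nonunits_subset hsV) hl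
      rw [ValuationSubring.mem_nonunits_iff_exists_mem_maximalIdeal]
      have h1 : β⁻¹ ∈ V := (V.mem_or_inv_mem β).resolve_left hβ
      refine ⟨h1, ?_⟩
      rw [IsLocalRing.mem_maximalIdeal, mem_nonunits_iff]
      intro h2
      obtain ⟨u, hu⟩ := h2
      apply hβ
      have h3 : ((u⁻¹ : Vˣ) : V).1 = β := by
        have h4 : (u : V) * ((u⁻¹ : Vˣ) : V) = 1 := u.mul_inv
        have h5 : (u : V).1 * ((u⁻¹ : Vˣ) : V).1 = 1 := congrArg Subtype.val h4
        rw [hu] at h5
        have h6 : β⁻¹ * ((u⁻¹ : Vˣ) : V).1 = 1 := h5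
        field_simp at h6
        exact h6
      rw [← h3]
      exact ((u⁻¹ : Vˣ) : V).2
  refine ⟨hs, ?_⟩
  by_contra hβ
  have halg : Algebra.IsAlgebraic (IntermediateField.adjoin ℚ {α})
      (IntermediateField.adjoin (IntermediateField.adjoin ℚ {α}) {s}) :=
    IntermediateField.isAlgebraic_adjoin_simple hs.isIntegral
  set F' := IntermediateField.adjoin (IntermediateField.adjoin ℚ {α}) {s} with hF'
  have hβ' : Transcendental F' β⁻¹ := by
    intro h
    apply hβ
    have h1 : IsAlgebraic F' β := by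
      have := h.inv
      rwa [inv_inv] at this
    exact h1.restrictScalars _
  have hβ'' : Transcendental F'.toSubfield β⁻¹ := hβ'
  obtain ⟨V, hV, hβV⟩ := exists_place _ β⁻¹ hβ''
  have hβ0 : β ≠ 0 := by
    rintro rfl
    exact hβ isAlgebraic_zero
  have hsF : s ∈ F' := IntermediateField.mem_adjoin_simple_self _ s
  have hαF' : α ∈ F' := F'.algebraMap_mem ⟨α, hαF⟩
  exact det_ne_of_pole _ V hV l α β s hαF' hαt hβV hβ0 (hV s hsF) hl

end Pool.Agent.TTr
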