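import Pool.Agent.Lib_MP_8c2fb0_tt.A9ab
import Pool.Agent.Lib_MP_8c2fb0_tt.A9cd

/-!
The pieces A9a, A9b (`det_ne_of_pole`, `det_ne_of_pole'`) are in `A9ab.lean`, the pieces A9c, A9d
(`not_both`, `core`) in `A9cd.lean`.
-/
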