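import Pool.Agent.Lib_MP_8c2fb0_tt.Defs

namespace Pool.Agent.TTr

private theorem zero' (N : ℕ) : IsForm N (fun _ _ => 0) :=
  ⟨fun _ => 0, fun u v => by simp⟩

private theorem add' {N : ℕ} {F G : ℂ → ℂ → ℂ} (hF : IsForm N F) (hG : IsForm N G) :
    IsForm N (fun u v => F u v + G u v) := by
  obtain ⟨f, hf⟩ := hF
  obtain ⟨g, hg⟩ := hG
  refine ⟨fun j => f j + g j, fun u v => ?_⟩
  simp only [hf, hg, add_mul, Finset.sum_add_distrib]

private theorem smul' {N : ℕ} {F : ℂ → ℂ → ℂ} (c : ℂ) (hF : IsForm N F) :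
    IsForm N (fun u v => c * F u v) := by
  obtain ⟨f, hf⟩ := hF
  refine ⟨fun j => c * f j, fun u v => ?_⟩
  simp only [hf, Finset.mul_sum, mul_assoc]

private theorem mulu {N : ℕ} {F : ℂ → ℂ → ℂ} (hF : IsForm N F) :
    IsForm (N + 1) (fun u v => u * F u v) := by
  obtain ⟨f, hf⟩ := hF
  refine ⟨fun j => if j = 0 then 0 else f (j - 1), fun u v => ?_⟩
  simp only [hf]
  rw [Finset.sum_range_succ' _ (N + 1), Finset.mul_sum]
  simp only [if_true, zero_mul, add_zero]
  refine Finset.sum_congr rfl fun j _ => ?_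
  rw [if_neg (Nat.succ_ne_zero j), Nat.add_sub_cancel, Nat.add_sub_add_right, pow_succ]
  ring

private theorem mulv {N : ℕ} {F : ℂ → ℂ → ℂ} (hF : IsForm N F) :
    IsForm (N + 1) (fun u v => v * F u v) := by
  obtain ⟨f, hf⟩ := hF
  refine ⟨fun j => if j = N + 1 then 0 else f j, fun u v => ?_⟩
  simp only [hf]
  rw [Finset.sum_range_succ _ (N + 1), Finset.mul_sum]
  simp only [if_true, zero_mul, add_zero]
  refine Finset.sum_congr rfl fun j hj => ?_
  have hj' : j < N + 1 := Finset.mem_range.mp hj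
  rw [if_neg (by omega), Nat.sub_add_comm (by omega), pow_succ]
  ring

private theorem sub' {N : ℕ} {F G : ℂ → ℂ → ℂ} (hF : IsForm N F) (hG : IsForm N G) :
    IsForm N (fun u v => F u v - G u v) := by
  obtain ⟨f, hf⟩ := hF
  obtain ⟨g, hg⟩ := hG
  refine ⟨fun j => f j - g j, fun u v => ?_⟩
  simp only [hf, hg, sub_mul, Finset.sum_sub_distrib]

private theorem congr' {N : ℕ} {F G : ℂ → ℂ → ℂ} (hF : IsForm N F) (h : ∀ u v, G u v = F u v) :
    IsForm N G := by
  obtain ⟨f, hf⟩ := hF
  exact ⟨f, fun u v => by rw [h, hf]⟩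

private theorem mulphi {N : ℕ} {F : ℂ → ℂ → ℂ} (hF : IsForm N F) (i : Fin 3) :
    IsForm (N + 2) (fun u v => phi u v i * F u v) := by
  have h1 := mulu (mulu hF)
  have h2 := mulv (mulv hF)
  have h3 := mulu (mulv hF)
  fin_cases i
  · refine congr' (sub' h1 h2) fun u v => ?_
    show (u ^ 2 - v ^ 2) * F u v = _
    ring
  · refine congr' (smul' Complex.I (add' h1 h2)) fun u v => ?_
    show (Complex.I * (u ^ 2 + v ^ 2)) * F u v = _
    ring
  · refine congr' (smul' (-2) h3) fun u v => ?_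
    show (-2 * u * v) * F u v = _
    ring

private theorem mulpow {N : ℕ} {F : ℂ → ℂ → ℂ} (hF : IsForm N F) (i : Fin 3) (k : ℕ) :
    IsForm (N + 2 * k) (fun u v => phi u v i ^ k * F u v) := by
  induction k with
  | zero => exact congr' hF fun u v => by rw [pow_zero, one_mul]
  | succ k ih =>
    have h := mulphi ih i
    refine congr' (N := N + 2 * (k + 1)) h fun u v => ?_
    rw [pow_succ]
    ring

private theorem sum' {ι : Type*} (s : Finset ι) {N : ℕ} (F : ι → ℂ → ℂ → ℂ)
    (hF : ∀ i ∈ s, IsForm N (F i)) : IsForm N (fun u v => ∑ i ∈ s, F i u v) := by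
  classical
  induction s using Finset.induction_on with
  | empty => exact congr' (zero' N) fun u v => Finset.sum_empty
  | insert a s ha ih =>
    refine congr' (add' (hF a (Finset.mem_insert_self a s))
      (ih fun i hi => hF i (Finset.mem_insert_of_mem hi))) fun u v => ?_
    rw [Finset.sum_insert ha]

/-- Piece B1.  The restriction of a homogeneous polynomial to the null vectors is a binary form of
twice the degree.
Proof: `IsForm` is closed under sums, scalar multiples, and `IsForm N F` gives `IsForm (N+1)` of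
`u * F` and `v * F` (shift of the coefficients), hence `IsForm (N+2)` of `phi u v i * F`; then sum
over the monomials of `P` (each of degree `n`). -/
theorem isForm_nul (P : MvPolynomial (Fin 3) ℝ) (n : ℕ) (hP : P.IsHomogeneous n) :
    IsForm (2 * n) (nul P) := by
  have hsum : ∀ u v, nul P u v = ∑ m ∈ P.support, (((P.coeff m : ℝ) : ℂ) *
      (phi u v 0 ^ m 0 * (phi u v 1 ^ m 1 * (phi u v 2 ^ m 2 * 1)))) := by
    intro u v
    have h1 : nul P u v = ∑ m ∈ P.support, MvPolynomial.eval (phi u v)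
        (MvPolynomial.map Complex.ofRealHom (MvPolynomial.monomial m (P.coeff m))) := by
      unfold nul
      conv_lhs => rw [P.as_sum]
      rw [map_sum, map_sum]
    rw [h1]
    refine Finset.sum_congr rfl fun m _ => ?_
    rw [MvPolynomial.map_monomial, MvPolynomial.eval_monomial,
      Finsupp.prod_fintype _ _ (fun i => pow_zero _), Fin.prod_univ_three, mul_one, mul_assoc]
    rfl
  refine congr' (sum' P.support (fun m u v => ((P.coeff m : ℝ) : ℂ) *
      (phi u v 0 ^ m 0 * (phi u v 1 ^ m 1 * (phi u v 2 ^ m 2 * 1)))) fun m hm => ?_) hsum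
  have hdeg : 2 * n = 0 + 2 * m 2 + 2 * m 1 + 2 * m 0 := by
    have h1 := hP (MvPolynomial.mem_support_iff.mp hm)
    rw [Finsupp.weight_apply, Finsupp.sum_fintype _ _ (fun i => by rw [zero_smul]),
      Fin.sum_univ_three] at h1
    simp only [Pi.one_apply, smul_eq_mul, mul_one] at h1
    omega
  rw [hdeg]
  have h0 : IsForm 0 (fun _ _ => (1 : ℂ)) := ⟨fun _ => 1, fun u v => by simp⟩
  exact smul' _ (mulpow (mulpow (mulpow h0 2 (m 2)) 1 (m 1)) 0 (m 0))

end Pool.Agent.TTr
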