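import Pool.Agent.Lib_MP_8c2fb0_tt.Defs

namespace Pool.Agent.TTr

open Matrix

private noncomputable def aB2 (l : ℕ) (α β : ℂ) (i : ℕ) : ℂ :=
  β ^ (l - i) * (α ^ (i - l) + α ^ (l - i))

private noncomputable def bB2 (l : ℕ) (α β : ℂ) (i : ℕ) : ℂ := α ^ (l - i) * β ^ (i - l)

private noncomputable def nB2 (l : ℕ) (α β q r : ℂ) :
    Matrix (Fin (2 * l + 1)) (Fin (2 * l + 1)) ℂ := fun i j =>
  aB2 l α β i * (Nat.choose i j : ℂ) * (-q) ^ ((i : ℕ) - (j : ℕ)) +
    bB2 l α β i * (Nat.choose (2 * l - i) (2 * l - j) : ℂ) * r ^ ((j : ℕ) - (i : ℕ))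

private theorem nB2_diag (l : ℕ) (α β q r : ℂ) (i : Fin (2 * l + 1)) :
    nB2 l α β q r i i = aB2 l α β i + bB2 l α β i := by
  simp [nB2]

private theorem Nm_diag (l : ℕ) (α β s : ℂ) (i : Fin (2 * l + 1)) :
    Nm l α β s i i = aB2 l α β i + bB2 l α β i := by
  simp [Nm, aB2, bB2]

private theorem det_nB2 (l : ℕ) (α β q r : ℂ) : (nB2 l α β q r).det = (Nm l α β (q * r)).det := by
  by_cases hr : r = 0
  · subst hr
    have h1 : (nB2 l α β q 0).det = ∏ i, nB2 l α β q 0 i i := by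
      refine Matrix.det_of_isLowerTriangular _ ?_
      intro i j hij
      have hij' : i < j := hij
      have h2 : (i : ℕ) < (j : ℕ) := hij'
      unfold nB2
      rw [Nat.choose_eq_zero_of_lt h2, zero_pow (by omega), Nat.cast_zero, mul_zero, zero_mul,
        mul_zero, add_zero]
    have h3 : (Nm l α β (q * 0)).det = ∏ i, Nm l α β (q * 0) i i := by
      refine Matrix.det_of_isUpperTriangular ?_
      intro i j hij
      have hij' : j < i := hij
      have h2 : (j : ℕ) < (i : ℕ) := hij'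
      have h4 : (i : ℕ) < 2 * l + 1 := i.2
      unfold Nm
      rw [Nat.choose_eq_zero_of_lt (by omega : 2 * l - (i : ℕ) < 2 * l - (j : ℕ)), mul_zero,
        neg_zero, zero_pow (by omega), Nat.cast_zero, mul_zero, mul_zero, add_zero]
    rw [h1, h3]
    refine Finset.prod_congr rfl fun i _ => ?_
    rw [nB2_diag, Nm_diag]
  · have h1 : Matrix.diagonal (fun i : Fin (2 * l + 1) => r ^ (i : ℕ)) * nB2 l α β q r =
        Nm l α β (q * r) * Matrix.diagonal (fun i : Fin (2 * l + 1) => r ^ (i : ℕ)) := by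
      ext i j
      rw [Matrix.diagonal_mul, Matrix.mul_diagonal]
      unfold nB2 Nm
      have hi : (i : ℕ) < 2 * l + 1 := i.2
      have hj : (j : ℕ) < 2 * l + 1 := j.2
      rcases lt_trichotomy (i : ℕ) (j : ℕ) with hij | hij | hij
      · rw [Nat.choose_eq_zero_of_lt hij]
        obtain ⟨k, hk⟩ := Nat.exists_eq_add_of_le hij.le
        rw [hk, Nat.add_sub_cancel_left, pow_add]
        unfold aB2 bB2
        push_cast
        ring
      · rw [hij, Nat.sub_self]
        unfold aB2 bB2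
        ring
      · rw [Nat.choose_eq_zero_of_lt (by omega : 2 * l - (i : ℕ) < 2 * l - (j : ℕ))]
        obtain ⟨k, hk⟩ := Nat.exists_eq_add_of_le hij.le
        have h5 : (i : ℕ) - (j : ℕ) = k := by omega
        rw [h5]
        have h6 : r ^ (i : ℕ) = r ^ (j : ℕ) * r ^ k := by rw [hk, pow_add]
        rw [h6]
        have h7 : (-(q * r)) ^ k = (-q) ^ k * r ^ k := by rw [← mul_pow]; ring_nf
        rw [h7]
        unfold aB2 bB2
        push_cast
        ring
    have h2 := congrArg Matrix.det h1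
    rw [Matrix.det_mul, Matrix.det_mul, Matrix.det_diagonal, mul_comm] at h2
    exact mul_right_cancel₀ (Finset.prod_ne_zero_iff.2 fun i _ => pow_ne_zero _ hr) h2

private theorem coef_aB2 (l i : ℕ) (hi : i ≤ 2 * l) (τ p f : ℂ) (hτ : τ ≠ 0) (hp : p ≠ 0) (z : ℂ) :
    f * ((τ ^ 2 * p) ^ (l - i))⁻¹ * (p ^ (i - l))⁻¹ * (aB2 l (τ ^ 2) (p ^ 2) i * z ^ i) =
      p ^ l * (f * (z / p) ^ i * 1 ^ (2 * l - i) + f * (τ * (z / p)) ^ i * (τ⁻¹ * 1) ^ (2 * l - i)) := by
  unfold aB2
  rcases le_or_gt i l with h | h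
  · obtain ⟨k, rfl⟩ := Nat.exists_eq_add_of_le h
    have h1 : i + k - i = k := by omega
    have h2 : i - (i + k) = 0 := by omega
    have h3 : 2 * (i + k) - i = i + (k + k) := by omega
    rw [h1, h2, h3]
    simp only [one_pow, mul_one, pow_zero, inv_one, div_pow, mul_pow, pow_add, inv_pow]
    field_simp
    ring
  · obtain ⟨k, rfl⟩ := Nat.exists_eq_add_of_le h.le
    obtain ⟨m, rfl⟩ := Nat.exists_eq_add_of_le (by omega : k ≤ l)
    have h1 : k + m - (k + m + k) = 0 := by omega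
    have h2 : k + m + k - (k + m) = k := by omega
    have h3 : 2 * (k + m) - (k + m + k) = m := by omega
    rw [h1, h2, h3]
    simp only [one_pow, mul_one, pow_zero, inv_one, div_pow, mul_pow, pow_add, inv_pow]
    field_simp
    ring

private theorem coef_bB2 (l i : ℕ) (hi : i ≤ 2 * l) (τ p f : ℂ) (hτ : τ ≠ 0) (hp : p ≠ 0)
    (w z : ℂ) :
    f * ((τ ^ 2 * p) ^ (l - i))⁻¹ * (p ^ (i - l))⁻¹ * (bB2 l (τ ^ 2) (p ^ 2) i *
      (w ^ i * z ^ (2 * l - i))) = p ^ l * (f * w ^ i * (z / p) ^ (2 * l - i)) := by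
  unfold bB2
  rcases le_or_gt i l with h | h
  · obtain ⟨k, rfl⟩ := Nat.exists_eq_add_of_le h
    have h1 : i + k - i = k := by omega
    have h2 : i - (i + k) = 0 := by omega
    have h3 : 2 * (i + k) - i = i + (k + k) := by omega
    rw [h1, h2, h3]
    simp only [mul_one, pow_zero, inv_one, div_pow, mul_pow, pow_add]
    field_simp
  · obtain ⟨k, rfl⟩ := Nat.exists_eq_add_of_le h.le
    obtain ⟨m, rfl⟩ := Nat.exists_eq_add_of_le (by omega : k ≤ l)
    have h1 : k + m - (k + m + k) = 0 := by omega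
    have h2 : k + m + k - (k + m) = k := by omega
    have h3 : 2 * (k + m) - (k + m + k) = m := by omega
    rw [h1, h2, h3]
    simp only [mul_one, pow_zero, inv_one, div_pow, pow_add]
    field_simp
    ring

private theorem coeff_rX (r : ℂ) (n k : ℕ) :
    ((Polynomial.C r * Polynomial.X + 1) ^ n).coeff k = (Nat.choose n k : ℂ) * r ^ k := by
  have h1 : (Polynomial.C r * Polynomial.X + 1 : Polynomial ℂ) ^ n =
      ((Polynomial.X + 1 : Polynomial ℂ) ^ n).comp (Polynomial.C r * Polynomial.X) := by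
    rw [Polynomial.pow_comp, Polynomial.add_comp, Polynomial.X_comp, Polynomial.one_comp]
  rw [h1, Polynomial.comp_C_mul_X_coeff, Polynomial.coeff_X_add_one_pow]

/-- Piece B2.  A nonzero form in the kernel makes `N_l` singular.
Proof.  `F u v = ∑ f j u^j v^(2l-j)`.  Put `u = (w - q)/p`, `v = 1` in `h`: then
`p u + q v = w`, `r u + s' v = (r w + 1)/p` (as `p s' - q r = 1`), so for all `w`
`∑ f j p^(-j) (1 + α^(j-l)) (w - q)^j + ∑ f j p^(j-2l) w^j (r w + 1)^(2l-j) = 0`, `α = τ^2`.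
Coefficient of `w^i`, with `f j = p^(j-l) x j`, multiplied by `p^l`:
`∑_j [(1 + α^(j-l)) C(j,i) (-q)^(j-i) + β^(j-l) C(2l-j,2l-i) r^(i-j)] x j = 0`, `β = p^2`.
So the transpose of `N(i,j) = (1 + α^(i-l)) C(i,j) (-q)^(i-j) + β^(i-l) C(2l-i,2l-j) r^(j-i)` is
singular.  If `r ≠ 0` conjugation by `diag (r^i)` and multiplication of row `i` by
`(αβ)^(l-i)` (truncated) gives `Nm l α β (q r)`.  If `r = 0` the matrix `N` is lower triangular,
so some `1 + α^(i-l) + β^(i-l) = 0`, and `Nm l α β 0` is upper triangular with the diagonal entry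
`(αβ)^(l-i) (1 + α^(i-l) + β^(i-l))`, so its determinant vanishes, too. -/
theorem det_of_form (l : ℕ) (F : ℂ → ℂ → ℂ) (hF : IsForm (2 * l) F) (hne : ∃ u v, F u v ≠ 0)
    (τ p q r s' : ℂ) (hτ : τ ≠ 0) (hp : p ≠ 0) (hdet : p * s' - q * r = 1)
    (h : ∀ u v, F u v + F (τ * u) (τ⁻¹ * v) + F (p * u + q * v) (r * u + s' * v) = 0) :
    (Nm l (τ ^ 2) (p ^ 2) (q * r)).det = 0 := by
  obtain ⟨f, hf⟩ := hF
  obtain ⟨y, hy⟩ : ∃ y : ℕ → ℂ, y = fun i => f i * ((τ ^ 2 * p) ^ (l - i))⁻¹ * (p ^ (i - l))⁻¹ :=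
    ⟨_, rfl⟩
  -- the identity
  have h1 : ∀ w : ℂ, ∑ i ∈ Finset.range (2 * l + 1), y i *
      (aB2 l (τ ^ 2) (p ^ 2) i * (w - q) ^ i +
        bB2 l (τ ^ 2) (p ^ 2) i * (w ^ i * (r * w + 1) ^ (2 * l - i))) = 0 := by
    intro w
    have h2 := h ((w - q) / p) 1
    have e1 : p * ((w - q) / p) + q * 1 = w := by
      field_simp
      ring
    have e2 : r * ((w - q) / p) + s' * 1 = (r * w + 1) / p := by
      field_simp
      linear_combination hdet
    rw [e1, e2, hf, hf, hf, ← Finset.sum_add_distrib, ← Finset.sum_add_distrib] at h2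
    rw [← mul_zero (p ^ l), ← h2, Finset.mul_sum]
    refine Finset.sum_congr rfl fun i hi => ?_
    have hi' : i ≤ 2 * l := by
      have := Finset.mem_range.1 hi
      omega
    rw [mul_add, mul_add (p ^ l), hy]
    exact congrArg₂ (fun a b => a + b) (coef_aB2 l i hi' τ p (f i) hτ hp (w - q))
      (coef_bB2 l i hi' τ p (f i) hτ hp w (r * w + 1))
  -- the coefficients
  have h2 : ∑ i ∈ Finset.range (2 * l + 1), Polynomial.C (y i) *
      (Polynomial.C (aB2 l (τ ^ 2) (p ^ 2) i) * (Polynomial.X + Polynomial.C (-q)) ^ i +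
        Polynomial.C (bB2 l (τ ^ 2) (p ^ 2) i) *
          (Polynomial.X ^ i * (Polynomial.C r * Polynomial.X + 1) ^ (2 * l - i))) = 0 := by
    apply Polynomial.funext
    intro w
    rw [Polynomial.eval_zero, ← h1 w, Polynomial.eval_finsetSum]
    refine Finset.sum_congr rfl fun i _ => ?_
    simp [sub_eq_add_neg]
  have h3 : ∀ j : Fin (2 * l + 1), ∑ i : Fin (2 * l + 1), y i *
      nB2 l (τ ^ 2) (p ^ 2) q r i j = 0 := by
    intro j
    have h4 := congrArg (fun P : Polynomial ℂ => P.coeff (j : ℕ)) h2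
    simp only [Polynomial.finsetSum_coeff, Polynomial.coeff_zero] at h4
    rw [← h4, Finset.sum_range]
    refine Finset.sum_congr rfl fun i _ => ?_
    have hi : (i : ℕ) < 2 * l + 1 := i.2
    have hj : (j : ℕ) < 2 * l + 1 := j.2
    rw [Polynomial.coeff_C_mul, Polynomial.coeff_add, Polynomial.coeff_C_mul,
      Polynomial.coeff_C_mul, Polynomial.coeff_X_add_C_pow, Polynomial.coeff_X_pow_mul']
    unfold nB2
    split_ifs with hij
    · rw [coeff_rX, ← Nat.choose_symm_of_eq_add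
        (by omega : 2 * l - (i : ℕ) = (2 * l - (j : ℕ)) + ((j : ℕ) - (i : ℕ)))]
      ring
    · rw [Nat.choose_eq_zero_of_lt (by omega : 2 * l - (i : ℕ) < 2 * l - (j : ℕ))]
      push_cast
      ring
  have h4 : (nB2 l (τ ^ 2) (p ^ 2) q r).det = 0 := by
    rw [← Matrix.exists_vecMul_eq_zero_iff]
    refine ⟨fun i => y i, ?_, ?_⟩
    · intro h5
      obtain ⟨u, v, huv⟩ := hne
      apply huv
      rw [hf]
      refine Finset.sum_eq_zero fun i hi => ?_
      have h6 : y i = 0 := congrFun h5 ⟨i, Finset.mem_range.1 hi⟩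
      have h7 : f i = 0 := by
        rw [hy] at h6
        simp only [mul_eq_zero, inv_eq_zero] at h6
        rcases h6 with (h6 | h6) | h6
        · exact h6
        · exact absurd h6 (pow_ne_zero _ (mul_ne_zero (pow_ne_zero _ hτ) hp))
        · exact absurd h6 (pow_ne_zero _ hp)
      rw [h7, zero_mul, zero_mul]
    · funext j
      exact h3 j
  rw [← det_nB2]
  exact h4

end Pool.Agent.TTr
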