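import Pool.Agent.Lib_MP_8c2fb0_tt.Defs

namespace Pool.Agent.TTr

open Matrix

/-- the relations between the entries of a rotation -/
private theorem rot_rel (a : Matrix (Fin 3) (Fin 3) ℝ) (ha : a ∈ Matrix.orthogonalGroup (Fin 3) ℝ)
    (hdet : a.det = 1) :
    ((a 2 1 - a 1 2) ^ 2 = (1 + (a 0 0 + a 1 1 + a 2 2)) * (1 + a 0 0 - a 1 1 - a 2 2) ∧
      (a 0 2 - a 2 0) ^ 2 = (1 + (a 0 0 + a 1 1 + a 2 2)) * (1 + a 1 1 - a 0 0 - a 2 2) ∧
      (a 1 0 - a 0 1) ^ 2 = (1 + (a 0 0 + a 1 1 + a 2 2)) * (1 + a 2 2 - a 0 0 - a 1 1)) ∧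
    ((a 2 1 - a 1 2) * (a 0 2 - a 2 0) = (1 + (a 0 0 + a 1 1 + a 2 2)) * (a 0 1 + a 1 0) ∧
      (a 2 1 - a 1 2) * (a 1 0 - a 0 1) = (1 + (a 0 0 + a 1 1 + a 2 2)) * (a 0 2 + a 2 0) ∧
      (a 0 2 - a 2 0) * (a 1 0 - a 0 1) = (1 + (a 0 0 + a 1 1 + a 2 2)) * (a 1 2 + a 2 1)) := by
  have hR : a * a.transpose = 1 := by
    have h := (Matrix.mem_orthogonalGroup_iff (Fin 3) ℝ).mp ha
    exact h
  have hK : a.transpose * a = 1 := by
    have h := (Matrix.mem_orthogonalGroup_iff' (Fin 3) ℝ).mp ha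
    exact h
  have hadj : a.adjugate = a.transpose := by
    have h1 : a.adjugate * a = 1 := by
      rw [Matrix.adjugate_mul, hdet, one_smul]
    calc a.adjugate = a.adjugate * (a * a.transpose) := by rw [hR, Matrix.mul_one]
      _ = (a.adjugate * a) * a.transpose := (Matrix.mul_assoc _ _ _).symm
      _ = a.transpose := by rw [h1, Matrix.one_mul]
  have r : ∀ i j, a i 0 * a j 0 + a i 1 * a j 1 + a i 2 * a j 2 = if i = j then 1 else 0 := by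
    intro i j
    have h := congrFun (congrFun hR i) j
    rw [Matrix.mul_apply, Fin.sum_univ_three, Matrix.one_apply] at h
    exact h
  have k : ∀ i j, a 0 i * a 0 j + a 1 i * a 1 j + a 2 i * a 2 j = if i = j then 1 else 0 := by
    intro i j
    have h := congrFun (congrFun hK i) j
    rw [Matrix.mul_apply, Fin.sum_univ_three, Matrix.one_apply] at h
    exact h
  have r00 : a 0 0 * a 0 0 + a 0 1 * a 0 1 + a 0 2 * a 0 2 = 1 := r 0 0
  have r11 : a 1 0 * a 1 0 + a 1 1 * a 1 1 + a 1 2 * a 1 2 = 1 := r 1 1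
  have r22 : a 2 0 * a 2 0 + a 2 1 * a 2 1 + a 2 2 * a 2 2 = 1 := r 2 2
  have k00 : a 0 0 * a 0 0 + a 1 0 * a 1 0 + a 2 0 * a 2 0 = 1 := k 0 0
  have k11 : a 0 1 * a 0 1 + a 1 1 * a 1 1 + a 2 1 * a 2 1 = 1 := k 1 1
  have k22 : a 0 2 * a 0 2 + a 1 2 * a 1 2 + a 2 2 * a 2 2 = 1 := k 2 2
  have r01 : a 0 0 * a 1 0 + a 0 1 * a 1 1 + a 0 2 * a 1 2 = 0 := r 0 1
  have r02 : a 0 0 * a 2 0 + a 0 1 * a 2 1 + a 0 2 * a 2 2 = 0 := r 0 2
  have r12 : a 1 0 * a 2 0 + a 1 1 * a 2 1 + a 1 2 * a 2 2 = 0 := r 1 2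
  have k01 : a 0 0 * a 0 1 + a 1 0 * a 1 1 + a 2 0 * a 2 1 = 0 := k 0 1
  have k02 : a 0 0 * a 0 2 + a 1 0 * a 1 2 + a 2 0 * a 2 2 = 0 := k 0 2
  have k12 : a 0 1 * a 0 2 + a 1 1 * a 1 2 + a 2 1 * a 2 2 = 0 := k 1 2
  have hc : ∀ i j, a.adjugate i j = a j i := fun i j => by rw [hadj]; rfl
  have f := fun i j => hc i j
  rw [Matrix.adjugate_fin_three] at f
  have f00 := f 0 0
  have f11 := f 1 1
  have f22 := f 2 2
  have f01 := f 0 1
  have f10 := f 1 0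
  have f02 := f 0 2
  have f20 := f 2 0
  have f12 := f 1 2
  have f21 := f 2 1
  simp at f00 f11 f22 f01 f10 f02 f20 f12 f21
  refine ⟨⟨?_, ?_, ?_⟩, ?_, ?_, ?_⟩
  · linear_combination (1 / 2) * (r11 + k11 + r22 + k22 - r00 - k00) + 2 * f00
  · linear_combination (1 / 2) * (r00 + k00 + r22 + k22 - r11 - k11) + 2 * f11
  · linear_combination (1 / 2) * (r00 + k00 + r11 + k11 - r22 - k22) + 2 * f22
  · linear_combination f01 + f10 - k01 - r01
  · linear_combination f02 + f20 - k02 - r02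
  · linear_combination f12 + f21 - k12 - r12

private theorem quat_alg (a00 a01 a02 a10 a11 a12 a20 a21 a22 w x y z : ℂ) (hw0 : w ≠ 0)
    (hw4 : 4 * w ^ 2 = 1 + (a00 + a11 + a22))
    (hx : 4 * w * x = a21 - a12) (hy : 4 * w * y = a02 - a20) (hz : 4 * w * z = a10 - a01)
    (hA : (a21 - a12) ^ 2 = (1 + (a00 + a11 + a22)) * (1 + a00 - a11 - a22))
    (hB : (a02 - a20) ^ 2 = (1 + (a00 + a11 + a22)) * (1 + a11 - a00 - a22))
    (hC : (a10 - a01) ^ 2 = (1 + (a00 + a11 + a22)) * (1 + a22 - a00 - a11))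
    (hAB : (a21 - a12) * (a02 - a20) = (1 + (a00 + a11 + a22)) * (a01 + a10))
    (hAC : (a21 - a12) * (a10 - a01) = (1 + (a00 + a11 + a22)) * (a02 + a20))
    (hBC : (a02 - a20) * (a10 - a01) = (1 + (a00 + a11 + a22)) * (a12 + a21)) :
    w ^ 2 + x ^ 2 + y ^ 2 + z ^ 2 = 1 ∧
    (a00 = w ^ 2 + x ^ 2 - y ^ 2 - z ^ 2 ∧ a01 = 2 * (x * y - w * z) ∧ a02 = 2 * (x * z + w * y)) ∧
    (a10 = 2 * (x * y + w * z) ∧ a11 = w ^ 2 - x ^ 2 + y ^ 2 - z ^ 2 ∧ a12 = 2 * (y * z - w * x)) ∧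
    (a20 = 2 * (x * z - w * y) ∧ a21 = 2 * (y * z + w * x) ∧ a22 = w ^ 2 - x ^ 2 - y ^ 2 + z ^ 2) := by
  have h4 : (4 * w ^ 2) ≠ 0 := mul_ne_zero (by norm_num) (pow_ne_zero 2 hw0)
  have hx2 : 4 * x ^ 2 = 1 + a00 - a11 - a22 := by
    apply mul_left_cancel₀ h4
    linear_combination (4 * w * x + (a21 - a12)) * hx + hA - (1 + a00 - a11 - a22) * hw4
  have hy2 : 4 * y ^ 2 = 1 + a11 - a00 - a22 := by
    apply mul_left_cancel₀ h4
    linear_combination (4 * w * y + (a02 - a20)) * hy + hB - (1 + a11 - a00 - a22) * hw4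
  have hz2 : 4 * z ^ 2 = 1 + a22 - a00 - a11 := by
    apply mul_left_cancel₀ h4
    linear_combination (4 * w * z + (a10 - a01)) * hz + hC - (1 + a22 - a00 - a11) * hw4
  have hxy : 4 * (x * y) = a01 + a10 := by
    apply mul_left_cancel₀ h4
    linear_combination (4 * w * y) * hx + (a21 - a12) * hy + hAB - (a01 + a10) * hw4
  have hxz : 4 * (x * z) = a02 + a20 := by
    apply mul_left_cancel₀ h4
    linear_combination (4 * w * z) * hx + (a21 - a12) * hz + hAC - (a02 + a20) * hw4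
  have hyz : 4 * (y * z) = a12 + a21 := by
    apply mul_left_cancel₀ h4
    linear_combination (4 * w * z) * hy + (a02 - a20) * hz + hBC - (a12 + a21) * hw4
  refine ⟨?_, ⟨?_, ?_, ?_⟩, ⟨?_, ?_, ?_⟩, ?_, ?_, ?_⟩
  · linear_combination (1 / 4) * (hw4 + hx2 + hy2 + hz2)
  · linear_combination (1 / 4) * (-hw4 - hx2 + hy2 + hz2)
  · linear_combination -(1 / 2) * hxy + (1 / 2) * hz
  · linear_combination -(1 / 2) * hxz - (1 / 2) * hy
  · linear_combination -(1 / 2) * hxy - (1 / 2) * hz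
  · linear_combination (1 / 4) * (-hw4 + hx2 - hy2 + hz2)
  · linear_combination -(1 / 2) * hyz + (1 / 2) * hx
  · linear_combination -(1 / 2) * hxz + (1 / 2) * hy
  · linear_combination -(1 / 2) * hyz - (1 / 2) * hx
  · linear_combination (1 / 4) * (-hw4 + hx2 + hy2 - hz2)

private theorem mv_apply (a : Matrix (Fin 3) (Fin 3) ℝ) (f : Fin 3 → ℂ) (i : Fin 3) :
    (a.map Complex.ofReal).mulVec f i = ((a i 0 : ℝ) : ℂ) * f 0 + ((a i 1 : ℝ) : ℂ) * f 1 + ((a i 2 : ℝ) : ℂ) * f 2 := by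
  rw [Matrix.mulVec, dotProduct, Fin.sum_univ_three]
  rfl

private theorem phi0 (u v : ℂ) : phi u v 0 = u ^ 2 - v ^ 2 := rfl
private theorem phi1 (u v : ℂ) : phi u v 1 = Complex.I * (u ^ 2 + v ^ 2) := rfl
private theorem phi2 (u v : ℂ) : phi u v 2 = -2 * u * v := rfl

/-- Piece B3.  Rotations with trace `≠ -1` lift to `SL₂(ℂ)`.
Proof: choose `w : ℂ` with `4 w² = 1 + tr a` (`w ≠ 0`), `x = (a₂₁ - a₁₂)/(4w)`,
`y = (a₀₂ - a₂₀)/(4w)`, `z = (a₁₀ - a₀₁)/(4w)` (indices 0,1,2).  Then `w²+x²+y²+z² = 1` and `a` is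
the usual matrix of the quaternion (`a₀₀ = w²+x²-y²-z²`, `a₀₁ = 2(xy - wz)`, ...): use the relations
`a aᵀ = 1`, `aᵀ a = 1` and `a = cofactor matrix` (`det a = 1`, `a⁻¹ = aᵀ`).  Example:
`(1+t)² + (a₂₁-a₁₂)² - (a₀₂-a₂₀)² - (a₁₀-a₀₁)² = 4 (1+t) a₀₀`.
The quaternion acts on `phi u v` through `(p q; r s)` with `p, s = w ± i z`, `q, r` = `± x, ± i y`
combinations: find the signs with the convention `phi u v = (u²-v², i(u²+v²), -2uv)` (the identity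
is polynomial in `w,x,y,z,u,v`, `ring` proves it; `p s - q r = w²+x²+y²+z²`). -/
theorem exists_lift (a : Matrix (Fin 3) (Fin 3) ℝ) (ha : a ∈ Matrix.orthogonalGroup (Fin 3) ℝ)
    (hdet : a.det = 1) (htr : a.trace ≠ -1) : ∃ p q r s : ℂ, Lifts a p q r s := by
  obtain ⟨⟨hA, hB, hC⟩, hAB, hAC, hBC⟩ := rot_rel a ha hdet
  have htr' : (1 + (a 0 0 + a 1 1 + a 2 2)) ≠ 0 := by
    intro h
    apply htr
    rw [Matrix.trace_fin_three]
    linarith
  obtain ⟨w, hw⟩ := IsAlgClosed.exists_pow_nat_eq (((1 + (a 0 0 + a 1 1 + a 2 2)) / 4 : ℝ) : ℂ) (n := 2) (by norm_num)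
  have hT : ((1 + (a 0 0 + a 1 1 + a 2 2) : ℝ) : ℂ) ≠ 0 := Complex.ofReal_ne_zero.mpr htr'
  have hw4 : 4 * w ^ 2 = ((1 + (a 0 0 + a 1 1 + a 2 2) : ℝ) : ℂ) := by
    rw [hw]
    push_cast
    ring
  have hw0 : w ≠ 0 := by
    rintro rfl
    apply hT
    rw [← hw4]
    ring
  have hA' := congrArg (fun x : ℝ => (x : ℂ)) hA
  have hB' := congrArg (fun x : ℝ => (x : ℂ)) hB
  have hC' := congrArg (fun x : ℝ => (x : ℂ)) hC
  have hAB' := congrArg (fun x : ℝ => (x : ℂ)) hAB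
  have hAC' := congrArg (fun x : ℝ => (x : ℂ)) hAC
  have hBC' := congrArg (fun x : ℝ => (x : ℂ)) hBC
  simp only [Complex.ofReal_pow, Complex.ofReal_sub, Complex.ofReal_mul, Complex.ofReal_add,
    Complex.ofReal_one] at hA' hB' hC' hAB' hAC' hBC' hw4
  have hx : 4 * w * ((((a 2 1 : ℝ) : ℂ) - ((a 1 2 : ℝ) : ℂ)) / (4 * w)) = ((a 2 1 : ℝ) : ℂ) - ((a 1 2 : ℝ) : ℂ) := by
    field_simp
  have hy : 4 * w * ((((a 0 2 : ℝ) : ℂ) - ((a 2 0 : ℝ) : ℂ)) / (4 * w)) = ((a 0 2 : ℝ) : ℂ) - ((a 2 0 : ℝ) : ℂ) := by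
    field_simp
  have hz : 4 * w * ((((a 1 0 : ℝ) : ℂ) - ((a 0 1 : ℝ) : ℂ)) / (4 * w)) = ((a 1 0 : ℝ) : ℂ) - ((a 0 1 : ℝ) : ℂ) := by
    field_simp
  obtain ⟨hn, ⟨h00, h01, h02⟩, ⟨h10, h11, h12⟩, h20, h21, h22⟩ :=
    quat_alg _ _ _ _ _ _ _ _ _ w _ _ _ hw0 hw4 hx hy hz hA' hB' hC' hAB' hAC' hBC'
  generalize (((a 2 1 : ℝ) : ℂ) - ((a 1 2 : ℝ) : ℂ)) / (4 * w) = x at hn h00 h01 h02 h10 h11 h12 h20 h21 h22
  generalize (((a 0 2 : ℝ) : ℂ) - ((a 2 0 : ℝ) : ℂ)) / (4 * w) = y at hn h00 h01 h02 h10 h11 h12 h20 h21 h22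
  generalize (((a 1 0 : ℝ) : ℂ) - ((a 0 1 : ℝ) : ℂ)) / (4 * w) = z at hn h00 h01 h02 h10 h11 h12 h20 h21 h22
  refine ⟨w - Complex.I * z, -y - Complex.I * x, y - Complex.I * x, w + Complex.I * z, ?_, fun u v => ?_⟩
  · linear_combination hn - (z ^ 2 + x ^ 2) * Complex.I_sq
  · funext i
    rw [mv_apply]
    fin_cases i
    · change ((a 0 0 : ℝ) : ℂ) * phi u v 0 + ((a 0 1 : ℝ) : ℂ) * phi u v 1 + ((a 0 2 : ℝ) : ℂ) * phi u v 2 = phi _ _ 0
      rw [phi0, phi1, phi2, phi0, h00, h01, h02]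
      linear_combination ((x ^ 2 - z ^ 2) * (u ^ 2 - v ^ 2) - 4 * x * z * u * v) * Complex.I_sq
    · change ((a 1 0 : ℝ) : ℂ) * phi u v 0 + ((a 1 1 : ℝ) : ℂ) * phi u v 1 + ((a 1 2 : ℝ) : ℂ) * phi u v 2 = phi _ _ 1
      rw [phi0, phi1, phi2, phi1, h10, h11, h12]
      linear_combination ((2 * (x * y + w * z) - Complex.I * (x ^ 2 + z ^ 2)) * u ^ 2 - 4 * (y * z - w * x) * u * v +
        (-2 * (x * y + w * z) - Complex.I * (x ^ 2 + z ^ 2)) * v ^ 2) * Complex.I_sq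
    · change ((a 2 0 : ℝ) : ℂ) * phi u v 0 + ((a 2 1 : ℝ) : ℂ) * phi u v 1 + ((a 2 2 : ℝ) : ℂ) * phi u v 2 = phi _ _ 2
      rw [phi0, phi1, phi2, phi2, h20, h21, h22]
      linear_combination (2 * x * z * (u ^ 2 - v ^ 2) + 2 * (x ^ 2 - z ^ 2) * u * v) * Complex.I_sq

/-- the trace of a lift: compare the values at `phi 1 0`, `phi 0 1`, `phi 1 1`, ... -/
theorem trace_lift (a : Matrix (Fin 3) (Fin 3) ℝ) (p q r s : ℂ) (h : Lifts a p q r s) :
    ((a.trace : ℝ) : ℂ) + 1 = (p + s) ^ 2 := by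
  have e10 := fun i => congrFun (h.2 1 0) i
  have e01 := fun i => congrFun (h.2 0 1) i
  have e11 := fun i => congrFun (h.2 1 1) i
  have e1 := e10 0
  have e2 := e10 1
  have e3 := e10 2
  have e4 := e01 0
  have e5 := e01 1
  have e6 := e01 2
  have e7 := e11 2
  rw [mv_apply, phi0, phi1, phi2] at e1 e2 e3 e4 e5 e6 e7
  rw [phi0] at e1 e4
  rw [phi1] at e2 e5
  rw [phi2] at e3 e6 e7
  have hI : Complex.I ≠ 0 := Complex.I_ne_zero
  have h11 : ((a 1 1 : ℝ) : ℂ) = (p ^ 2 + r ^ 2 + q ^ 2 + s ^ 2) / 2 := by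
    apply mul_left_cancel₀ hI
    linear_combination (1 / 2) * (e2 + e5)
  have h00 : ((a 0 0 : ℝ) : ℂ) = (p ^ 2 - r ^ 2 - q ^ 2 + s ^ 2) / 2 := by
    linear_combination (1 / 2) * (e1 - e4)
  have h22 : ((a 2 2 : ℝ) : ℂ) = p * s + q * r := by
    linear_combination (1 / 2) * (e3 + e6) - (1 / 2) * e7
  rw [Matrix.trace_fin_three]
  push_cast
  rw [h00, h11, h22]
  linear_combination (-1) * h.1

/-- the lift of `aᵀ b` -/
theorem lift_transpose_mul (a b : Matrix (Fin 3) (Fin 3) ℝ)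
    (ha : a ∈ Matrix.orthogonalGroup (Fin 3) ℝ) (p q r s p' q' r' s' : ℂ)
    (h : Lifts a p q r s) (h' : Lifts b p' q' r' s') :
    Lifts (a.transpose * b) (s * p' - q * r') (s * q' - q * s') (p * r' - r * p')
      (p * s' - r * q') := by
  have hK : a.transpose * a = 1 := (Matrix.mem_orthogonalGroup_iff' (Fin 3) ℝ).mp ha
  refine ⟨?_, fun u v => ?_⟩
  · linear_combination (p' * s' - q' * r') * h.1 + h'.1
  · have h1 : ((a.transpose * b).map Complex.ofReal) = (a.transpose.map Complex.ofReal) * (b.map Complex.ofReal) :=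
      Matrix.map_mul (f := Complex.ofRealHom)
    have h2 : (a.transpose.map Complex.ofReal) * (a.map Complex.ofReal) = 1 := by
      have h3 : ((a.transpose * a).map Complex.ofReal) = (a.transpose.map Complex.ofReal) * (a.map Complex.ofReal) :=
        Matrix.map_mul (f := Complex.ofRealHom)
      rw [← h3, hK]
      exact Matrix.map_one _ Complex.ofReal_zero Complex.ofReal_one
    rw [h1, ← Matrix.mulVec_mulVec, h'.2]
    have h4 := h.2 (s * (p' * u + q' * v) - q * (r' * u + s' * v)) (p * (r' * u + s' * v) - r * (p' * u + q' * v))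
    have h5 : p * (s * (p' * u + q' * v) - q * (r' * u + s' * v)) + q * (p * (r' * u + s' * v) - r * (p' * u + q' * v)) =
        p' * u + q' * v := by
      linear_combination (p' * u + q' * v) * h.1
    have h6 : r * (s * (p' * u + q' * v) - q * (r' * u + s' * v)) + s * (p * (r' * u + s' * v) - r * (p' * u + q' * v)) =
        r' * u + s' * v := by
      linear_combination (r' * u + s' * v) * h.1
    rw [h5, h6] at h4
    rw [← h4, Matrix.mulVec_mulVec, h2, Matrix.one_mulVec]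
    congr 1 <;> ring

end Pool.Agent.TTr
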