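import Pool.Agent.Lib_MP_8c2fb0_tt.B3

namespace Pool.Agent.TTr

open Matrix

/-- Piece B4a.  Products of lifts. -/
theorem lift_mul (a b : Matrix (Fin 3) (Fin 3) ℝ) (p q r s p' q' r' s' : ℂ)
    (h : Lifts a p q r s) (h' : Lifts b p' q' r' s') :
    Lifts (a * b) (p * p' + q * r') (p * q' + q * s') (r * p' + s * r') (r * q' + s * s') := by
  refine ⟨?_, fun u v => ?_⟩
  · linear_combination (p' * s' - q' * r') * h.1 + h'.1
  · have e : ((a * b).map Complex.ofReal) = a.map Complex.ofReal * b.map Complex.ofReal :=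
      Matrix.map_mul (f := Complex.ofRealHom)
    rw [e, ← Matrix.mulVec_mulVec, h'.2, h.2]
    congr 1 <;> ring

private theorem rot_mem (c : Matrix (Fin 3) (Fin 3) ℝ) (h : c * c.transpose = 1) :
    c ∈ Matrix.orthogonalGroup (Fin 3) ℝ := by
  rw [Matrix.mem_orthogonalGroup_iff]
  exact h

private theorem trans_mem (a : Matrix (Fin 3) (Fin 3) ℝ)
    (ha : a ∈ Matrix.orthogonalGroup (Fin 3) ℝ) :
    a.transpose ∈ Matrix.orthogonalGroup (Fin 3) ℝ := by
  rw [Matrix.mem_orthogonalGroup_iff]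
  exact (Matrix.mem_orthogonalGroup_iff' (Fin 3) ℝ).1 ha

private theorem mul_tr (a : Matrix (Fin 3) (Fin 3) ℝ)
    (ha : a ∈ Matrix.orthogonalGroup (Fin 3) ℝ) : a * a.transpose = 1 :=
  (Matrix.mem_orthogonalGroup_iff (Fin 3) ℝ).1 ha

/-- reduction to the matrix `cᵀ a` -/
private theorem lift_via (a c : Matrix (Fin 3) (Fin 3) ℝ)
    (ha : a ∈ Matrix.orthogonalGroup (Fin 3) ℝ) (hdet : a.det = 1)
    (hc : c * c.transpose = 1) (hcd : c.det = 1) (hct : c.trace ≠ -1)
    (h : (c.transpose * a).trace ≠ -1) : ∃ p q r s : ℂ, Lifts a p q r s := by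
  have hc' := rot_mem c hc
  obtain ⟨p, q, r, s, h1⟩ := exists_lift c hc' hcd hct
  obtain ⟨p', q', r', s', h2⟩ := exists_lift (c.transpose * a) (mul_mem (trans_mem c hc') ha)
    (by rw [Matrix.det_mul, Matrix.det_transpose, hcd, hdet, mul_one]) h
  have h3 := lift_mul _ _ _ _ _ _ _ _ _ _ h1 h2
  rw [← Matrix.mul_assoc, hc, Matrix.one_mul] at h3
  exact ⟨_, _, _, _, h3⟩

/-- Piece B4b.  All rotations lift.
Proof: `exists_lift` if the trace is not `-1`.  If `tr a = -1`, then `a` is symmetric (a half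
turn: `a aᵀ = 1`, `det a = 1`, the characteristic polynomial, or the relations
`(1+t)(…)`: from `(1+t)² + ... ` one gets `(a₂₁-a₁₂)² = 4 (…)`; simplest: `‖a - aᵀ‖² = 2·3 - 2 tr a²`
and `tr a² = t² - 2 t = 3` because the sum of the principal minors is the trace of the cofactor
matrix `= t`).  One diagonal entry is `≠ -1`; if it is `a₂₂`, let `c` be the rotation by `π/2` about
the third axis, `tr (cᵀ a) = a₁₀ - a₀₁ + a₂₂ = a₂₂ ≠ -1` and `tr c = 1`, so `c` and `cᵀ a` lift, and
`a = c (cᵀ a)`.  The same for the other axes. -/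
theorem exists_lift_all (a : Matrix (Fin 3) (Fin 3) ℝ)
    (ha : a ∈ Matrix.orthogonalGroup (Fin 3) ℝ) (hdet : a.det = 1) :
    ∃ p q r s : ℂ, Lifts a p q r s := by
  by_contra hcon
  have htr : a.trace = -1 := by
    by_contra h
    exact hcon (exists_lift a ha hdet h)
  have key : ∀ c : Matrix (Fin 3) (Fin 3) ℝ, c * c.transpose = 1 → c.det = 1 → c.trace = 1 →
      (c.transpose * a).trace = -1 := by
    intro c hc hcd hct
    by_contra h
    exact hcon (lift_via a c ha hdet hc hcd (by rw [hct]; norm_num) h)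
  have h1 := key !![0, -1, 0; 1, 0, 0; 0, 0, 1]
    (by ext i j; fin_cases i <;> fin_cases j <;> simp [Matrix.mul_apply, Fin.sum_univ_three])
    (by simp [Matrix.det_fin_three]) (by simp [Matrix.trace_fin_three])
  have h2 := key !![0, 1, 0; -1, 0, 0; 0, 0, 1]
    (by ext i j; fin_cases i <;> fin_cases j <;> simp [Matrix.mul_apply, Fin.sum_univ_three])
    (by simp [Matrix.det_fin_three]) (by simp [Matrix.trace_fin_three])
  have h3 := key !![1, 0, 0; 0, 0, -1; 0, 1, 0]
    (by ext i j; fin_cases i <;> fin_cases j <;> simp [Matrix.mul_apply, Fin.sum_univ_three])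
    (by simp [Matrix.det_fin_three]) (by simp [Matrix.trace_fin_three])
  have h4 := key !![1, 0, 0; 0, 0, 1; 0, -1, 0]
    (by ext i j; fin_cases i <;> fin_cases j <;> simp [Matrix.mul_apply, Fin.sum_univ_three])
    (by simp [Matrix.det_fin_three]) (by simp [Matrix.trace_fin_three])
  have h5 := key !![0, 0, 1; 0, 1, 0; -1, 0, 0]
    (by ext i j; fin_cases i <;> fin_cases j <;> simp [Matrix.mul_apply, Fin.sum_univ_three])
    (by simp [Matrix.det_fin_three]) (by simp [Matrix.trace_fin_three])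
  have h6 := key !![0, 0, -1; 0, 1, 0; 1, 0, 0]
    (by ext i j; fin_cases i <;> fin_cases j <;> simp [Matrix.mul_apply, Fin.sum_univ_three])
    (by simp [Matrix.det_fin_three]) (by simp [Matrix.trace_fin_three])
  simp [Matrix.trace_fin_three, Matrix.mul_apply, Fin.sum_univ_three] at h1 h2 h3 h4 h5 h6 htr
  linarith

/-- Piece B4c.  An orthogonal matrix of trace `3` is the identity (`a i i ≤ 1`, so all are `1`, and
the rows have norm `1`). -/
theorem eq_one_of_trace (a : Matrix (Fin 3) (Fin 3) ℝ)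
    (ha : a ∈ Matrix.orthogonalGroup (Fin 3) ℝ) (htr : a.trace = 3) : a = 1 := by
  have h := mul_tr a ha
  have h0 := congrFun (congrFun h 0) 0
  have h1 := congrFun (congrFun h 1) 1
  have h2 := congrFun (congrFun h 2) 2
  simp [Matrix.mul_apply, Fin.sum_univ_three] at h0 h1 h2
  rw [Matrix.trace_fin_three] at htr
  have b0 : a 0 0 ≤ 1 := by
    nlinarith [mul_self_nonneg (a 0 1), mul_self_nonneg (a 0 2), mul_self_nonneg (a 0 0 - 1)]
  have b1 : a 1 1 ≤ 1 := by
    nlinarith [mul_self_nonneg (a 1 0), mul_self_nonneg (a 1 2), mul_self_nonneg (a 1 1 - 1)]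
  have b2 : a 2 2 ≤ 1 := by
    nlinarith [mul_self_nonneg (a 2 0), mul_self_nonneg (a 2 1), mul_self_nonneg (a 2 2 - 1)]
  have e0 : a 0 0 = 1 := by linarith
  have e1 : a 1 1 = 1 := by linarith
  have e2 : a 2 2 = 1 := by linarith
  rw [e0] at h0
  rw [e1] at h1
  rw [e2] at h2
  have z : ∀ x y : ℝ, x * x + y * y = 0 → x = 0 ∧ y = 0 := by
    intro x y hxy
    constructor <;> nlinarith [mul_self_nonneg x, mul_self_nonneg y]
  obtain ⟨a1, a2⟩ := z (a 0 1) (a 0 2) (by linarith)
  obtain ⟨a3, a4⟩ := z (a 1 0) (a 1 2) (by linarith)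
  obtain ⟨a5, a6⟩ := z (a 2 0) (a 2 1) (by linarith)
  ext i j
  fin_cases i <;> fin_cases j <;> simp [e0, e1, e2, a1, a2, a3, a4, a5, a6]

end Pool.Agent.TTr
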