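import Pool.Agent.Lib_MP_8c2fb0_tt.B2

namespace Pool.Agent.TTr

open Matrix

/-! ### Linear substitutions -/

private theorem b5_add {N : ℕ} {F G : ℂ → ℂ → ℂ} (hF : IsForm N F) (hG : IsForm N G) :
    IsForm N (fun u v => F u v + G u v) := by
  obtain ⟨f, hf⟩ := hF
  obtain ⟨g, hg⟩ := hG
  refine ⟨fun j => f j + g j, fun u v => ?_⟩
  simp only [hf, hg, add_mul, Finset.sum_add_distrib]

private theorem b5_smul {N : ℕ} {F : ℂ → ℂ → ℂ} (c : ℂ) (hF : IsForm N F) :
    IsForm N (fun u v => c * F u v) := by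
  obtain ⟨f, hf⟩ := hF
  refine ⟨fun j => c * f j, fun u v => ?_⟩
  simp only [hf, Finset.mul_sum, mul_assoc]

private theorem b5_mulu {N : ℕ} {F : ℂ → ℂ → ℂ} (hF : IsForm N F) :
    IsForm (N + 1) (fun u v => u * F u v) := by
  obtain ⟨f, hf⟩ := hF
  refine ⟨fun j => if j = 0 then 0 else f (j - 1), fun u v => ?_⟩
  simp only [hf]
  rw [Finset.sum_range_succ' _ (N + 1), Finset.mul_sum]
  simp only [if_true, zero_mul, add_zero]
  refine Finset.sum_congr rfl fun j _ => ?_
  rw [if_neg (Nat.succ_ne_zero j), Nat.add_sub_cancel, Nat.add_sub_add_right, pow_succ]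
  ring

private theorem b5_mulv {N : ℕ} {F : ℂ → ℂ → ℂ} (hF : IsForm N F) :
    IsForm (N + 1) (fun u v => v * F u v) := by
  obtain ⟨f, hf⟩ := hF
  refine ⟨fun j => if j = N + 1 then 0 else f j, fun u v => ?_⟩
  simp only [hf]
  rw [Finset.sum_range_succ _ (N + 1), Finset.mul_sum]
  simp only [if_true, zero_mul, add_zero]
  refine Finset.sum_congr rfl fun j hj => ?_
  have hj' : j < N + 1 := Finset.mem_range.mp hj
  rw [if_neg (by omega), Nat.sub_add_comm (by omega), pow_succ]
  ring

private theorem b5_congr {N : ℕ} {F G : ℂ → ℂ → ℂ} (hF : IsForm N F) (h : ∀ u v, G u v = F u v) :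
    IsForm N G := by
  obtain ⟨f, hf⟩ := hF
  exact ⟨f, fun u v => by rw [h, hf]⟩

private theorem b5_lin {N : ℕ} {F : ℂ → ℂ → ℂ} (hF : IsForm N F) (a b : ℂ) :
    IsForm (N + 1) (fun u v => (a * u + b * v) * F u v) :=
  b5_congr (b5_add (b5_smul a (b5_mulu hF)) (b5_smul b (b5_mulv hF))) fun u v => by ring

private theorem b5_pow {N : ℕ} {F : ℂ → ℂ → ℂ} (hF : IsForm N F) (a b : ℂ) (k : ℕ) :
    IsForm (N + k) (fun u v => (a * u + b * v) ^ k * F u v) := by
  induction k with
  | zero => exact b5_congr hF fun u v => by rw [pow_zero, one_mul]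
  | succ k ih =>
    refine b5_congr (N := N + (k + 1)) (b5_lin ih a b) fun u v => ?_
    rw [pow_succ]
    ring

private theorem b5_sum {ι : Type*} (s : Finset ι) {N : ℕ} (F : ι → ℂ → ℂ → ℂ)
    (hF : ∀ i ∈ s, IsForm N (F i)) : IsForm N (fun u v => ∑ i ∈ s, F i u v) := by
  classical
  induction s using Finset.induction_on with
  | empty => exact ⟨fun _ => 0, fun u v => by simp⟩
  | insert a s ha ih =>
    refine b5_congr (b5_add (hF a (Finset.mem_insert_self a s))
      (ih fun i hi => hF i (Finset.mem_insert_of_mem hi))) fun u v => ?_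
    rw [Finset.sum_insert ha]

private theorem b5_subst {N : ℕ} {F : ℂ → ℂ → ℂ} (hF : IsForm N F) (a b c d : ℂ) :
    IsForm N (fun u v => F (a * u + b * v) (c * u + d * v)) := by
  obtain ⟨f, hf⟩ := hF
  refine b5_congr (b5_sum (Finset.range (N + 1)) (fun j u v => f j *
    ((a * u + b * v) ^ j * ((c * u + d * v) ^ (N - j) * 1))) fun j hj => ?_) fun u v => ?_
  · have hj' : j < N + 1 := Finset.mem_range.mp hj
    have h0 : IsForm 0 (fun _ _ => (1 : ℂ)) := ⟨fun _ => 1, fun u v => by simp⟩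
    have h1 := b5_pow (b5_pow h0 c d (N - j)) a b j
    have h2 : 0 + (N - j) + j = N := by omega
    rw [h2] at h1
    exact b5_smul (f j) h1
  · rw [hf]
    refine Finset.sum_congr rfl fun j _ => ?_
    ring

/-! ### Diagonalisation -/

private theorem b5_cramer (a b c d x y : ℂ) (hD : a * d - b * c ≠ 0) :
    a * ((d * x - b * y) / (a * d - b * c)) + b * ((-c * x + a * y) / (a * d - b * c)) = x ∧
      c * ((d * x - b * y) / (a * d - b * c)) + d * ((-c * x + a * y) / (a * d - b * c)) = y := by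
  constructor
  · rw [mul_div_assoc', mul_div_assoc', ← add_div, div_eq_iff hD]
    ring
  · rw [mul_div_assoc', mul_div_assoc', ← add_div, div_eq_iff hD]
    ring

private theorem b5_core (p q r s p' q' r' s' τ a b c d P Q R S : ℂ)
    (hB : p' * s' - q' * r' = 1) (hτ : τ ≠ 0) (hD : a * d - b * c ≠ 0)
    (e1 : p * a + q * c = τ * a) (e2 : r * a + s * c = τ * c)
    (e3 : p * b + q * d = τ⁻¹ * b) (e4 : r * b + s * d = τ⁻¹ * d)
    (g1 : a * P + b * R = p' * a + q' * c) (g2 : c * P + d * R = r' * a + s' * c)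
    (g3 : a * Q + b * S = p' * b + q' * d) (g4 : c * Q + d * S = r' * b + s' * d) :
    P * S - Q * R = 1 ∧ P + S = p' + s' ∧
      τ⁻¹ * P + τ * S = s * p' - q * r' + (p * s' - r * q') ∧
      (P ≠ 0 → ∀ (l : ℕ) (F : ℂ → ℂ → ℂ), IsForm (2 * l) F → (∃ u v, F u v ≠ 0) →
        (∀ u v, F u v + F (p * u + q * v) (r * u + s * v) +
          F (p' * u + q' * v) (r' * u + s' * v) = 0) →
        (Nm l (τ ^ 2) (P ^ 2) (Q * R)).det = 0) := by
  have hdet : P * S - Q * R = 1 := by
    apply mul_left_cancel₀ hD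
    have k : (a * P + b * R) * (c * Q + d * S) - (a * Q + b * S) * (c * P + d * R) =
        (a * d - b * c) * (P * S - Q * R) := by ring
    rw [g1, g2, g3, g4] at k
    linear_combination -k + (a * d - b * c) * hB
  refine ⟨hdet, ?_, ?_, ?_⟩
  · apply mul_left_cancel₀ hD
    linear_combination d * g1 - b * g2 - c * g3 + a * g4
  · apply mul_left_cancel₀ hD
    linear_combination τ⁻¹ * (d * g1 - b * g2) + τ * (-c * g3 + a * g4) -
      p' * (a * e4 - b * e2) - q' * (c * e4 - d * e2) - r' * (b * e1 - a * e3) -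
      s' * (d * e1 - c * e3)
  · intro hP l F hF hne h
    refine det_of_form l (fun u v => F (a * u + b * v) (c * u + d * v)) (b5_subst hF a b c d) ?_
      τ P Q R S hτ hP hdet fun u v => ?_
    · obtain ⟨u, v, huv⟩ := hne
      refine ⟨(d * u - b * v) / (a * d - b * c), (-c * u + a * v) / (a * d - b * c), ?_⟩
      obtain ⟨h1, h2⟩ := b5_cramer a b c d u v hD
      show F (a * ((d * u - b * v) / (a * d - b * c)) +
          b * ((-c * u + a * v) / (a * d - b * c)))
        (c * ((d * u - b * v) / (a * d - b * c)) +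
          d * ((-c * u + a * v) / (a * d - b * c))) ≠ 0
      rw [h1, h2]
      exact huv
    · have h1 := h (a * u + b * v) (c * u + d * v)
      have k1 : p * (a * u + b * v) + q * (c * u + d * v) = a * (τ * u) + b * (τ⁻¹ * v) := by
        linear_combination u * e1 + v * e3
      have k2 : r * (a * u + b * v) + s * (c * u + d * v) = c * (τ * u) + d * (τ⁻¹ * v) := by
        linear_combination u * e2 + v * e4
      have k3 : p' * (a * u + b * v) + q' * (c * u + d * v) =
          a * (P * u + Q * v) + b * (R * u + S * v) := by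
        linear_combination -u * g1 - v * g3
      have k4 : r' * (a * u + b * v) + s' * (c * u + d * v) =
          c * (P * u + Q * v) + d * (R * u + S * v) := by
        linear_combination -u * g2 - v * g4
      rw [k1, k2, k3, k4] at h1
      exact h1

private theorem b5_eig (p q r s t1 t2 : ℂ) (hA : p * s - q * r = 1) (hm : t1 * t2 = 1)
    (hs : t1 + t2 = p + s) (hne : t1 ≠ t2) :
    ∃ a b c d : ℂ, a * d - b * c ≠ 0 ∧ p * a + q * c = t1 * a ∧ r * a + s * c = t1 * c ∧
      p * b + q * d = t2 * b ∧ r * b + s * d = t2 * d := by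
  have hne' : t2 - t1 ≠ 0 := sub_ne_zero.2 (Ne.symm hne)
  by_cases hq : q = 0
  · by_cases hr : r = 0
    · subst hq
      subst hr
      have h1 : (t1 - p) * (t1 - s) = 0 := by linear_combination hA + t1 * hs - hm
      rcases mul_eq_zero.1 h1 with h2 | h2
      · have h3 : t1 = p := sub_eq_zero.1 h2
        have h4 : t2 = s := by linear_combination hs - h3
        exact ⟨1, 0, 0, 1, by norm_num, by rw [h3]; ring, by ring, by ring, by rw [h4]; ring⟩
      · have h3 : t1 = s := sub_eq_zero.1 h2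
        have h4 : t2 = p := by linear_combination hs - h3
        exact ⟨0, 1, 1, 0, by norm_num, by ring, by rw [h3]; ring, by rw [h4]; ring, by ring⟩
    · refine ⟨t1 - s, t2 - s, r, r, ?_, ?_, ?_, ?_, ?_⟩
      · have h1 : (t1 - s) * r - (t2 - s) * r = -((t2 - t1) * r) := by ring
        rw [h1]
        exact neg_ne_zero.2 (mul_ne_zero hne' hr)
      · linear_combination -hA - t1 * hs + hm
      · ring
      · linear_combination -hA - t2 * hs + hm
      · ring
  · refine ⟨q, q, t1 - p, t2 - p, ?_, ?_, ?_, ?_, ?_⟩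
    · have h1 : q * (t2 - p) - q * (t1 - p) = q * (t2 - t1) := by ring
      rw [h1]
      exact mul_ne_zero hq hne'
    · ring
    · linear_combination -hA - t1 * hs + hm
    · ring
    · linear_combination -hA - t2 * hs + hm

/-- Piece B5.  Diagonalisation of the first matrix.
Proof: `A = (p q; r s)` has distinct eigenvalues `τ, τ⁻¹` (`(p+s)² ≠ 4`), so `A M = M diag(τ, τ⁻¹)`
with an invertible `M`; `(P Q; R S) = M⁻¹ B M`, trace and determinant and the trace of `A⁻¹ B` are
preserved (`A⁻¹ = (s -q; -r p)`).  `P = S = 0` is impossible by `hB0`.  If `P = 0`, exchange the two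
columns of `M` (then `τ` becomes `τ⁻¹` and the new `P` is the old `S ≠ 0`).  For a form `F` put `F' u v = F (M (u,v))`, which
is again a form of the same degree (`IsForm` is closed under linear substitutions), not zero, and
satisfies the hypothesis of `det_of_form`. -/
theorem normal_form (p q r s p' q' r' s' : ℂ) (hA : p * s - q * r = 1)
    (hB : p' * s' - q' * r' = 1) (hne : (p + s) ^ 2 ≠ 4)
    (hB0 : p' + s' ≠ 0 ∨ s * p' - q * r' + (p * s' - r * q') ≠ 0) :
    ∃ τ P Q R S : ℂ, τ ≠ 0 ∧ P ≠ 0 ∧ P * S - Q * R = 1 ∧ τ + τ⁻¹ = p + s ∧ P + S = p' + s' ∧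
      τ⁻¹ * P + τ * S = s * p' - q * r' + (p * s' - r * q') ∧
      ∀ (l : ℕ) (F : ℂ → ℂ → ℂ), IsForm (2 * l) F → (∃ u v, F u v ≠ 0) →
        (∀ u v, F u v + F (p * u + q * v) (r * u + s * v) +
          F (p' * u + q' * v) (r' * u + s' * v) = 0) →
        (Nm l (τ ^ 2) (P ^ 2) (Q * R)).det = 0 := by
  -- the eigenvalues
  obtain ⟨w, hw⟩ := IsAlgClosed.exists_pow_nat_eq ((p + s) ^ 2 - 4) (zero_lt_two)
  have hw0 : w ≠ 0 := by
    rintro rfl
    apply hne
    linear_combination -hw
  obtain ⟨τ, hτd⟩ : ∃ τ : ℂ, τ = (p + s + w) / 2 := ⟨_, rfl⟩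
  have hm : τ * ((p + s - w) / 2) = 1 := by
    rw [hτd]
    linear_combination -hw / 4
  have hτ : τ ≠ 0 := left_ne_zero_of_mul_eq_one hm
  have hinv : τ⁻¹ = (p + s - w) / 2 := inv_eq_of_mul_eq_one_right hm
  have hm' : τ * τ⁻¹ = 1 := mul_inv_cancel₀ hτ
  have hs : τ + τ⁻¹ = p + s := by
    rw [hinv, hτd]
    ring
  have hne' : τ ≠ τ⁻¹ := by
    intro h
    apply hw0
    rw [hinv, hτd] at h
    linear_combination h
  obtain ⟨a, b, c, d, hD, e1, e2, e3, e4⟩ := b5_eig p q r s τ τ⁻¹ hA hm' hs hne'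
  -- the second matrix
  have key : ∀ x y : ℂ, ∃ X Y : ℂ, a * X + b * Y = x ∧ c * X + d * Y = y := fun x y =>
    ⟨_, _, b5_cramer a b c d x y hD⟩
  obtain ⟨P, R, g1, g2⟩ := key (p' * a + q' * c) (r' * a + s' * c)
  obtain ⟨Q, S, g3, g4⟩ := key (p' * b + q' * d) (r' * b + s' * d)
  obtain ⟨c1, c2, c3, c4⟩ := b5_core p q r s p' q' r' s' τ a b c d P Q R S hB hτ hD e1 e2 e3 e4
    g1 g2 g3 g4
  by_cases hP : P = 0
  · have hS : S ≠ 0 := by
      rintro rfl
      rcases hB0 with h | h
      · exact h (by rw [← c2, hP, add_zero])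
      · exact h (by rw [← c3, hP, mul_zero, mul_zero, add_zero])
    have hD' : b * c - a * d ≠ 0 := by
      intro h
      exact hD (by linear_combination -h)
    obtain ⟨k1, k2, k3, k4⟩ := b5_core p q r s p' q' r' s' τ⁻¹ b a d c S R Q P hB
      (inv_ne_zero hτ) hD' e3 e4 (by rw [inv_inv]; exact e1) (by rw [inv_inv]; exact e2)
      (by linear_combination g3) (by linear_combination g4) (by linear_combination g1)
      (by linear_combination g2)
    refine ⟨τ⁻¹, S, R, Q, P, inv_ne_zero hτ, hS, k1, ?_, k2, k3, k4 hS⟩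
    rw [inv_inv, add_comm]
    exact hs
  · exact ⟨τ, P, Q, R, S, hτ, hP, c1, hs, c2, c3, c4 hP⟩

end Pool.Agent.TTr
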