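import Pool.Agent.Lib_MP_8c2fb0_tt.Defs

/-!
# MP_8c2fb0_lc: traces.  Homogeneous polynomials vanishing on the null cone (piece C2)
-/

namespace Pool.Agent.TTr

open MvPolynomial Pool.Agent.Sph

private theorem nul_eq' (P : MvPolynomial (Fin 3) ℝ) (u v : ℂ) :
    nul P u v = eval₂ Complex.ofRealHom (phi u v) P := by
  unfold nul
  rw [eval_map]

/-- every null vector is a value of `phi` -/
private theorem exists_phi (w : Fin 3 → ℂ) (hw : w 0 ^ 2 + w 1 ^ 2 + w 2 ^ 2 = 0) :
    ∃ u v : ℂ, phi u v = w := by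
  obtain ⟨u, hu⟩ := IsAlgClosed.exists_pow_nat_eq ((w 0 - Complex.I * w 1) / 2) (n := 2) (by norm_num)
  obtain ⟨v, hv⟩ := IsAlgClosed.exists_pow_nat_eq (-(w 0 + Complex.I * w 1) / 2) (n := 2)
    (by norm_num)
  have hI : Complex.I ^ 2 = -1 := Complex.I_sq
  have h1 : (2 * u * v) ^ 2 = w 2 ^ 2 := by
    have e : (2 * u * v) ^ 2 = 4 * (u ^ 2 * v ^ 2) := by ring
    rw [e, hu, hv]
    linear_combination (-1 : ℂ) * hw + w 1 ^ 2 * hI
  have key : ∀ v' : ℂ, v' ^ 2 = v ^ 2 → -2 * u * v' = w 2 → ∃ u v : ℂ, phi u v = w := by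
    intro v' h2 h3
    refine ⟨u, v', ?_⟩
    funext i
    fin_cases i
    · change u ^ 2 - v' ^ 2 = w 0
      rw [h2, hu, hv]
      ring
    · change Complex.I * (u ^ 2 + v' ^ 2) = w 1
      rw [h2, hu, hv]
      linear_combination (-(w 1)) * hI
    · exact h3
  rcases sq_eq_sq_iff_eq_or_eq_neg.1 h1 with h | h
  · exact key (-v) (by ring) (by rw [← h]; ring)
  · exact key v rfl (by linear_combination -h)

private noncomputable def rr : MvPolynomial (Fin 3) ℝ := X 0 ^ 2 + X 1 ^ 2 + X 2 ^ 2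

private theorem rr_ne : rr ≠ 0 := by
  intro h
  have h1 := congrArg (eval (fun _ => (1 : ℝ))) h
  simp [rr] at h1
  norm_num at h1

private theorem rr_deg : rr.totalDegree = 2 := by
  have h : rr.IsHomogeneous 2 := by
    unfold rr
    exact ((isHomogeneous_X_pow (R := ℝ) (0 : Fin 3) 2).add
      (isHomogeneous_X_pow (R := ℝ) (1 : Fin 3) 2)).add (isHomogeneous_X_pow (R := ℝ) (2 : Fin 3) 2)
  exact h.totalDegree rr_ne

private noncomputable def MM : Polynomial (MvPolynomial (Fin 2) ℝ) :=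
  Polynomial.X ^ 2 + Polynomial.C (X 0 ^ 2 + X 1 ^ 2)

private theorem MM_monic : MM.Monic := by
  unfold MM
  exact Polynomial.monic_X_pow_add_C _ (by norm_num)

private theorem MM_deg : MM.natDegree = 2 := by
  unfold MM
  exact Polynomial.natDegree_X_pow_add_C

private theorem fse_rr : finSuccEquiv ℝ 2 rr = MM := by
  unfold rr MM
  have h1 : finSuccEquiv ℝ 2 (X 1) = Polynomial.C (X 0) := finSuccEquiv_X_succ (j := 0)
  have h2 : finSuccEquiv ℝ 2 (X 2) = Polynomial.C (X 1) := finSuccEquiv_X_succ (j := 1)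
  rw [map_add, map_add, map_pow, map_pow, map_pow, finSuccEquiv_X_zero, h1, h2, map_add, map_pow,
    map_pow]
  ring

private theorem fse_rename (A : MvPolynomial (Fin 2) ℝ) :
    finSuccEquiv ℝ 2 (rename Fin.succ A) = Polynomial.C A := by
  induction A using MvPolynomial.induction_on with
  | C a =>
    rw [rename_C]
    apply (finSuccEquiv ℝ 2).symm.injective
    rw [AlgEquiv.symm_apply_apply]
    exact (RingHom.congr_fun (finSuccEquiv_comp_C_eq_C (R := ℝ) 2) a).symm
  | add p q hp hq => rw [map_add, map_add, hp, hq, map_add]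
  | mul_X p i hp => rw [map_mul, map_mul, hp, rename_X, finSuccEquiv_X_succ, map_mul]

/-- the normal form -/
private theorem normal_form (Q : MvPolynomial (Fin 3) ℝ) :
    ∃ (A B : MvPolynomial (Fin 2) ℝ) (Q' : MvPolynomial (Fin 3) ℝ),
      Q = rr * Q' + (rename Fin.succ A + X 0 * rename Fin.succ B) := by
  set e := finSuccEquiv ℝ 2 with he
  have h1 := Polynomial.modByMonic_add_div (e Q) MM
  have hR : (e Q %ₘ MM).natDegree < 2 := by
    have h2 := Polynomial.natDegree_modByMonic_lt (e Q) MM_monic (by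
      intro h
      have h3 := MM_deg
      rw [h, Polynomial.natDegree_one] at h3
      exact absurd h3 (by norm_num))
    rwa [MM_deg] at h2
  obtain ⟨B, A, hAB⟩ := Polynomial.exists_eq_X_add_C_of_natDegree_le_one
    (show (e Q %ₘ MM).natDegree ≤ 1 by omega)
  refine ⟨A, B, e.symm (e Q /ₘ MM), ?_⟩
  apply e.injective
  rw [map_add, map_mul, AlgEquiv.apply_symm_apply, map_add, map_mul, he, fse_rr,
    finSuccEquiv_X_zero, fse_rename, fse_rename, ← he]
  conv_lhs => rw [← h1, hAB]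
  ring

/-- Piece C2.  A homogeneous polynomial which vanishes on the null vectors agrees on the sphere
with a polynomial of smaller degree. -/
theorem reduce_of_nul' (Q : MvPolynomial (Fin 3) ℝ) (n : ℕ) (hQ : Q.IsHomogeneous n)
    (h : ∀ u v, nul Q u v = 0) :
    ∃ Q' : MvPolynomial (Fin 3) ℝ, Q'.totalDegree ≤ n - 1 ∧ ∀ x : S2, ev Q' x = ev Q x := by
  obtain ⟨A, B, Q', hQ'⟩ := normal_form Q
  have h1 : ∀ w : Fin 2 → ℝ, (eval w A) ^ 2 + ((w 0) ^ 2 + (w 1) ^ 2) * (eval w B) ^ 2 = 0 := by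
    intro w
    obtain ⟨t, ht⟩ := IsAlgClosed.exists_pow_nat_eq (-(((w 0) ^ 2 + (w 1) ^ 2 : ℝ) : ℂ)) (n := 2)
      (by norm_num)
    let W : Fin 3 → ℂ := Fin.cons t (fun i => ((w i : ℝ) : ℂ))
    have hW0 : W 0 = t := rfl
    have hW1 : W 1 = ((w 0 : ℝ) : ℂ) := rfl
    have hW2 : W 2 = ((w 1 : ℝ) : ℂ) := rfl
    have hWs : W ∘ Fin.succ = fun i => ((w i : ℝ) : ℂ) := by
      funext i
      rfl
    have hW : W 0 ^ 2 + W 1 ^ 2 + W 2 ^ 2 = 0 := by
      rw [hW0, hW1, hW2, ht]
      push_cast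
      ring
    obtain ⟨u, v, huv⟩ := exists_phi W hW
    have h2 := h u v
    rw [nul_eq', huv, hQ', eval₂_add, eval₂_mul, eval₂_add, eval₂_mul, eval₂_X, eval₂_rename,
      eval₂_rename, hWs, hW0] at h2
    have h3 : eval₂ Complex.ofRealHom W rr = 0 := by
      unfold rr
      rw [eval₂_add, eval₂_add, eval₂_pow, eval₂_pow, eval₂_pow, eval₂_X, eval₂_X, eval₂_X]
      exact hW
    have h4 : ∀ P : MvPolynomial (Fin 2) ℝ,
        eval₂ Complex.ofRealHom (fun i => ((w i : ℝ) : ℂ)) P = ((eval w P : ℝ) : ℂ) := by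
      intro P
      have h5 := eval₂_comp_left Complex.ofRealHom (RingHom.id ℝ) w P
      rw [RingHom.comp_id] at h5
      exact h5.symm
    rw [h3, zero_mul, zero_add, h4, h4] at h2
    have h6 : (((eval w A) ^ 2 + ((w 0) ^ 2 + (w 1) ^ 2) * (eval w B) ^ 2 : ℝ) : ℂ) = 0 := by
      push_cast
      have h7 : t ^ 2 = -((w 0 : ℂ) ^ 2 + (w 1 : ℂ) ^ 2) := by
        rw [ht]
        push_cast
        ring
      linear_combination (((eval w A : ℝ) : ℂ) - t * ((eval w B : ℝ) : ℂ)) * h2 +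
        ((eval w B : ℝ) : ℂ) ^ 2 * h7
    exact_mod_cast h6
  have hA : A = 0 := by
    apply MvPolynomial.funext
    intro w
    rw [map_zero]
    have h2 := h1 w
    have h3 : 0 ≤ ((w 0) ^ 2 + (w 1) ^ 2) * (eval w B) ^ 2 := by positivity
    have h4 : (eval w A) ^ 2 = 0 := by
      have := sq_nonneg (eval w A)
      linarith
    exact pow_eq_zero_iff (two_ne_zero) |>.1 h4
  have hB : B = 0 := by
    have h2 : (X 0 ^ 2 + X 1 ^ 2 : MvPolynomial (Fin 2) ℝ) * B ^ 2 = 0 := by
      apply MvPolynomial.funext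
      intro w
      have h3 := h1 w
      rw [hA, map_zero] at h3
      simp only [map_mul, map_add, map_pow, eval_X, map_zero]
      linarith
    rcases mul_eq_zero.1 h2 with h3 | h3
    · have h4 := congrArg (eval (fun _ => (1 : ℝ))) h3
      simp at h4
    · exact pow_eq_zero_iff (two_ne_zero) |>.1 h3
  rw [hA, hB, map_zero, mul_zero, add_zero, add_zero] at hQ'
  refine ⟨Q', ?_, ?_⟩
  · by_cases h0 : Q' = 0
    · rw [h0, totalDegree_zero]
      exact Nat.zero_le _
    · have h2 := totalDegree_mul_of_isDomain rr_ne h0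
      rw [← hQ', rr_deg] at h2
      have h3 := hQ.totalDegree_le
      omega
  · intro x
    have hx : ((x : E3) 0) ^ 2 + ((x : E3) 1) ^ 2 + ((x : E3) 2) ^ 2 = 1 := by
      have h2 := mem_sphere_zero_iff_norm.1 x.2
      rw [EuclideanSpace.norm_eq, Real.sqrt_eq_one, Fin.sum_univ_three] at h2
      simpa only [Real.norm_eq_abs, sq_abs] using h2
    have h2 : ev rr x = 1 := by
      unfold ev rr
      simp only [map_add, map_pow, eval_X]
      exact hx
    have h3 : ev Q x = ev rr x * ev Q' x := by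
      rw [hQ']
      unfold ev
      rw [map_mul]
    rw [h3, h2, one_mul]

end Pool.Agent.TTr
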