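import Pool.Agent.Lib_MP_8c2fb0_tt.C1a
import Pool.Agent.Lib_MP_8c2fb0_tt.C1b

namespace Pool.Agent.TTr

open MvPolynomial Pool.Agent.Sph

/-- The top part of a polynomial which vanishes on the sphere vanishes on the null vectors. -/
theorem top_of_vanish (Q : MvPolynomial (Fin 3) ℝ) (n : ℕ) (hn : Q.totalDegree ≤ n)
    (h : ∀ x : S2, ev Q x = 0) (u v : ℂ) : nul (homogeneousComponent n Q) u v = 0 :=
  top_of_vanish' Q n hn h u v

/-- A homogeneous polynomial which vanishes on the null vectors agrees on the sphere with a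
polynomial of smaller degree. -/
theorem reduce_of_nul (Q : MvPolynomial (Fin 3) ℝ) (n : ℕ) (hQ : Q.IsHomogeneous n)
    (h : ∀ u v, nul Q u v = 0) :
    ∃ Q' : MvPolynomial (Fin 3) ℝ, Q'.totalDegree ≤ n - 1 ∧ ∀ x : S2, ev Q' x = ev Q x :=
  reduce_of_nul' Q n hQ h

end Pool.Agent.TTr
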