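import Pool.Agent.Lib_MP_8c2fb0_tt.Defs

/-!
# MP_8c2fb0_lc: traces.  The top part of a polynomial vanishing on the sphere (piece C1)
-/

namespace Pool.Agent.TTr

open MvPolynomial Pool.Agent.Sph

/-- homogeneity of the values -/
private theorem eval₂_smul_hom {K : Type*} [CommRing K] (f : ℝ →+* K) (c : K) (w : Fin 3 → K)
    {q : MvPolynomial (Fin 3) ℝ} {n : ℕ} (hq : q.IsHomogeneous n) :
    eval₂ f (fun i => c * w i) q = c ^ n * eval₂ f w q := by
  rw [eval₂_eq', eval₂_eq', Finset.mul_sum]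
  refine Finset.sum_congr rfl fun d hd => ?_
  have hdeg : ∑ i, d i = n := by
    have h1 : d.degree = n := by
      by_contra hne
      exact (mem_support_iff.1 hd) (hq.coeff_eq_zero hne)
    rw [← h1, Finsupp.degree_eq_sum]
  have h2 : ∏ i, (c * w i) ^ d i = c ^ n * ∏ i, w i ^ d i := by
    rw [← hdeg, ← Finset.prod_pow_eq_pow_sum, ← Finset.prod_mul_distrib]
    exact Finset.prod_congr rfl fun i _ => mul_pow _ _ _
  rw [h2]
  ring

/-- the parametrisation -/
private noncomputable def gg : Fin 3 → MvPolynomial (Fin 2) ℝ :=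
  ![2 * X 0, 2 * X 1, X 0 ^ 2 + X 1 ^ 2 - 1]

private noncomputable def DD : MvPolynomial (Fin 2) ℝ := X 0 ^ 2 + X 1 ^ 2 + 1

private noncomputable def PP (Q : MvPolynomial (Fin 3) ℝ) (n : ℕ) : MvPolynomial (Fin 2) ℝ :=
  ∑ k ∈ Finset.range (n + 1), bind₁ gg (homogeneousComponent k Q) * DD ^ (n - k)

private theorem eval₂_PP {K : Type*} [CommRing K] (f : ℝ →+* K) (w : Fin 2 → K)
    (Q : MvPolynomial (Fin 3) ℝ) (n : ℕ) :
    eval₂Hom f w (PP Q n) = ∑ k ∈ Finset.range (n + 1),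
      eval₂ f ![2 * w 0, 2 * w 1, w 0 ^ 2 + w 1 ^ 2 - 1] (homogeneousComponent k Q) *
        (w 0 ^ 2 + w 1 ^ 2 + 1) ^ (n - k) := by
  unfold PP
  rw [map_sum]
  refine Finset.sum_congr rfl fun k _ => ?_
  rw [map_mul, map_pow, eval₂Hom_bind₁]
  have h1 : (fun i => eval₂Hom f w (gg i)) = ![2 * w 0, 2 * w 1, w 0 ^ 2 + w 1 ^ 2 - 1] := by
    funext i
    fin_cases i <;> simp [gg]
  have h2 : eval₂Hom f w DD = w 0 ^ 2 + w 1 ^ 2 + 1 := by
    simp [DD]
  rw [h1, h2]
  rfl

private theorem PP_zero (Q : MvPolynomial (Fin 3) ℝ) (n : ℕ) (hn : Q.totalDegree ≤ n)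
    (h : ∀ x : S2, ev Q x = 0) : PP Q n = 0 := by
  apply MvPolynomial.funext
  intro w
  rw [map_zero]
  have h1 := eval₂_PP (RingHom.id ℝ) w Q n
  have h2 : eval w (PP Q n) = eval₂Hom (RingHom.id ℝ) w (PP Q n) := rfl
  rw [h2, h1]
  set D : ℝ := w 0 ^ 2 + w 1 ^ 2 + 1 with hD
  have hDpos : 0 < D := by positivity
  -- the point of the sphere
  let p : E3 := !₂[2 * w 0 / D, 2 * w 1 / D, (w 0 ^ 2 + w 1 ^ 2 - 1) / D]
  have hp : p ∈ Metric.sphere (0 : E3) 1 := by
    rw [mem_sphere_zero_iff_norm, EuclideanSpace.norm_eq]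
    rw [Real.sqrt_eq_one, Fin.sum_univ_three]
    simp only [p, Real.norm_eq_abs, sq_abs]
    simp
    field_simp
    rw [hD]
    ring
  have h3 := h ⟨p, hp⟩
  have h4 : ev Q ⟨p, hp⟩ = ∑ k ∈ Finset.range (n + 1),
      (D⁻¹) ^ k * eval₂ (RingHom.id ℝ) ![2 * w 0, 2 * w 1, w 0 ^ 2 + w 1 ^ 2 - 1]
        (homogeneousComponent k Q) := by
    have e1 : ev Q ⟨p, hp⟩ = eval₂ (RingHom.id ℝ)
        (fun i => D⁻¹ * (![2 * w 0, 2 * w 1, w 0 ^ 2 + w 1 ^ 2 - 1] : Fin 3 → ℝ) i) Q := by
      change eval₂ (RingHom.id ℝ) (fun i => p i) Q = _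
      congr 1
      funext i
      fin_cases i <;> simp [p, div_eq_inv_mul]
    rw [e1]
    conv_lhs => rw [← sum_homogeneousComponent Q]
    rw [eval₂_sum]
    have e2 : ∀ k ∈ Finset.range (n + 1), k ∉ Finset.range (Q.totalDegree + 1) →
        eval₂ (RingHom.id ℝ)
          (fun i => D⁻¹ * (![2 * w 0, 2 * w 1, w 0 ^ 2 + w 1 ^ 2 - 1] : Fin 3 → ℝ) i)
          (homogeneousComponent k Q) = 0 := by
      intro k _ hk
      rw [homogeneousComponent_eq_zero k Q (by
        rw [Finset.mem_range] at hk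
        omega), eval₂_zero]
    rw [Finset.sum_subset (Finset.range_mono (by omega)) e2]
    refine Finset.sum_congr rfl fun k _ => ?_
    exact eval₂_smul_hom (RingHom.id ℝ) _ _ (homogeneousComponent_isHomogeneous k Q)
  have h5 : ∑ k ∈ Finset.range (n + 1),
      eval₂ (RingHom.id ℝ) ![2 * w 0, 2 * w 1, w 0 ^ 2 + w 1 ^ 2 - 1] (homogeneousComponent k Q) *
        D ^ (n - k) = D ^ n * ev Q ⟨p, hp⟩ := by
    rw [h4, Finset.mul_sum]
    refine Finset.sum_congr rfl fun k hk => ?_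
    have hk' : k ≤ n := by
      rw [Finset.mem_range] at hk
      omega
    have e3 : D ^ n = D ^ (n - k) * D ^ k := by
      rw [← pow_add, Nat.sub_add_cancel hk']
    rw [e3, inv_pow]
    field_simp
  rw [h5, h3, mul_zero]

private theorem nul_eq (P : MvPolynomial (Fin 3) ℝ) (u v : ℂ) :
    nul P u v = eval₂ Complex.ofRealHom (phi u v) P := by
  unfold nul
  rw [eval_map]

private theorem nul_continuous (P : MvPolynomial (Fin 3) ℝ) :
    Continuous fun w : ℂ × ℂ => nul P w.1 w.2 := by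
  unfold nul
  have h : Continuous fun w : ℂ × ℂ => phi w.1 w.2 := by
    refine continuous_pi fun i => ?_
    fin_cases i
    · change Continuous fun w : ℂ × ℂ => w.1 ^ 2 - w.2 ^ 2
      fun_prop
    · change Continuous fun w : ℂ × ℂ => Complex.I * (w.1 ^ 2 + w.2 ^ 2)
      fun_prop
    · change Continuous fun w : ℂ × ℂ => -2 * w.1 * w.2
      fun_prop
  exact (MvPolynomial.continuous_eval _).comp h

private theorem nul_zero_of_ne (Q : MvPolynomial (Fin 3) ℝ) (n : ℕ) (hn : Q.totalDegree ≤ n)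
    (h : ∀ x : S2, ev Q x = 0) (u v : ℂ) (hu : u ≠ 0) (hv : v ≠ 0) :
    nul (homogeneousComponent n Q) u v = 0 := by
  rw [nul_eq]
  set x : ℂ := (u ^ 2 - v ^ 2) / (2 * u * v) with hx
  set y : ℂ := Complex.I * (u ^ 2 + v ^ 2) / (2 * u * v) with hy
  have hxy : x ^ 2 + y ^ 2 = -1 := by
    rw [hx, hy, div_pow, div_pow, mul_pow Complex.I, Complex.I_sq]
    field_simp
    ring
  have h1 := eval₂_PP Complex.ofRealHom ![x, y] Q n
  rw [PP_zero Q n hn h, map_zero] at h1
  have h2 : (![x, y] : Fin 2 → ℂ) 0 = x := rfl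
  have h3 : (![x, y] : Fin 2 → ℂ) 1 = y := rfl
  rw [h2, h3, hxy] at h1
  rw [Finset.sum_eq_single n] at h1
  · rw [Nat.sub_self, pow_zero, mul_one] at h1
    have h4 : phi u v = fun i => (u * v) * (![2 * x, 2 * y, -1 - 1] : Fin 3 → ℂ) i := by
      funext i
      fin_cases i
      · change u ^ 2 - v ^ 2 = (u * v) * (2 * x)
        rw [hx]
        field_simp
      · change Complex.I * (u ^ 2 + v ^ 2) = (u * v) * (2 * y)
        rw [hy]
        field_simp
      · change -2 * u * v = (u * v) * (-1 - 1)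
        ring
    rw [h4, eval₂_smul_hom Complex.ofRealHom _ _ (homogeneousComponent_isHomogeneous n Q), ← h1,
      mul_zero]
  · intro k hk hkn
    rw [Finset.mem_range] at hk
    rw [neg_add_cancel, zero_pow (by omega), mul_zero]
  · intro hn'
    exact absurd (Finset.mem_range.2 (Nat.lt_succ_self n)) hn'

/-- Piece C1.  The top part of a polynomial which vanishes on the sphere vanishes on the null
vectors. -/
theorem top_of_vanish' (Q : MvPolynomial (Fin 3) ℝ) (n : ℕ) (hn : Q.totalDegree ≤ n)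
    (h : ∀ x : S2, ev Q x = 0) (u v : ℂ) : nul (homogeneousComponent n Q) u v = 0 := by
  have h0 : ∀ P : MvPolynomial (Fin 3) ℝ, Continuous fun t : ℂ => nul P (u + t) (v + t) := by
    intro P
    have hc : Continuous fun t : ℂ => ((u + t, v + t) : ℂ × ℂ) := by fun_prop
    have h2 := (nul_continuous P).comp hc
    exact h2
  generalize hR : homogeneousComponent n Q = R
  have h1 : Filter.Tendsto (fun t : ℂ => nul R (u + t) (v + t))
      (nhdsWithin 0 {0}ᶜ) (nhds (nul R u v)) := by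
    have h3 := ((h0 R).tendsto 0).mono_left (nhdsWithin_le_nhds (s := {0}ᶜ))
    rw [add_zero, add_zero] at h3
    exact h3
  have key : ∀ w : ℂ, ∀ᶠ t : ℂ in nhdsWithin 0 {0}ᶜ, w + t ≠ 0 := by
    intro w
    by_cases hw : w = 0
    · subst hw
      filter_upwards [self_mem_nhdsWithin] with t ht
      simpa using ht
    · have h4 : Filter.Tendsto (fun t : ℂ => w + t) (nhds 0) (nhds (w + 0)) :=
        (continuous_const.add continuous_id).tendsto 0
      rw [add_zero] at h4
      exact (h4.eventually_ne hw).filter_mono nhdsWithin_le_nhds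
  have h5 : (fun t : ℂ => nul R (u + t) (v + t)) =ᶠ[nhdsWithin 0 {0}ᶜ] fun _ => 0 := by
    filter_upwards [key u, key v] with t hu hv
    rw [← hR]
    exact nul_zero_of_ne Q n hn h _ _ hu hv
  exact tendsto_nhds_unique (h1.congr' h5) tendsto_const_nhds

end Pool.Agent.TTr
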