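import Pool.Agent.Lib_MP_8c2fb0_tt.B1
import Pool.Agent.Lib_MP_8c2fb0_tt.C1

namespace Pool.Agent.TTr

open MvPolynomial Pool.Agent.Sph

/-- the quadratic form on the null vectors -/
theorem phi_dot (u v u' v' : ℂ) :
    dotProduct (phi u v) (phi u' v') = -2 * (u * v' - v * u') ^ 2 := by
  simp only [phi, dotProduct, Fin.sum_univ_three, Matrix.cons_val_zero, Matrix.cons_val_one,
    Matrix.cons_val]
  have hI : Complex.I * Complex.I = -1 := Complex.I_mul_I
  linear_combination ((u ^ 2 + v ^ 2) * (u' ^ 2 + v' ^ 2)) * hI

/-- a real matrix which lifts is orthogonal -/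
theorem Lifts.orthogonal {a : Matrix (Fin 3) (Fin 3) ℝ} {p q r s : ℂ} (ha : Lifts a p q r s) :
    a ∈ Matrix.orthogonalGroup (Fin 3) ℝ := by
  obtain ⟨hd, ha⟩ := ha
  rw [Matrix.mem_orthogonalGroup_iff']
  set A : Matrix (Fin 3) (Fin 3) ℂ := a.map Complex.ofReal with hA
  -- invariance of the form
  have h1 : ∀ u v u' v' : ℂ, dotProduct (A.mulVec (phi u v)) (A.mulVec (phi u' v')) =
      dotProduct (phi u v) (phi u' v') := by
    intro u v u' v'
    rw [ha, ha, phi_dot, phi_dot]
    have : (p * u + q * v) * (r * u' + s * v') - (r * u + s * v) * (p * u' + q * v') =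
        (p * s - q * r) * (u * v' - v * u') := by ring
    rw [this, hd, one_mul]
  have h2 : ∀ u v u' v' : ℂ, dotProduct (phi u v) ((A.transpose * A - 1).mulVec (phi u' v')) = 0 := by
    intro u v u' v'
    have h3 := h1 u v u' v'
    rw [Matrix.sub_mulVec, Matrix.one_mulVec, dotProduct_sub, ← h3, ← Matrix.mulVec_mulVec,
      Matrix.dotProduct_mulVec, Matrix.vecMul_transpose, sub_self]
  have h4 : A.transpose * A - 1 = 0 := by
    set B := A.transpose * A - 1 with hB
    -- the values at phi 1 0, phi 0 1, phi 1 1
    have e0 : ∀ w : Fin 3 → ℂ, (∀ u v, dotProduct (phi u v) w = 0) → w = 0 := by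
      intro w hw
      have a1 := hw 1 0
      have a2 := hw 0 1
      have a3 := hw 1 1
      simp only [phi, dotProduct, Fin.sum_univ_three, Matrix.cons_val_zero, Matrix.cons_val_one,
        Matrix.cons_val] at a1 a2 a3
      have b1 : w 1 = 0 := by
        have : Complex.I * w 1 = 0 := by linear_combination (1 / 2) * a1 + (1 / 2) * a2
        rcases mul_eq_zero.1 this with h | h
        · exact absurd h Complex.I_ne_zero
        · exact h
      have b0 : w 0 = 0 := by linear_combination (1 / 2) * a1 - (1 / 2) * a2
      have b2 : w 2 = 0 := by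
        rw [b1] at a3
        linear_combination (-1 / 2) * a3
      ext i
      fin_cases i
      · exact b0
      · exact b1
      · exact b2
    have e1 : ∀ u v : ℂ, B.mulVec (phi u v) = 0 := fun u v => e0 _ fun u' v' => h2 u' v' u v
    have e2 : ∀ i, B i = 0 := by
      intro i
      apply e0
      intro u v
      have := congrFun (e1 u v) i
      rw [dotProduct_comm]
      exact this
    ext i j
    exact congrFun (e2 i) j
  have h5 : (a.transpose * a).map Complex.ofReal = (1 : Matrix (Fin 3) (Fin 3) ℝ).map Complex.ofReal := by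
    have e : (a.transpose * a).map Complex.ofReal = A.transpose * A := by
      rw [hA]
      ext i j
      simp [Matrix.mul_apply]
    rw [e, sub_eq_zero.1 h4]
    ext i j
    by_cases hij : i = j
    · subst hij; simp
    · simp [hij]
  have h6 : a.transpose * a = 1 := by
    ext i j
    have := congrFun (congrFun h5 i) j
    simp only [Matrix.map_apply] at this
    exact Complex.ofReal_injective this
  exact h6

/-- the substitution commutes with the homogeneous components -/
theorem homogeneousComponent_sb (a : Matrix (Fin 3) (Fin 3) ℝ) (P : MvPolynomial (Fin 3) ℝ)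
    (n : ℕ) : homogeneousComponent n (sb a P) = sb a (homogeneousComponent n P) := by
  conv_lhs => rw [← sum_homogeneousComponent P]
  rw [map_sum, map_sum]
  have h : ∀ i ∈ Finset.range (P.totalDegree + 1),
      homogeneousComponent n (sb a (homogeneousComponent i P)) =
        if i = n then sb a (homogeneousComponent n P) else 0 := by
    intro i _
    have h1 : sb a (homogeneousComponent i P) ∈ homogeneousSubmodule (Fin 3) ℝ i :=
      sb_homogeneous a (homogeneousComponent_isHomogeneous i P)
    rw [homogeneousComponent_of_mem h1]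
    by_cases hi : n = i
    · subst hi; simp
    · rw [if_neg hi, if_neg (Ne.symm hi)]
  rw [Finset.sum_congr rfl h, Finset.sum_ite_eq']
  by_cases hn : n ∈ Finset.range (P.totalDegree + 1)
  · rw [if_pos hn]
  · rw [if_neg hn]
    rw [Finset.mem_range, not_lt] at hn
    rw [homogeneousComponent_eq_zero n P (by omega), map_zero]

/-- null values of a transformed polynomial -/
theorem nul_sb {a : Matrix (Fin 3) (Fin 3) ℝ} {p q r s : ℂ} (ha : Lifts a p q r s)
    (P : MvPolynomial (Fin 3) ℝ) (u v : ℂ) :
    nul (sb a P) u v = nul P (p * u + q * v) (r * u + s * v) := by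
  unfold nul
  rw [map_sb, eval_sb, ← ha.2]
  rfl

theorem nul_add (P Q : MvPolynomial (Fin 3) ℝ) (u v : ℂ) :
    nul (P + Q) u v = nul P u v + nul Q u v := by
  unfold nul
  rw [map_add, map_add]

/-- Piece C3.  Degree of the kernel of `P ↦ P + P ∘ a + P ∘ b` on the polynomial functions of the
sphere.
Proof: induction on `n` for `totalDegree P ≤ n`.  If `n > n₀`: `Q = P + sb a P + sb b P` vanishes
on the sphere, `top_of_vanish`, `homogeneousComponent n (sb a P) = sb a (homogeneousComponent n P)`,
`nul (sb a P_n) u v = nul P_n (p u + q v) (r u + s v)`, so the form `nul P_n` (`isForm_nul`) is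
zero by `hform`, `reduce_of_nul`, replace `P` by `P - P_n + Q'` (same values on the sphere). -/
theorem ker_degree (a b : Matrix (Fin 3) (Fin 3) ℝ) (p q r s p' q' r' s' : ℂ)
    (ha : Lifts a p q r s) (hb : Lifts b p' q' r' s') (n₀ : ℕ)
    (hform : ∀ n, n₀ < n → ∀ F : ℂ → ℂ → ℂ, IsForm (2 * n) F →
      (∀ u v, F u v + F (p * u + q * v) (r * u + s * v) +
          F (p' * u + q' * v) (r' * u + s' * v) = 0) → ∀ u v, F u v = 0)
    (P : MvPolynomial (Fin 3) ℝ)
    (hP : ∀ x : S2, ev P x + ev (sb a P) x + ev (sb b P) x = 0) :
    ∃ P' : MvPolynomial (Fin 3) ℝ, P'.totalDegree ≤ n₀ ∧ ∀ x : S2, ev P' x = ev P x := by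
  -- values of the transformed polynomials
  have hsa : ∀ (P₁ P₂ : MvPolynomial (Fin 3) ℝ), (∀ x : S2, ev P₁ x = ev P₂ x) →
      ∀ x : S2, ev (sb a P₁) x = ev (sb a P₂) x := by
    intro P₁ P₂ h x
    have h1 := ev_sact ⟨a, ha.orthogonal⟩ P₁ x
    have h2 := ev_sact ⟨a, ha.orthogonal⟩ P₂ x
    rw [← h1, ← h2, h]
  have hsb : ∀ (P₁ P₂ : MvPolynomial (Fin 3) ℝ), (∀ x : S2, ev P₁ x = ev P₂ x) →
      ∀ x : S2, ev (sb b P₁) x = ev (sb b P₂) x := by
    intro P₁ P₂ h x
    have h1 := ev_sact ⟨b, hb.orthogonal⟩ P₁ x
    have h2 := ev_sact ⟨b, hb.orthogonal⟩ P₂ x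
    rw [← h1, ← h2, h]
  have main : ∀ n : ℕ, ∀ P : MvPolynomial (Fin 3) ℝ, P.totalDegree ≤ n →
      (∀ x : S2, ev P x + ev (sb a P) x + ev (sb b P) x = 0) →
      ∃ P' : MvPolynomial (Fin 3) ℝ, P'.totalDegree ≤ n₀ ∧ ∀ x : S2, ev P' x = ev P x := by
    intro n
    induction n with
    | zero =>
      intro P hn _
      exact ⟨P, by omega, fun _ => rfl⟩
    | succ n ih =>
      intro P hn hP
      by_cases hlt : n + 1 ≤ n₀
      · exact ⟨P, by omega, fun _ => rfl⟩
      push Not at hlt
      set m := n + 1 with hm
      set T := homogeneousComponent m P with hT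
      have hTh : T.IsHomogeneous m := homogeneousComponent_isHomogeneous m P
      have hQd : (P + sb a P + sb b P).totalDegree ≤ m := by
        refine (totalDegree_add _ _).trans (max_le ((totalDegree_add _ _).trans (max_le hn ?_)) ?_)
        · exact sb_totalDegree a hn
        · exact sb_totalDegree b hn
      have hQ0 : ∀ x : S2, ev (P + sb a P + sb b P) x = 0 := by
        intro x
        have := hP x
        unfold ev at this ⊢
        rw [map_add, map_add]
        exact this
      have hnul : ∀ u v, nul T u v = 0 := by
        refine hform m hlt _ (isForm_nul T m hTh) ?_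
        intro u v
        have h1 := top_of_vanish _ m hQd hQ0 u v
        rw [map_add, map_add, homogeneousComponent_sb, homogeneousComponent_sb, nul_add, nul_add,
          nul_sb ha, nul_sb hb] at h1
        exact h1
      obtain ⟨Q', hQ'd, hQ'⟩ := reduce_of_nul T m hTh hnul
      have hev : ∀ x : S2, ev (P - T + Q') x = ev P x := by
        intro x
        have h1 := hQ' x
        unfold ev at h1 ⊢
        rw [map_add, map_sub, h1]
        ring
      have hPT : (P - T).totalDegree ≤ n := by
        have e : P - T = ∑ i ∈ Finset.range m, homogeneousComponent i P := by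
          have h1 : P = ∑ i ∈ Finset.range (m + 1), homogeneousComponent i P := by
            conv_lhs => rw [← sum_homogeneousComponent P]
            apply Finset.sum_subset
            · intro i hi
              rw [Finset.mem_range] at hi ⊢
              omega
            · intro i _ hi
              rw [Finset.mem_range, not_lt] at hi
              exact homogeneousComponent_eq_zero i P (by omega)
          rw [Finset.sum_range_succ] at h1
          rw [hT]
          linear_combination h1
        rw [e]
        refine (totalDegree_finsetSum _ _).trans (Finset.sup_le ?_)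
        intro i hi
        have h1 := (homogeneousComponent_isHomogeneous i P).totalDegree_le
        rw [Finset.mem_range] at hi
        omega
      have hd2 : (P - T + Q').totalDegree ≤ n :=
        (totalDegree_add _ _).trans (max_le hPT (by omega))
      obtain ⟨P', hP'd, hP'⟩ := ih (P - T + Q') hd2 (by
        intro x
        rw [hev, hsa _ _ hev, hsb _ _ hev]
        exact hP x)
      exact ⟨P', hP'd, fun x => by rw [hP', hev]⟩
  exact main _ P le_rfl hP

end Pool.Agent.TTr
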