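import Pool.Agent.Lib_MP_8c2fb0_tt.D1a

namespace Pool.Agent.TTr

open MeasureTheory MvPolynomial Pool.Agent.Sph

/-- the surface measure is positive on nonempty open sets -/
theorem surf_openPos : (surf : Measure S2).IsOpenPosMeasure := surf_openPos'

/-- A bounded function which is killed by `1 + a + b` is a polynomial function, if the
kernel of `1 + a + b` on the polynomial functions has bounded degree. -/
theorem poly_of_kernel (a b : Matrix.orthogonalGroup (Fin 3) ℝ) (n₀ : ℕ)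
    (hker : ∀ P : MvPolynomial (Fin 3) ℝ,
      (∀ x : S2, ev P x + ev (sb a.1 P) x + ev (sb b.1 P) x = 0) →
      ∃ P' : MvPolynomial (Fin 3) ℝ, P'.totalDegree ≤ n₀ ∧ ∀ x : S2, ev P' x = ev P x)
    (f : S2 → ℝ) (hf : AEStronglyMeasurable f surf) (C : ℝ) (hb : ∀ x, |f x| ≤ C)
    (hT : ∀ᵐ x ∂surf, f x + f (sact a x) + f (sact b x) = 0) :
    ∃ Q : MvPolynomial (Fin 3) ℝ, ∀ᵐ x ∂surf, f x = ev Q x :=
  poly_of_kernel' a b n₀ hker f hf C hb hT

end Pool.Agent.TTr
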