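import Pool.Agent.Lib_MP_8c2fb0_tt.Defs

/-!
# Piece D1: a bounded function killed by `1 + a + b` is a polynomial function
-/

namespace Pool.Agent.TTr

open MeasureTheory MvPolynomial Pool.Agent.Sph

/-- the surface measure is positive on nonempty open sets -/
theorem surf_openPos' : (surf : Measure S2).IsOpenPosMeasure := by
  unfold surf
  infer_instance

/-- evaluation on the sphere as a linear map -/
private noncomputable def evL : MvPolynomial (Fin 3) ℝ →ₗ[ℝ] (S2 → ℝ) where
  toFun P := ev P
  map_add' P Q := by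
    funext x
    simp only [ev, map_add, Pi.add_apply]
  map_smul' c P := by
    funext x
    simp only [ev, smul_eval, Pi.smul_apply, smul_eq_mul, RingHom.id_apply]

/-- the polynomial functions of degree at most `n` -/
private noncomputable def WW (n : ℕ) : Submodule ℝ (S2 → ℝ) :=
  (restrictTotalDegree (Fin 3) ℝ n).map evL

private instance (n : ℕ) : FiniteDimensional ℝ (WW n) := by
  unfold WW; infer_instance

private theorem mem_WW {n : ℕ} {F : S2 → ℝ} : F ∈ WW n ↔ ∃ P : MvPolynomial (Fin 3) ℝ,
    P.totalDegree ≤ n ∧ ev P = F := by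
  unfold WW
  rw [Submodule.mem_map]
  simp only [mem_restrictTotalDegree]
  rfl

private theorem WW_cont {n : ℕ} {F : S2 → ℝ} (h : F ∈ WW n) : Continuous F := by
  obtain ⟨P, _, rfl⟩ := mem_WW.1 h
  exact ev_continuous P

private theorem WW_mono {m n : ℕ} (h : m ≤ n) : WW m ≤ WW n := by
  intro F hF
  obtain ⟨P, hP, rfl⟩ := mem_WW.1 hF
  exact mem_WW.2 ⟨P, hP.trans h, rfl⟩

/-- invariance under rotations -/
private theorem WW_comp {n : ℕ} {F : S2 → ℝ} (h : F ∈ WW n) (g : Matrix.orthogonalGroup (Fin 3) ℝ) :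
    (fun x => F (sact g x)) ∈ WW n := by
  obtain ⟨P, hP, rfl⟩ := mem_WW.1 h
  refine mem_WW.2 ⟨sb g.1 P, sb_totalDegree _ hP, ?_⟩
  funext x
  exact (ev_sact g P x).symm

private theorem sact_symm_eq (g : Matrix.orthogonalGroup (Fin 3) ℝ) (x : S2) :
    (sact g).symm x = sact g⁻¹ x := by
  rw [Homeomorph.symm_apply_eq]
  ext1
  rw [coe_sact, coe_sact, ← act_mul]
  have h : g.1 * (g⁻¹).1 = 1 := by
    have := mul_inv_cancel g
    exact congrArg Subtype.val this
  rw [h, act_one]

private theorem WW_comp_symm {n : ℕ} {F : S2 → ℝ} (h : F ∈ WW n)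
    (g : Matrix.orthogonalGroup (Fin 3) ℝ) :
    (fun x => F ((sact g).symm x)) ∈ WW n := by
  have h1 := WW_comp h g⁻¹
  simpa only [sact_symm_eq] using h1

/-- definiteness -/
private theorem eq_zero_of_sq {F : S2 → ℝ} (hF : Continuous F)
    (h : ∫ x, F x * F x ∂surf = 0) : F = 0 := by
  have := surf_openPos'
  have h0 : (0 : S2 → ℝ) ≤ fun x => F x * F x := fun x => mul_self_nonneg _
  rw [integral_eq_zero_iff_of_nonneg h0 (integrable_of_continuous (hF.mul hF) surf)] at h
  have h1 : (fun x => F x * F x) = 0 := by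
    refine ((hF.mul hF).ae_eq_iff_eq surf continuous_zero).1 h
  funext x
  have h2 := congrFun h1 x
  simpa using h2

/-- bounded measurable times continuous is integrable -/
private theorem int_mul {f : S2 → ℝ} (hf : AEStronglyMeasurable f surf) {C : ℝ}
    (hb : ∀ x, |f x| ≤ C) {G : S2 → ℝ} (hG : Continuous G) :
    Integrable (fun x => f x * G x) surf := by
  refine (integrable_of_continuous hG surf).bdd_mul hf (c := C) ?_
  exact Filter.Eventually.of_forall fun x => by simpa using hb x

private theorem int_sub_mul {f : S2 → ℝ} (hf : AEStronglyMeasurable f surf) {C : ℝ}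
    (hb : ∀ x, |f x| ≤ C) {F G : S2 → ℝ} (hF : Continuous F) (hG : Continuous G) :
    ∫ x, (f x - F x) * G x ∂surf = ∫ x, f x * G x ∂surf - ∫ x, F x * G x ∂surf := by
  have h : ∫ x, (f x * G x - F x * G x) ∂surf =
      ∫ x, f x * G x ∂surf - ∫ x, F x * G x ∂surf :=
    integral_sub (int_mul hf hb hG) (integrable_of_continuous (hF.mul hG) surf)
  rw [← h]
  apply integral_congr_ae
  refine Filter.Eventually.of_forall fun x => ?_
  simp only
  ring

/-- continuous functions are bounded -/
private theorem exists_bd {q : S2 → ℝ} (hq : Continuous q) : ∃ D, ∀ x, |q x| ≤ D := by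
  have : CompactSpace S2 := isCompact_iff_compactSpace.1 (isCompact_sphere _ _)
  obtain ⟨D, hD⟩ := (isCompact_univ (X := S2)).exists_bound_of_continuousOn hq.continuousOn
  exact ⟨D, fun x => by simpa using hD x (Set.mem_univ x)⟩

/-- the projection -/
private theorem exists_proj {f : S2 → ℝ} (hf : AEStronglyMeasurable f surf) {C : ℝ}
    (hb : ∀ x, |f x| ≤ C) (n : ℕ) :
    ∃ q ∈ WW n, ∀ G ∈ WW n, ∫ x, q x * G x ∂surf = ∫ x, f x * G x ∂surf := by
  let φ : WW n →ₗ[ℝ] Module.Dual ℝ (WW n) := LinearMap.mk₂ ℝ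
    (fun F G : WW n => ∫ x, F.1 x * G.1 x ∂surf)
    (by
      intro F F' G
      simp only [Submodule.coe_add, Pi.add_apply, add_mul]
      exact integral_add (integrable_of_continuous ((WW_cont F.2).mul (WW_cont G.2)) surf)
        (integrable_of_continuous ((WW_cont F'.2).mul (WW_cont G.2)) surf))
    (by
      intro c F G
      simp only [Submodule.coe_smul, Pi.smul_apply, smul_eq_mul, mul_assoc]
      exact integral_const_mul _ _)
    (by
      intro F G G'
      simp only [Submodule.coe_add, Pi.add_apply, mul_add]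
      exact integral_add (integrable_of_continuous ((WW_cont F.2).mul (WW_cont G.2)) surf)
        (integrable_of_continuous ((WW_cont F.2).mul (WW_cont G'.2)) surf))
    (by
      intro c F G
      simp only [Submodule.coe_smul, Pi.smul_apply, smul_eq_mul]
      rw [← integral_const_mul]
      apply integral_congr_ae
      refine Filter.Eventually.of_forall fun x => ?_
      simp only
      ring)
  have hinj : Function.Injective φ := by
    rw [injective_iff_map_eq_zero]
    intro F hF
    have h1 : φ F F = 0 := by rw [hF]; rfl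
    have h2 : ∫ x, F.1 x * F.1 x ∂surf = 0 := h1
    exact Subtype.ext (eq_zero_of_sq (WW_cont F.2) h2)
  have hsurj : Function.Surjective φ :=
    (LinearMap.injective_iff_surjective_of_finrank_eq_finrank
      (Subspace.dual_finrank_eq (K := ℝ) (V := WW n)).symm).1 hinj
  let l : Module.Dual ℝ (WW n) :=
    { toFun := fun G => ∫ x, f x * G.1 x ∂surf
      map_add' := by
        intro G G'
        simp only [Submodule.coe_add, Pi.add_apply, mul_add]
        exact integral_add (int_mul hf hb (WW_cont G.2)) (int_mul hf hb (WW_cont G'.2))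
      map_smul' := by
        intro c G
        simp only [Submodule.coe_smul, Pi.smul_apply, smul_eq_mul, RingHom.id_apply]
        rw [← integral_const_mul]
        apply integral_congr_ae
        refine Filter.Eventually.of_forall fun x => ?_
        simp only
        ring }
  obtain ⟨q, hq⟩ := hsurj l
  refine ⟨q.1, q.2, ?_⟩
  intro G hG
  have h1 := LinearMap.congr_fun hq ⟨G, hG⟩
  exact h1

/-- change of variables -/
private theorem integral_shift (g : Matrix.orthogonalGroup (Fin 3) ℝ) (F G : S2 → ℝ) :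
    ∫ x, F (sact g x) * G x ∂surf = ∫ x, F x * G ((sact g).symm x) ∂surf := by
  have h := (sact_measurePreserving g).integral_comp (sact g).measurableEmbedding
    (fun x => F x * G ((sact g).symm x))
  rw [← h]
  simp only [Homeomorph.symm_apply_apply]

private theorem aesm_comp (g : Matrix.orthogonalGroup (Fin 3) ℝ) {f : S2 → ℝ}
    (hf : AEStronglyMeasurable f surf) : AEStronglyMeasurable (fun x => f (sact g x)) surf :=
  hf.comp_measurePreserving (sact_measurePreserving g)

private theorem proj_killed (a b : Matrix.orthogonalGroup (Fin 3) ℝ)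
    {f : S2 → ℝ} (hf : AEStronglyMeasurable f surf) {C : ℝ} (hb : ∀ x, |f x| ≤ C)
    (hT : ∀ᵐ x ∂surf, f x + f (sact a x) + f (sact b x) = 0) {n : ℕ} {q : S2 → ℝ}
    (hq : q ∈ WW n) (hqG : ∀ G ∈ WW n, ∫ x, q x * G x ∂surf = ∫ x, f x * G x ∂surf) (x : S2) :
    q x + q (sact a x) + q (sact b x) = 0 := by
  set r : S2 → ℝ := fun x => q x + q (sact a x) + q (sact b x) with hr
  have hrW : r ∈ WW n := (WW n).add_mem ((WW n).add_mem hq (WW_comp hq a)) (WW_comp hq b)
  have hexp : ∀ (F : S2 → ℝ) (hF : AEStronglyMeasurable F surf) (D : ℝ) (hD : ∀ x, |F x| ≤ D),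
      ∀ G : S2 → ℝ, Continuous G →
      ∫ x, (F x + F (sact a x) + F (sact b x)) * G x ∂surf =
        ∫ x, F x * G x ∂surf + ∫ x, F x * G ((sact a).symm x) ∂surf +
          ∫ x, F x * G ((sact b).symm x) ∂surf := by
    intro F hF D hD G hG
    rw [← integral_shift a, ← integral_shift b]
    refine Eq.trans ?_ (sum3 (int_mul hF hD hG)
      (int_mul (aesm_comp a hF) (fun x => hD _) hG)
      (int_mul (aesm_comp b hF) (fun x => hD _) hG))
    apply integral_congr_ae
    refine Filter.Eventually.of_forall fun x => ?_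
    simp only
    ring
  have hqc : Continuous q := WW_cont hq
  obtain ⟨D, hD⟩ := exists_bd hqc
  have h1 := hexp q hqc.aestronglyMeasurable D hD r (WW_cont hrW)
  have h2 := hexp f hf C hb r (WW_cont hrW)
  rw [hqG r hrW, hqG _ (WW_comp_symm hrW a), hqG _ (WW_comp_symm hrW b), ← h2] at h1
  have h3 : ∫ x, (f x + f (sact a x) + f (sact b x)) * r x ∂surf = 0 := by
    have h4 : ∫ x, (f x + f (sact a x) + f (sact b x)) * r x ∂surf = ∫ _ : S2, (0 : ℝ) ∂surf := by
      apply integral_congr_ae
      filter_upwards [hT] with x hx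
      rw [hx, zero_mul]
    rw [h4, integral_zero]
  rw [h3] at h1
  have h5 : ∫ x, r x * r x ∂surf = 0 := h1
  have h6 := eq_zero_of_sq (WW_cont hrW) h5
  exact congrFun h6 x

/-- a bounded function orthogonal to the polynomials vanishes almost everywhere -/
private theorem ae_zero_of_orth {g : S2 → ℝ} (hg : AEStronglyMeasurable g surf) {K : ℝ}
    (hb : ∀ x, |g x| ≤ K) (h : ∀ P, ∫ x, g x * ev P x ∂surf = 0) : ∀ᵐ x ∂surf, g x = 0 := by
  have hK : ∀ x, 0 ≤ g x + K := fun x => by linarith [(abs_le.1 (hb x)).1]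
  by_cases hne : Nonempty S2
  swap
  · exact Filter.Eventually.of_forall fun x => absurd ⟨x⟩ hne
  have hK0 : 0 ≤ K := (abs_nonneg _).trans (hb hne.some)
  have hm1 : AEMeasurable (fun x => ENNReal.ofReal (g x + K)) surf :=
    (hg.aemeasurable.add_const K).ennreal_ofReal
  have hm2 : AEMeasurable (fun _ : S2 => ENNReal.ofReal K) surf := aemeasurable_const
  have hfin1 : IsFiniteMeasure (surf.withDensity (fun x => ENNReal.ofReal (g x + K))) := by
    apply isFiniteMeasure_withDensity
    refine ((lintegral_mono (g := fun _ => ENNReal.ofReal (2 * K)) ?_).trans_lt ?_).ne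
    · intro x
      exact ENNReal.ofReal_le_ofReal (by linarith [(abs_le.1 (hb x)).2])
    · rw [lintegral_const]
      exact ENNReal.mul_lt_top ENNReal.ofReal_lt_top (measure_lt_top _ _)
  have hfin2 : IsFiniteMeasure (surf.withDensity (fun _ : S2 => ENNReal.ofReal K)) := by
    apply isFiniteMeasure_withDensity
    rw [lintegral_const]
    exact (ENNReal.mul_lt_top ENNReal.ofReal_lt_top (measure_lt_top _ _)).ne
  have heq : surf.withDensity (fun x => ENNReal.ofReal (g x + K)) =
      surf.withDensity (fun _ : S2 => ENNReal.ofReal K) := by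
    apply measure_ext
    intro P
    rw [integral_withDensity_eq_integral_toReal_smul₀ hm1
        (Filter.Eventually.of_forall fun x => ENNReal.ofReal_lt_top),
      integral_withDensity_eq_integral_toReal_smul₀ hm2
        (Filter.Eventually.of_forall fun x => ENNReal.ofReal_lt_top)]
    have e1 : ∀ x, (ENNReal.ofReal (g x + K)).toReal • ev P x = g x * ev P x + K * ev P x := by
      intro x
      rw [ENNReal.toReal_ofReal (hK x), smul_eq_mul]
      ring
    have e2 : ∀ x, (ENNReal.ofReal K).toReal • ev P x = K * ev P x := by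
      intro x
      rw [ENNReal.toReal_ofReal hK0, smul_eq_mul]
    simp only [e1, e2]
    rw [integral_add (int_mul hg hb (ev_continuous P))
      ((integrable_of_continuous (ev_continuous P) surf).const_mul K), h P, zero_add]
  have hae := (withDensity_eq_iff_of_sigmaFinite hm1 hm2).1 heq
  filter_upwards [hae] with x hx
  have h1 := (ENNReal.ofReal_eq_ofReal_iff (hK x) hK0).1 hx
  linarith

theorem poly_of_kernel' (a b : Matrix.orthogonalGroup (Fin 3) ℝ) (n₀ : ℕ)
    (hker : ∀ P : MvPolynomial (Fin 3) ℝ,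
      (∀ x : S2, ev P x + ev (sb a.1 P) x + ev (sb b.1 P) x = 0) →
      ∃ P' : MvPolynomial (Fin 3) ℝ, P'.totalDegree ≤ n₀ ∧ ∀ x : S2, ev P' x = ev P x)
    (f : S2 → ℝ) (hf : AEStronglyMeasurable f surf) (C : ℝ) (hb : ∀ x, |f x| ≤ C)
    (hT : ∀ᵐ x ∂surf, f x + f (sact a x) + f (sact b x) = 0) :
    ∃ Q : MvPolynomial (Fin 3) ℝ, ∀ᵐ x ∂surf, f x = ev Q x := by
  -- the projections
  choose q hqW hqG using exists_proj hf hb
  -- they all have degree at most `n₀`
  have hq0 : ∀ n, q n ∈ WW n₀ := by
    intro n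
    obtain ⟨P, hP, hPq⟩ := mem_WW.1 (hqW n)
    obtain ⟨P', hP', hPP⟩ := hker P (by
      intro x
      have h1 := proj_killed a b hf hb hT (hqW n) (hqG n) x
      rw [← hPq, ev_sact, ev_sact] at h1
      exact h1)
    refine mem_WW.2 ⟨P', hP', ?_⟩
    funext x
    rw [hPP x, hPq]
  -- so they are all equal
  have heq : ∀ n, n₀ ≤ n → q n = q n₀ := by
    intro n hn
    have hd : q n - q n₀ ∈ WW n₀ := (WW n₀).sub_mem (hq0 n) (hqW n₀)
    have h1 := hqG n _ (WW_mono hn hd)
    have h2 := hqG n₀ _ hd
    have h3 : ∫ x, (q n - q n₀) x * (q n - q n₀) x ∂surf = 0 := by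
      obtain ⟨D, hD⟩ := exists_bd (WW_cont (hqW n))
      have e1 : ∫ x, (q n - q n₀) x * (q n - q n₀) x ∂surf =
          ∫ x, q n x * (q n - q n₀) x ∂surf - ∫ x, q n₀ x * (q n - q n₀) x ∂surf :=
        int_sub_mul (WW_cont (hqW n)).aestronglyMeasurable hD (WW_cont (hqW n₀)) (WW_cont hd)
      rw [e1, h1, h2, sub_self]
    have h4 := eq_zero_of_sq (WW_cont hd) h3
    exact sub_eq_zero.1 h4
  obtain ⟨Q, _, hQ⟩ := mem_WW.1 (hqW n₀)
  refine ⟨Q, ?_⟩
  have horth : ∀ P, ∫ x, (f x - ev Q x) * ev P x ∂surf = 0 := by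
    intro P
    set n := max n₀ P.totalDegree with hn
    have h1 := hqG n (ev P) (mem_WW.2 ⟨P, le_max_right _ _, rfl⟩)
    rw [heq n (le_max_left _ _), ← hQ] at h1
    rw [int_sub_mul hf hb (ev_continuous Q) (ev_continuous P), h1, sub_self]
  obtain ⟨D, hD⟩ := exists_bd (ev_continuous Q)
  have hz := ae_zero_of_orth (g := fun x => f x - ev Q x)
    (hf.sub (ev_continuous Q).aestronglyMeasurable) (K := C + D)
    (fun x => (abs_sub _ _).trans (add_le_add (hb x) (hD x))) horth
  filter_upwards [hz] with x hx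
  linarith

end Pool.Agent.TTr
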