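import Pool.Agent.Lib_MP_8c2fb0_tt.D1

/-!
# Piece D2: a measurable function with values in `{2/3, 1/6, -1/3}` is not a polynomial solution
-/

namespace Pool.Agent.TTr

open MeasureTheory MvPolynomial Pool.Agent.Sph

/-- Piece D2.  No such function has values in `{2/3, 1/6, -1/3}`: `ev Q` is continuous, so it has
values in this finite (closed) set everywhere (`surf_openPos`), the sphere is connected
(`isPreconnected_sphere`, rank `3 > 1`), so `ev Q` is a constant `c`, `3 c = 0`. -/
theorem no_finite_values' (a b : Matrix.orthogonalGroup (Fin 3) ℝ)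
    (f : S2 → ℝ) (Q : MvPolynomial (Fin 3) ℝ) (hQ : ∀ᵐ x ∂surf, f x = ev Q x)
    (hT : ∀ᵐ x ∂surf, f x + f (sact a x) + f (sact b x) = 0)
    (hv : ∀ x, f x = 2 / 3 ∨ f x = 1 / 6 ∨ f x = -1 / 3) : False := by
  have hpos : (surf : Measure S2).IsOpenPosMeasure := surf_openPos
  -- the finite set of the values
  let W : Set ℝ := {2 / 3, 1 / 6, -1 / 3}
  have hWfin : W.Finite := Set.toFinite _
  have hmem : ∀ c : ℝ, c ∈ W ↔ (c = 2 / 3 ∨ c = 1 / 6 ∨ c = -1 / 3) := fun c => by
    simp [W]
  have hae : ∀ᵐ x ∂surf, ev Q x ∈ W := by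
    filter_upwards [hQ] with x hx
    rw [← hx, hmem]
    exact hv x
  -- all values of the polynomial function lie in this set
  have hall : ∀ x : S2, ev Q x ∈ W := by
    have hopen : IsOpen ((ev Q) ⁻¹' Wᶜ) := hWfin.isClosed.isOpen_compl.preimage (ev_continuous Q)
    have h0 : surf ((ev Q) ⁻¹' Wᶜ) = 0 := hae
    have h1 := hopen.eq_empty_of_measure_zero h0
    intro x
    by_contra hx
    have h2 : x ∈ (ev Q) ⁻¹' Wᶜ := hx
    rw [h1] at h2
    exact h2
  -- the polynomial function is constant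
  have hrank : 1 < Module.rank ℝ E3 := by
    rw [← Module.finrank_eq_rank, finrank_euclideanSpace, Fintype.card_fin]
    exact_mod_cast (by norm_num : 1 < 3)
  have hconn : PreconnectedSpace S2 :=
    Subtype.preconnectedSpace (isPreconnected_sphere hrank (0 : E3) 1)
  have hsub : (Set.range (ev Q)).Subsingleton := by
    rw [← Set.not_nontrivial_iff]
    intro hnt
    exact ((isPreconnected_range (ev_continuous Q)).infinite_of_nontrivial hnt)
      (hWfin.subset (Set.range_subset_iff.mpr hall))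
  have hne : (ae (surf : Measure S2)).NeBot := by
    rw [ae_neBot]
    intro h
    apply surf_univ_ne_zero
    rw [h]
    rfl
  have ha := (sact_measurePreserving a).quasiMeasurePreserving.ae hQ
  have hb := (sact_measurePreserving b).quasiMeasurePreserving.ae hQ
  obtain ⟨x, ⟨hx1, hx2⟩, hx3, hx4⟩ := ((hT.and hQ).and (ha.and hb)).exists
  have h3 : ev Q (sact a x) = ev Q x := hsub ⟨_, rfl⟩ ⟨_, rfl⟩
  have h4 : ev Q (sact b x) = ev Q x := hsub ⟨_, rfl⟩ ⟨_, rfl⟩
  rw [hx2, hx3, hx4, h3, h4] at hx1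
  rcases (hmem _).mp (hall x) with h | h | h <;> rw [h] at hx1 <;> norm_num at hx1

end Pool.Agent.TTr
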