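import Pool.Agent.Lib_MP_8c2fb0_lc.Meas

/-!
# MP_8c2fb0_lc: traces.  Definitions

`Nm l α β s` is, up to an invertible factor, the matrix of `1 + g + h` on the binary forms of
degree `2 l`, where `g` is diagonal with ratio of eigenvalues `α` and `h` has matrix
`(p q; r s')`, `p s' - q r = 1`, `β = p ^ 2`, `s = q r`.
-/

namespace Pool.Agent.TTr

open Matrix

/-- the matrix `N_l(α, β, s)`; all differences of exponents are truncated -/
def Nm {R : Type*} [CommRing R] (l : ℕ) (α β s : R) :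
    Matrix (Fin (2 * l + 1)) (Fin (2 * l + 1)) R := fun i j =>
  β ^ (l - (i : ℕ)) * (α ^ ((i : ℕ) - l) + α ^ (l - (i : ℕ))) * (Nat.choose i j : R) *
      (-s) ^ ((i : ℕ) - (j : ℕ)) +
    α ^ (l - (i : ℕ)) * β ^ ((i : ℕ) - l) * (Nat.choose (2 * l - i) (2 * l - j) : R)

/-- the matrix `N_l` rescaled by powers of `t = β⁻¹`, with `σ = s t` -/
def Nt {R : Type*} [CommRing R] (l : ℕ) (α t σ : R) :
    Matrix (Fin (2 * l + 1)) (Fin (2 * l + 1)) R := fun i j =>
  t ^ ((j : ℕ) - l) * (α ^ ((i : ℕ) - l) + α ^ (l - (i : ℕ))) * (Nat.choose i j : R) *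
      (-σ) ^ ((i : ℕ) - (j : ℕ)) +
    t ^ (l - (j : ℕ)) * α ^ (l - (i : ℕ)) * (Nat.choose (2 * l - i) (2 * l - j) : R)

/-- the diagonal entries of `N_l` -/
def dg {R : Type*} [CommRing R] (l : ℕ) (α β : R) (i : ℕ) : R :=
  β ^ (l - i) * (α ^ (i - l) + α ^ (l - i)) + α ^ (l - i) * β ^ (i - l)

/-- the coefficients of the first order term of `det N_l` -/
def uu {R : Type*} [CommRing R] (l : ℕ) (α β : R) (i : ℕ) : R :=
  β ^ (l - (i + 1)) * (α ^ ((i + 1) - l) + α ^ (l - (i + 1))) * (α ^ (l - i) * β ^ (i - l))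

/-- the first order term of `det N_l` at `s = 0` -/
def EE {R : Type*} [CommRing R] (l : ℕ) (α β : R) : R :=
  ∑ i ∈ Finset.range (2 * l), ((i + 1 : ℕ) : R) * ((2 * l - i : ℕ) : R) * uu l α β i *
    ∏ j ∈ (Finset.range (2 * l + 1)).filter (fun j => j ≠ i ∧ j ≠ i + 1), dg l α β j

/-- null vectors -/
def phi (u v : ℂ) : Fin 3 → ℂ := ![u ^ 2 - v ^ 2, Complex.I * (u ^ 2 + v ^ 2), -2 * u * v]

/-- binary forms of degree `N` as functions -/
def IsForm (N : ℕ) (F : ℂ → ℂ → ℂ) : Prop :=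
  ∃ f : ℕ → ℂ, ∀ u v, F u v = ∑ j ∈ Finset.range (N + 1), f j * u ^ j * v ^ (N - j)

/-- the real matrix `a` acts on the null vectors as the matrix `(p q; r s)` of determinant `1` -/
def Lifts (a : Matrix (Fin 3) (Fin 3) ℝ) (p q r s : ℂ) : Prop :=
  p * s - q * r = 1 ∧
    ∀ u v, (a.map Complex.ofReal).mulVec (phi u v) = phi (p * u + q * v) (r * u + s * v)

/-- the value of a real polynomial at a null vector -/
noncomputable def nul (P : MvPolynomial (Fin 3) ℝ) (u v : ℂ) : ℂ :=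
  MvPolynomial.eval (phi u v) (MvPolynomial.map Complex.ofRealHom P)

end Pool.Agent.TTr
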