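import Pool.Agent.Lib_MP_8c2fb0_tt.Defs

namespace Pool.Agent.TTr

open MeasureTheory Pool.Agent.Sph

/-- Piece E1a.  The rotation `± gᵀ`. -/
theorem rot_part (g : Matrix (Fin 3) (Fin 3) ℝ) (hg : g ∈ Matrix.orthogonalGroup (Fin 3) ℝ) :
    g.det • g.transpose ∈ Matrix.orthogonalGroup (Fin 3) ℝ ∧ (g.det • g.transpose).det = 1 ∧
      (g.det = 1 ∨ g.det = -1) := by
  have h1 : g.transpose * g = 1 := (Matrix.mem_orthogonalGroup_iff' (Fin 3) ℝ).1 hg
  have h3 : g.det * g.det = 1 := by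
    have := congrArg Matrix.det h1
    rwa [Matrix.det_mul, Matrix.det_transpose, Matrix.det_one] at this
  refine ⟨?_, ?_, ?_⟩
  · refine (Matrix.mem_orthogonalGroup_iff (Fin 3) ℝ).2 ?_
    show g.det • g.transpose * (g.det • g.transpose).transpose = 1
    rw [Matrix.transpose_smul, Matrix.transpose_transpose, Matrix.smul_mul, Matrix.mul_smul,
      smul_smul, h3, one_smul, h1]
  · rw [Matrix.det_smul, Matrix.det_transpose, Fintype.card_fin]
    calc g.det ^ 3 * g.det = (g.det * g.det) * (g.det * g.det) := by ring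
      _ = 1 := by rw [h3, one_mul]
  · exact mul_self_eq_one_iff.1 h3

private theorem neg_one_mem_O3 :
    (-1 : Matrix (Fin 3) (Fin 3) ℝ) ∈ Matrix.orthogonalGroup (Fin 3) ℝ := by
  refine (Matrix.mem_orthogonalGroup_iff (Fin 3) ℝ).2 ?_
  simp

/-- the antipodal map -/
private noncomputable def nn : Matrix.orthogonalGroup (Fin 3) ℝ := ⟨-1, neg_one_mem_O3⟩

private theorem act_neg (g : Matrix (Fin 3) (Fin 3) ℝ) (x : E3) : act g (-x) = -act g x := by
  unfold act
  rw [WithLp.ofLp_neg, Matrix.mulVec_neg, WithLp.toLp_neg]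

private theorem act_neg_left (g : Matrix (Fin 3) (Fin 3) ℝ) (x : E3) : act (-g) x = -act g x := by
  unfold act
  rw [Matrix.neg_mulVec, WithLp.toLp_neg]

private theorem coe_nn (x : S2) : ((sact nn x : S2) : E3) = -(x : E3) := by
  rw [coe_sact]
  show act (-1) (x : E3) = -(x : E3)
  rw [act_neg_left, act_one]

private theorem coe_symm (g : Matrix.orthogonalGroup (Fin 3) ℝ) (x : S2) :
    (((sact g).symm x : S2) : E3) = act g.1.transpose x := rfl

private theorem nn_nn (x : S2) : sact nn (sact nn x) = x := by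
  ext1
  rw [coe_nn, coe_nn, neg_neg]

private theorem nn_symm (g : Matrix.orthogonalGroup (Fin 3) ℝ) (x : S2) :
    sact nn ((sact g).symm x) = (sact g).symm (sact nn x) := by
  ext1
  rw [coe_nn, coe_symm, coe_symm, coe_nn, act_neg]

private theorem sact_cases (g a : Matrix.orthogonalGroup (Fin 3) ℝ)
    (ha : a.1 = g.1.det • g.1.transpose) (hd : g.1.det = 1 ∨ g.1.det = -1) (x : S2) :
    sact a x = (sact g).symm x ∨ sact a x = sact nn ((sact g).symm x) := by
  rcases hd with hd | hd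
  · left
    ext1
    rw [coe_sact, coe_symm, ha, hd, one_smul]
  · right
    ext1
    rw [coe_sact, coe_nn, coe_symm, ha, hd, neg_smul, one_smul, act_neg_left]

private theorem im_im {g g' : Matrix (Fin 3) (Fin 3) ℝ}
    (hg : g ∈ Matrix.orthogonalGroup (Fin 3) ℝ) (A : Set S2) :
    im g' (im g A) = im (g' * g) A := by
  ext x
  constructor
  · rintro ⟨b, ⟨a, ha, hab⟩, hb⟩
    exact ⟨a, ha, by rw [act_mul, hab, hb]⟩
  · rintro ⟨a, ha, hax⟩
    refine ⟨sact ⟨g, hg⟩ a, ⟨a, ha, (coe_sact ⟨g, hg⟩ a).symm⟩, ?_⟩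
    rw [coe_sact, ← act_mul, hax]

private theorem im_one (A : Set S2) : im 1 A = A := by
  ext x
  constructor
  · rintro ⟨a, ha, hax⟩
    rw [act_one] at hax
    have : a = x := Subtype.ext hax
    rwa [← this]
  · intro hx
    exact ⟨x, hx, act_one _⟩

private theorem im_null {g : Matrix (Fin 3) (Fin 3) ℝ}
    (hg : g ∈ Matrix.orthogonalGroup (Fin 3) ℝ) {A : Set S2} (hA : NullMeasurableSet A surf) :
    NullMeasurableSet (im g A) surf := by
  have h1 : im g A = (sact ⟨g, hg⟩).symm ⁻¹' A := by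
    ext x
    exact mem_im ⟨g, hg⟩ A x
  rw [h1]
  have h2 : MeasurePreserving (sact ⟨g, hg⟩).symm surf surf :=
    (sact_measurePreserving ⟨g, hg⟩).symm (sact ⟨g, hg⟩).toMeasurableEquiv
  exact hA.preimage h2.quasiMeasurePreserving

/-- Piece E1b.  From a splitting to an even function killed by `1 + a + b`, where `a`, `b` are the
rotations `± gᵀ`, `± hᵀ`.
Proof: `f x = (1_A(x) + 1_A(-x)) / 2 - 1/3` (`-x` on the sphere).  `x ∈ im g A ↔ (sact g).symm x ∈ A`
(`mem_im`), so for almost all `x`: `1_A(x) + 1_A(gᵀ x) + 1_A(hᵀ x) = 1`, the same at `-x`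
(`sact (-1)` is measure preserving); add; `f (a x) = f (gᵀ x)` because `f` is even. -/
theorem split_to_fun (g h : Matrix (Fin 3) (Fin 3) ℝ)
    (hg : g ∈ Matrix.orthogonalGroup (Fin 3) ℝ) (hh : h ∈ Matrix.orthogonalGroup (Fin 3) ℝ)
    (a b : Matrix.orthogonalGroup (Fin 3) ℝ) (ha : a.1 = g.det • g.transpose)
    (hb : b.1 = h.det • h.transpose) (A : Set S2) (hA : AESplit g h A) :
    ∃ f : S2 → ℝ, AEStronglyMeasurable f surf ∧
      (∀ x, f x = 2 / 3 ∨ f x = 1 / 6 ∨ f x = -1 / 3) ∧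
      ∀ᵐ x ∂surf, f x + f (sact a x) + f (sact b x) = 0 := by
  obtain ⟨c, hc⟩ : ∃ c : S2 → ℝ, c = A.indicator (fun _ => (1 : ℝ)) := ⟨_, rfl⟩
  have hc1 : ∀ x, x ∈ A → c x = 1 := by
    intro x hx
    rw [hc, Set.indicator_of_mem hx]
  have hc0 : ∀ x, x ∉ A → c x = 0 := by
    intro x hx
    rw [hc, Set.indicator_of_notMem hx]
  have hcm : AEStronglyMeasurable c surf := by
    rw [hc]
    exact aestronglyMeasurable_const.indicator₀ hA.1
  have hae : ∀ᵐ x ∂surf, c x + c ((sact ⟨g, hg⟩).symm x) + c ((sact ⟨h, hh⟩).symm x) = 1 := by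
    filter_upwards [hA.2] with x hx
    have e1 := mem_im ⟨g, hg⟩ A x
    have e2 := mem_im ⟨h, hh⟩ A x
    simp only at e1 e2
    rw [e1, e2] at hx
    rcases hx with ⟨h1, h2, h3⟩ | ⟨h1, h2, h3⟩ | ⟨h1, h2, h3⟩
    · rw [hc1 _ h1, hc0 _ h2, hc0 _ h3]; norm_num
    · rw [hc0 _ h1, hc1 _ h2, hc0 _ h3]; norm_num
    · rw [hc0 _ h1, hc0 _ h2, hc1 _ h3]; norm_num
  have hae' := (sact_measurePreserving nn).quasiMeasurePreserving.ae hae
  obtain ⟨f, hf⟩ : ∃ f : S2 → ℝ, ∀ x, f x = (c x + c (sact nn x)) / 2 - 1 / 3 := ⟨_, fun _ => rfl⟩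
  have heven : ∀ x, f (sact nn x) = f x := by
    intro x
    rw [hf, hf, nn_nn, add_comm]
  have hstep : ∀ (g' a' : Matrix.orthogonalGroup (Fin 3) ℝ),
      a'.1 = g'.1.det • g'.1.transpose → ∀ x, f (sact a' x) = f ((sact g').symm x) := by
    intro g' a' ha' x
    rcases sact_cases g' a' ha' (rot_part g'.1 g'.2).2.2 x with h1 | h1
    · rw [h1]
    · rw [h1, heven]
  refine ⟨f, ?_, ?_, ?_⟩
  · have h1 : f = fun x => (c x + c (sact nn x)) / 2 - 1 / 3 := funext hf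
    rw [h1]
    have h2 : AEStronglyMeasurable (fun x => c (sact nn x)) surf :=
      hcm.comp_measurePreserving (sact_measurePreserving nn)
    have h3 : AEStronglyMeasurable (fun x => (c x + c (sact nn x)) * (1 / 2) - 1 / 3) surf :=
      ((hcm.add h2).mul_const (1 / 2)).sub aestronglyMeasurable_const
    refine h3.congr (Filter.Eventually.of_forall fun x => ?_)
    show (c x + c (sact nn x)) * (1 / 2) - 1 / 3 = (c x + c (sact nn x)) / 2 - 1 / 3
    ring
  · intro x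
    rw [hf]
    by_cases h1 : x ∈ A <;> by_cases h2 : sact nn x ∈ A
    · left; rw [hc1 _ h1, hc1 _ h2]; norm_num
    · right; left; rw [hc1 _ h1, hc0 _ h2]; norm_num
    · right; left; rw [hc0 _ h1, hc1 _ h2]; norm_num
    · right; right; rw [hc0 _ h1, hc0 _ h2]; norm_num
  · filter_upwards [hae, hae'] with x hx hx'
    rw [hstep ⟨g, hg⟩ a ha x, hstep ⟨h, hh⟩ b hb x, hf, hf, hf, nn_symm, nn_symm]
    linarith

/-- Piece E1c.  Relabelling of the pieces: `A₂ = g(A)` is the base. -/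
theorem AESplit.relabel {g h : Matrix (Fin 3) (Fin 3) ℝ}
    (hg : g ∈ Matrix.orthogonalGroup (Fin 3) ℝ) (hh : h ∈ Matrix.orthogonalGroup (Fin 3) ℝ)
    {A : Set S2} (hA : AESplit g h A) : AESplit g.transpose (h * g.transpose) (im g A) := by
  have h1 : g.transpose * g = 1 := (Matrix.mem_orthogonalGroup_iff' (Fin 3) ℝ).1 hg
  refine ⟨im_null hg hA.1, ?_⟩
  rw [im_im hg, im_im hg, h1, im_one, Matrix.mul_assoc, h1, Matrix.mul_one]
  filter_upwards [hA.2] with x hx
  rcases hx with ⟨h1, h2, h3⟩ | ⟨h1, h2, h3⟩ | ⟨h1, h2, h3⟩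
  · exact Or.inr (Or.inl ⟨h2, h1, h3⟩)
  · exact Or.inl ⟨h2, h1, h3⟩
  · exact Or.inr (Or.inr ⟨h2, h1, h3⟩)

/-- exchange of the last two pieces -/
theorem AESplit.swap {g h : Matrix (Fin 3) (Fin 3) ℝ} {A : Set S2} (hA : AESplit g h A) :
    AESplit h g A := by
  refine ⟨hA.1, ?_⟩
  filter_upwards [hA.2] with x hx
  rcases hx with ⟨h1, h2, h3⟩ | ⟨h1, h2, h3⟩ | ⟨h1, h2, h3⟩
  · exact Or.inl ⟨h1, h3, h2⟩
  · exact Or.inr (Or.inr ⟨h1, h3, h2⟩)
  · exact Or.inr (Or.inl ⟨h1, h3, h2⟩)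

end Pool.Agent.TTr
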