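import Pool.Agent.Lib_MP_8c2fb0_tt.A9

namespace Pool.Agent.TTr

open Matrix

/-- Piece E2.  `core` for traces.
Proof: `α` is transcendental over `ℚ` (otherwise `ta` is algebraic; `AlgebraicIndependent` gives
`Transcendental ℚ ta` and `tb` transcendental over `ℚ(ta)`).  By `core` the numbers `s`, `β` are
algebraic over `ℚ(α)`, `α` is algebraic over `ℚ(ta)` (`α² - (ta - 1) α + 1 = 0`), so `tb` is
algebraic over `ℚ(ta)`.  (Transfer between `ℝ` and `ℂ` by `Complex.ofReal`.) -/
theorem indep_core (l m : ℕ) (hlm : l ≠ m) (α β s : ℂ) (hα : α ≠ 0) (hβ : β ≠ 0) (ta tb : ℝ)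
    (h1 : (ta : ℂ) = α + α⁻¹ + 1) (h2 : (tb : ℂ) + 1 = β + 2 * (1 + s) + (1 + s) ^ 2 / β)
    (hind : AlgebraicIndependent ℚ ![ta, tb])
    (hl : (Nm l α β s).det = 0) (hm : (Nm m α β s).det = 0) : False := by
  have hC : AlgebraicIndependent ℚ ![(ta : ℂ), (tb : ℂ)] := by
    have h := hind.map' (f := IsScalarTower.toAlgHom ℚ ℝ ℂ) Complex.ofReal_injective
    have e : (⇑(IsScalarTower.toAlgHom ℚ ℝ ℂ) ∘ ![ta, tb]) = ![(ta : ℂ), (tb : ℂ)] := by
      funext i
      fin_cases i <;> rfl
    rwa [e] at h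
  have hαt : Transcendental ℚ α := by
    intro ha
    refine hC.transcendental 0 ?_
    have : IsAlgebraic ℚ (α + α⁻¹ + 1) := (ha.add ha.inv).add isAlgebraic_one
    simpa [h1] using this
  set K₀ : IntermediateField ℚ ℂ := IntermediateField.adjoin ℚ {(ta : ℂ)} with hK₀
  have htr : Transcendental K₀ (tb : ℂ) := by
    have h := hC.transcendental_adjoin (s := {0}) (i := 1) (by simp)
    rw [hK₀, IntermediateField.transcendental_adjoin_iff]
    have e : (![(ta : ℂ), (tb : ℂ)] '' {0}) = {(ta : ℂ)} := by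
      rw [Set.image_singleton]
      rfl
    rw [e] at h
    exact h
  have hta : (ta : ℂ) ∈ K₀ := IntermediateField.mem_adjoin_simple_self ℚ (ta : ℂ)
  have hαA : IsAlgebraic K₀ α := by
    refine ⟨Polynomial.X ^ 2 - Polynomial.C ((⟨ta, hta⟩ : K₀) - 1) * Polynomial.X + 1, ?_, ?_⟩
    · intro h
      have := congrArg (fun p => Polynomial.coeff p 2) h
      simp [Polynomial.coeff_one] at this
    · have e1 : (algebraMap K₀ ℂ) (⟨ta, hta⟩ : K₀) = (ta : ℂ) := rfl
      simp only [map_add, map_sub, map_mul, map_pow, Polynomial.aeval_X, Polynomial.aeval_C,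
        map_one, e1]
      rw [h1]
      field_simp
      ring
  let A := algebraicClosure K₀ ℂ
  have hle : (IntermediateField.adjoin ℚ {α}).toSubalgebra ≤
      (A.restrictScalars ℚ).toSubalgebra := by
    have : IntermediateField.adjoin ℚ {α} ≤ A.restrictScalars ℚ := by
      rw [IntermediateField.adjoin_le_iff]
      intro x hx
      rw [Set.mem_singleton_iff] at hx
      rw [hx]
      exact hαA.isIntegral
    exact this
  have key : ∀ x : ℂ, IsAlgebraic (IntermediateField.adjoin ℚ {α}) x → IsAlgebraic K₀ x := by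
    intro x hx
    have h := IsAlgebraic.tower_top_of_subalgebra_le hle hx
    have h' : IsAlgebraic A x := h
    exact h'.restrictScalars K₀
  obtain ⟨hs, hb⟩ := core l m hlm α β s hαt hl hm
  have hs' := key s hs
  have hb' := key β hb
  apply htr
  have e : (tb : ℂ) = β + 2 * (1 + s) + (1 + s) ^ 2 / β - 1 := by
    rw [← h2]; ring
  rw [e, div_eq_mul_inv]
  have h1s : IsAlgebraic K₀ (1 + s) := isAlgebraic_one.add hs'
  have h2' : IsAlgebraic K₀ (2 : ℂ) := by
    have h := (isAlgebraic_one (R := K₀) (A := ℂ)).add (isAlgebraic_one (R := K₀) (A := ℂ))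
    rwa [one_add_one_eq_two] at h
  exact ((hb'.add (h2'.mul h1s)).add ((h1s.pow 2).mul hb'.inv)).sub isAlgebraic_one

end Pool.Agent.TTr
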