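import Pool.Agent.Lib_MP_8c2fb0_tt.A9

namespace Pool.Agent.TTr

open Matrix

/-- Piece E3.  One transcendental trace.
Proof: let `k` be the subfield of `ℂ` of all numbers algebraic over `ℚ(ta, tb)` (`τ`, `y = P + S`
are in it, by `hτ`, `hy`), `z = τ⁻¹ P + τ S` is transcendental over `k` (otherwise `tc = z² - 1` is
algebraic over `ℚ(ta, tb)`; transfer from `ℝ` to `ℂ`), and so is `z⁻¹`.  `exists_place`: a place
finite on `k` with `z⁻¹` in the maximal ideal.  `P = (z - τ y)/(τ⁻¹ - τ)`, so `P⁻¹` is in the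
maximal ideal, `Q R = P (y - P) - 1`, `Q R (P²)⁻¹ + 1 = y P⁻¹ - (P⁻¹)²` is in the maximal ideal.
Then `det_ne_of_pole'` with `α = τ²`, `β = P²`, `s = Q R`. -/
theorem tm_core (τ P Q R S : ℂ) (hτ0 : τ ≠ 0) (hτ1 : τ ^ 2 ≠ 1) (hP : P ≠ 0)
    (hdet : P * S - Q * R = 1) (ta tb tc : ℝ) (hτ : (τ + τ⁻¹) ^ 2 = (ta : ℂ) + 1)
    (hy : (P + S) ^ 2 = (tb : ℂ) + 1) (hz : (τ⁻¹ * P + τ * S) ^ 2 = (tc : ℂ) + 1)
    (htc : Transcendental (IntermediateField.adjoin ℚ {ta, tb}) tc) (l : ℕ) :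
    (Nm l (τ ^ 2) (P ^ 2) (Q * R)).det ≠ 0 := by
  set F := IntermediateField.adjoin ℚ {ta, tb} with hF
  have hmem : ∀ x : ℝ, x ∈ F → IsAlgebraic F (x : ℂ) := by
    intro x hx
    exact isAlgebraic_algebraMap (A := ℂ) (⟨x, hx⟩ : F)
  have hta : IsAlgebraic F (ta : ℂ) :=
    hmem ta (IntermediateField.subset_adjoin ℚ _ (by simp))
  have htb : IsAlgebraic F (tb : ℂ) :=
    hmem tb (IntermediateField.subset_adjoin ℚ _ (by simp))
  have hsq : ∀ x : ℂ, IsAlgebraic F (x ^ 2) → IsAlgebraic F x := by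
    intro x hx
    exact IsAlgebraic.of_pow (by norm_num : 0 < 2) hx
  have hτi : IsAlgebraic F (τ + τ⁻¹) := by
    apply hsq; rw [hτ]; exact hta.add isAlgebraic_one
  have hyi : IsAlgebraic F (P + S) := by
    apply hsq; rw [hy]; exact htb.add isAlgebraic_one
  let k : Subfield ℂ := (algebraicClosure F ℂ).toSubfield
  have hkm : ∀ x : ℂ, x ∈ k ↔ IsAlgebraic F x := fun x => mem_algebraicClosure_iff
  -- `τ` is algebraic over `F`
  have hτk : IsAlgebraic F τ := by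
    have h1 : (τ - τ⁻¹) ^ 2 = (τ + τ⁻¹) ^ 2 - 4 := by field_simp; ring
    have h2 : IsAlgebraic F (τ - τ⁻¹) := by
      apply hsq
      rw [h1]
      exact (hτi.pow 2).sub (by
        have := isAlgebraic_natCast (R := F) (A := ℂ) 4
        exact_mod_cast this)
    have h3 : IsAlgebraic F (τ * 2) := by
      have h4 : τ * 2 = (τ + τ⁻¹) + (τ - τ⁻¹) := by ring
      rw [h4]; exact hτi.add h2
    have h5 : τ = τ * 2 * (2 : ℂ)⁻¹ := by ring
    rw [h5]
    exact h3.mul ((by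
        have := isAlgebraic_natCast (R := F) (A := ℂ) 2
        exact_mod_cast this : IsAlgebraic F (2 : ℂ)).inv)
  set z := τ⁻¹ * P + τ * S with hzdef
  have hzt : Transcendental k z⁻¹ := by
    intro halg
    have h1 : IsAlgebraic F z⁻¹ := by
      haveI : Algebra.IsAlgebraic F (algebraicClosure F ℂ) := inferInstance
      exact IsAlgebraic.restrictScalars (S := algebraicClosure F ℂ) F halg
    have h2 : IsAlgebraic F z := by simpa using h1.inv
    have h3 : IsAlgebraic F (tc : ℂ) := by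
      have h4 : (tc : ℂ) = z ^ 2 - 1 := by rw [hz]; ring
      rw [h4]; exact (h2.pow 2).sub isAlgebraic_one
    exact htc ((isAlgebraic_algebraMap_iff (R := F) (A := ℂ) Complex.ofReal_injective).1 h3)
  obtain ⟨V, hV, hzV⟩ := exists_place k z⁻¹ hzt
  have hz0 : z ≠ 0 := by
    intro h0
    rw [h0, _root_.inv_zero] at hzt
    exact hzt isAlgebraic_zero
  have hzv : 1 < V.valuation z := by
    have h1 : V.valuation z⁻¹ < 1 := V.mem_nonunits_iff.1 hzV
    rw [map_inv₀] at h1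
    exact (inv_lt_one₀ (zero_lt_iff.2 ((Valuation.ne_zero_iff _).2 hz0))).1 h1
  have hle : ∀ x : ℂ, IsAlgebraic F x → V.valuation x ≤ 1 := fun x hx => by
    rw [V.valuation_le_one_iff]
    exact hV x ((hkm x).2 hx)
  have hone : ∀ x : ℂ, IsAlgebraic F x → x ≠ 0 → V.valuation x = 1 := by
    intro x hx hx0
    refine le_antisymm (hle x hx) ?_
    have h1 := hle x⁻¹ hx.inv
    rw [map_inv₀] at h1
    exact (inv_le_one₀ (zero_lt_iff.2 ((Valuation.ne_zero_iff _).2 hx0))).1 h1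
  have hyk : V.valuation (P + S) ≤ 1 := hle _ hyi
  have hd0 : τ⁻¹ - τ ≠ 0 := by
    intro h0
    apply hτ1
    have h1 : τ⁻¹ = τ := sub_eq_zero.1 h0
    have h2 : τ * τ⁻¹ = 1 := mul_inv_cancel₀ hτ0
    rw [h1] at h2
    rw [pow_two]; exact h2
  have hdv : V.valuation (τ⁻¹ - τ) = 1 := hone _ (hτk.inv.sub hτk) hd0
  have hPv : 1 < V.valuation P := by
    have h1 : (τ⁻¹ - τ) * P = z - τ * (P + S) := by rw [hzdef]; ring
    have h2 : V.valuation (z - τ * (P + S)) = V.valuation z := by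
      apply Valuation.map_sub_eq_of_lt_left
      exact lt_of_le_of_lt (hle _ (hτk.mul hyi)) hzv
    rw [← h1, map_mul, hdv, one_mul] at h2
    rw [h2]; exact hzv
  have hPi : V.valuation P⁻¹ < 1 := by
    rw [map_inv₀]
    exact inv_lt_one_of_one_lt₀ hPv
  have hβ : (P ^ 2)⁻¹ ∈ V.nonunits := by
    rw [V.mem_nonunits_iff, ← inv_pow, map_pow]
    exact pow_lt_one₀ zero_le' hPi (by norm_num)
  have hs : Q * R * (P ^ 2)⁻¹ + 1 ∈ V.nonunits := by
    rw [V.mem_nonunits_iff]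
    have h1 : Q * R * (P ^ 2)⁻¹ + 1 = (P + S) * P⁻¹ - (P ^ 2)⁻¹ := by
      have h2 : Q * R = P * S - 1 := by linear_combination -hdet
      rw [h2]
      field_simp
      ring
    rw [h1]
    refine lt_of_le_of_lt (V.valuation.map_sub _ _) (max_lt ?_ (V.mem_nonunits_iff.1 hβ))
    rw [map_mul]
    exact mul_lt_one_of_nonneg_of_lt_one_right hyk zero_le' hPi
  exact det_ne_of_pole' k V hV l (τ ^ 2) (P ^ 2) (Q * R) ((hkm _).2 (hτk.pow 2))
    (pow_ne_zero 2 hτ0) hτ1 hβ (pow_ne_zero 2 hP) hs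

end Pool.Agent.TTr
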