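import Pool.Agent.Lib_MP_8c2fb0_lc.Generic
import Pool.Agent.Lib_MP_8c2fb0_tt.B4
import Pool.Agent.Lib_MP_8c2fb0_tt.B5
import Pool.Agent.Lib_MP_8c2fb0_tt.C3
import Pool.Agent.Lib_MP_8c2fb0_tt.D1b
import Pool.Agent.Lib_MP_8c2fb0_tt.E1
import Pool.Agent.Lib_MP_8c2fb0_tt.E2
import Pool.Agent.Lib_MP_8c2fb0_tt.E3

/-!
# Assembly
-/

namespace Pool.Agent.TTr

open MeasureTheory Matrix Pool.Agent.Sph

/-- no function with three values is killed by `1 + a + b` if only finitely many `N_l` are
singular -/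
theorem no_fun (a b : Matrix.orthogonalGroup (Fin 3) ℝ) (p q r s p' q' r' s' : ℂ)
    (ha : Lifts a.1 p q r s) (hb : Lifts b.1 p' q' r' s') (n₀ : ℕ)
    (hform : ∀ n, n₀ < n → ∀ F : ℂ → ℂ → ℂ, IsForm (2 * n) F →
      (∀ u v, F u v + F (p * u + q * v) (r * u + s * v) +
          F (p' * u + q' * v) (r' * u + s' * v) = 0) → ∀ u v, F u v = 0)
    (f : S2 → ℝ) (hf : AEStronglyMeasurable f surf)
    (hv : ∀ x, f x = 2 / 3 ∨ f x = 1 / 6 ∨ f x = -1 / 3)
    (hT : ∀ᵐ x ∂surf, f x + f (sact a x) + f (sact b x) = 0) : False := by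
  obtain ⟨Q, hQ⟩ := poly_of_kernel a b n₀
    (fun P hP => ker_degree a.1 b.1 p q r s p' q' r' s' ha hb n₀ hform P hP) f hf 1
    (fun x => by
      rcases hv x with h | h | h <;> rw [h, abs_le] <;> constructor <;> norm_num) hT
  exact no_finite_values' a b f Q hQ hT hv

/-- first case: two independent traces -/
theorem no_fun_T1 (a b : Matrix.orthogonalGroup (Fin 3) ℝ) (hda : a.1.det = 1)
    (hdb : b.1.det = 1) (hind : AlgebraicIndependent ℚ ![a.1.trace, b.1.trace])
    (f : S2 → ℝ) (hf : AEStronglyMeasurable f surf)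
    (hv : ∀ x, f x = 2 / 3 ∨ f x = 1 / 6 ∨ f x = -1 / 3)
    (hT : ∀ᵐ x ∂surf, f x + f (sact a x) + f (sact b x) = 0) : False := by
  have hta : Transcendental ℚ a.1.trace := by simpa using hind.transcendental 0
  have htb : Transcendental ℚ b.1.trace := by simpa using hind.transcendental 1
  obtain ⟨p, q, r, s, ha⟩ := exists_lift_all a.1 a.2 hda
  obtain ⟨p', q', r', s', hb⟩ := exists_lift_all b.1 b.2 hdb
  have e1 := trace_lift _ _ _ _ _ ha
  have e2 := trace_lift _ _ _ _ _ hb
  have hne : (p + s) ^ 2 ≠ 4 := by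
    intro h
    rw [← e1] at h
    have h3 : a.1.trace = 3 := by
      have h4 : ((a.1.trace : ℝ) : ℂ) = ((3 : ℝ) : ℂ) := by push_cast; linear_combination h
      exact_mod_cast h4
    rw [h3] at hta
    exact hta (by exact_mod_cast isAlgebraic_algebraMap (R := ℚ) (A := ℝ) 3)
  have hB0 : p' + s' ≠ 0 := by
    intro h
    rw [h] at e2
    have h3 : b.1.trace = -1 := by
      have h4 : ((b.1.trace : ℝ) : ℂ) = ((-1 : ℝ) : ℂ) := by push_cast; linear_combination e2
      exact_mod_cast h4
    rw [h3] at htb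
    exact htb (by exact_mod_cast isAlgebraic_algebraMap (R := ℚ) (A := ℝ) (-1))
  obtain ⟨τ, P, Q, R, S, hτ, hP, hdet, htr, htr', -, hN⟩ :=
    normal_form p q r s p' q' r' s' ha.1 hb.1 hne (Or.inl hB0)
  have hone : ∀ l m, l ≠ m → (Nm l (τ ^ 2) (P ^ 2) (Q * R)).det = 0 →
      (Nm m (τ ^ 2) (P ^ 2) (Q * R)).det = 0 → False := by
    intro l m hlm hl hm
    refine indep_core l m hlm (τ ^ 2) (P ^ 2) (Q * R) (pow_ne_zero 2 hτ) (pow_ne_zero 2 hP)
      a.1.trace b.1.trace ?_ ?_ hind hl hm
    · rw [← htr] at e1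
      have : (τ + τ⁻¹) ^ 2 = τ ^ 2 + (τ ^ 2)⁻¹ + 2 := by field_simp; ring
      rw [this] at e1
      linear_combination e1
    · rw [e2, ← htr']
      have hS : S = (1 + Q * R) / P := by rw [eq_div_iff hP]; linear_combination hdet
      rw [hS]
      field_simp
      ring
  obtain ⟨n₀, hn₀⟩ : ∃ n₀, ∀ n, n₀ < n → (Nm n (τ ^ 2) (P ^ 2) (Q * R)).det ≠ 0 := by
    by_cases hex : ∃ l, (Nm l (τ ^ 2) (P ^ 2) (Q * R)).det = 0
    · obtain ⟨l, hl⟩ := hex
      exact ⟨l, fun n hn hn0 => hone l n hn.ne hl hn0⟩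
    · push Not at hex
      exact ⟨0, fun n _ => hex n⟩
  refine no_fun a b p q r s p' q' r' s' ha hb n₀ ?_ f hf hv hT
  intro n hn F hF heq
  by_contra hcon
  push Not at hcon
  exact hn₀ n hn (hN n F hF hcon heq)

/-- second case: one trace transcendental over the other two -/
theorem no_fun_TM (a b : Matrix.orthogonalGroup (Fin 3) ℝ) (hda : a.1.det = 1)
    (hdb : b.1.det = 1)
    (htc : Transcendental (IntermediateField.adjoin ℚ {a.1.trace, b.1.trace})
      (a.1.transpose * b.1).trace)
    (f : S2 → ℝ) (hf : AEStronglyMeasurable f surf)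
    (hv : ∀ x, f x = 2 / 3 ∨ f x = 1 / 6 ∨ f x = -1 / 3)
    (hT : ∀ᵐ x ∂surf, f x + f (sact a x) + f (sact b x) = 0) : False := by
  have halg : ∀ x ∈ IntermediateField.adjoin ℚ {a.1.trace, b.1.trace},
      (a.1.transpose * b.1).trace ≠ x := by
    rintro x hx h
    apply htc
    rw [h]
    exact isAlgebraic_algebraMap
      (⟨x, hx⟩ : IntermediateField.adjoin ℚ {a.1.trace, b.1.trace})
  obtain ⟨p, q, r, s, ha⟩ := exists_lift_all a.1 a.2 hda
  obtain ⟨p', q', r', s', hb⟩ := exists_lift_all b.1 b.2 hdb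
  have hc := lift_transpose_mul a.1 b.1 a.2 p q r s p' q' r' s' ha hb
  have e1 := trace_lift _ _ _ _ _ ha
  have e2 := trace_lift _ _ _ _ _ hb
  have e3 := trace_lift _ _ _ _ _ hc
  have hne : (p + s) ^ 2 ≠ 4 := by
    intro h
    rw [← e1] at h
    have h3 : a.1.trace = 3 := by
      have h4 : ((a.1.trace : ℝ) : ℂ) = ((3 : ℝ) : ℂ) := by push_cast; linear_combination h
      exact_mod_cast h4
    have h5 := eq_one_of_trace a.1 a.2 h3
    apply halg b.1.trace (IntermediateField.subset_adjoin ℚ _ (by simp))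
    rw [h5, transpose_one, one_mul]
  have hB0 : s * p' - q * r' + (p * s' - r * q') ≠ 0 := by
    intro h
    rw [h] at e3
    have h3 : (a.1.transpose * b.1).trace = -1 := by
      have h4 : (((a.1.transpose * b.1).trace : ℝ) : ℂ) = ((-1 : ℝ) : ℂ) := by
        push_cast
        linear_combination e3
      exact_mod_cast h4
    exact halg (-1) (neg_mem (one_mem _)) h3
  obtain ⟨τ, P, Q, R, S, hτ, hP, hdet, htr, htr', htr'', hN⟩ :=
    normal_form p q r s p' q' r' s' ha.1 hb.1 hne (Or.inr hB0)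
  have hτ1 : τ ^ 2 ≠ 1 := by
    intro h
    apply hne
    rw [← htr]
    have : (τ + τ⁻¹) ^ 2 = τ ^ 2 + (τ ^ 2)⁻¹ + 2 := by field_simp; ring
    rw [this, h]
    norm_num
  refine no_fun a b p q r s p' q' r' s' ha hb 0 ?_ f hf hv hT
  intro n _ F hF heq
  by_contra hcon
  push Not at hcon
  refine tm_core τ P Q R S hτ hτ1 hP hdet a.1.trace b.1.trace (a.1.transpose * b.1).trace
    ?_ ?_ ?_ htc n (hN n F hF hcon heq)
  · rw [htr]; exact e1.symm
  · rw [htr']; exact e2.symm
  · rw [htr'']; exact e3.symm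

/-- the hypothesis on the three traces: the first two are algebraically independent over `ℚ`, or
the third one is transcendental over the field generated by the first two -/
def TraceCond (x y z : ℝ) : Prop :=
  AlgebraicIndependent ℚ ![x, y] ∨ Transcendental (IntermediateField.adjoin ℚ {x, y}) z

theorem indep_sign {x y : ℝ} (h : AlgebraicIndependent ℚ ![x, y]) {ε δ : ℝ}
    (hε : ε = 1 ∨ ε = -1) (hδ : δ = 1 ∨ δ = -1) :
    AlgebraicIndependent ℚ ![ε * x, δ * y] := by
  obtain ⟨e, he, he0⟩ : ∃ e : ℚ, (e : ℝ) = ε ∧ e ≠ 0 := by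
    rcases hε with rfl | rfl
    · exact ⟨1, by norm_num, by norm_num⟩
    · exact ⟨-1, by norm_num, by norm_num⟩
  obtain ⟨d, hd, hd0⟩ : ∃ e : ℚ, (e : ℝ) = δ ∧ e ≠ 0 := by
    rcases hδ with rfl | rfl
    · exact ⟨1, by norm_num, by norm_num⟩
    · exact ⟨-1, by norm_num, by norm_num⟩
  have ht : ∀ c : ℚ, c ≠ 0 → Transcendental ℚ (Polynomial.C c * Polynomial.X) := by
    intro c hc
    refine Polynomial.transcendental _ ?_ ?_
    · rw [Polynomial.natDegree_C_mul_X c hc]
      exact one_ne_zero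
    · rw [Polynomial.leadingCoeff_C_mul_X]
      exact mem_nonZeroDivisors_of_ne_zero hc
  have h1 := h.polynomial_aeval_of_transcendental
    (f := ![Polynomial.C e * Polynomial.X, Polynomial.C d * Polynomial.X]) (by
      intro i
      fin_cases i
      · exact ht e he0
      · exact ht d hd0)
  convert h1 using 1
  funext i
  fin_cases i
  · simp [he]
  · simp [hd]

theorem adjoin_sign (x y : ℝ) {ε δ : ℝ} (hε : ε = 1 ∨ ε = -1) (hδ : δ = 1 ∨ δ = -1) :
    IntermediateField.adjoin ℚ {ε * x, δ * y} = IntermediateField.adjoin ℚ {x, y} := by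
  apply le_antisymm
  · rw [IntermediateField.adjoin_le_iff]
    rintro z (rfl | rfl)
    · rcases hε with rfl | rfl
      · rw [one_mul]; exact IntermediateField.subset_adjoin ℚ _ (by simp)
      · rw [neg_one_mul]; exact neg_mem (IntermediateField.subset_adjoin ℚ _ (by simp))
    · rcases hδ with rfl | rfl
      · rw [one_mul]; exact IntermediateField.subset_adjoin ℚ _ (by simp)
      · rw [neg_one_mul]; exact neg_mem (IntermediateField.subset_adjoin ℚ _ (by simp))
  · rw [IntermediateField.adjoin_le_iff]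
    rintro z (rfl | rfl)
    · have h : z ∈ IntermediateField.adjoin ℚ {ε * z, δ * y} ↔
          ε * z ∈ IntermediateField.adjoin ℚ {ε * z, δ * y} := by
        rcases hε with rfl | rfl
        · rw [one_mul]
        · rw [neg_one_mul]; exact neg_mem_iff.symm
      exact h.2 (IntermediateField.subset_adjoin ℚ _ (by simp))
    · have h : z ∈ IntermediateField.adjoin ℚ {ε * x, δ * z} ↔
          δ * z ∈ IntermediateField.adjoin ℚ {ε * x, δ * z} := by
        rcases hδ with rfl | rfl
        · rw [one_mul]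
        · rw [neg_one_mul]; exact neg_mem_iff.symm
      exact h.2 (IntermediateField.subset_adjoin ℚ _ (by simp))

/-- the theorem for the given labelling of the pieces -/
theorem no_split_of_cond {g h : Matrix (Fin 3) (Fin 3) ℝ}
    (hg : g ∈ Matrix.orthogonalGroup (Fin 3) ℝ) (hh : h ∈ Matrix.orthogonalGroup (Fin 3) ℝ)
    (hc : TraceCond g.trace h.trace (g.transpose * h).trace) (A : Set S2) :
    ¬ AESplit g h A := by
  intro hA
  obtain ⟨hg1, hg2, hg3⟩ := rot_part g hg
  obtain ⟨hh1, hh2, hh3⟩ := rot_part h hh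
  obtain ⟨f, hf, hv, hT⟩ := split_to_fun g h hg hh ⟨_, hg1⟩ ⟨_, hh1⟩ rfl rfl A hA
  have ta : (g.det • g.transpose).trace = g.det * g.trace := by
    rw [trace_smul, trace_transpose, smul_eq_mul]
  have tb : (h.det • h.transpose).trace = h.det * h.trace := by
    rw [trace_smul, trace_transpose, smul_eq_mul]
  rcases hc with hc | hc
  · refine no_fun_T1 ⟨_, hg1⟩ ⟨_, hh1⟩ hg2 hh2 ?_ f hf hv hT
    simp only
    rw [ta, tb]
    exact indep_sign hc hg3 hh3
  · refine no_fun_TM ⟨_, hg1⟩ ⟨_, hh1⟩ hg2 hh2 ?_ f hf hv hT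
    simp only
    rw [ta, tb, adjoin_sign _ _ hg3 hh3]
    have tc : ((g.det • g.transpose).transpose * (h.det • h.transpose)).trace =
        (g.det * h.det) * (g.transpose * h).trace := by
      rw [transpose_smul, transpose_transpose, smul_mul_assoc, mul_smul_comm, smul_smul,
        trace_smul, smul_eq_mul]
      congr 1
      rw [← trace_transpose, transpose_mul, transpose_transpose, trace_mul_comm]
    rw [tc]
    have hs : g.det * h.det = 1 ∨ g.det * h.det = -1 := by
      rcases hg3 with h1 | h1 <;> rcases hh3 with h2 | h2 <;> rw [h1, h2] <;> norm_num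
    rcases hs with h1 | h1
    · rwa [h1, one_mul]
    · rw [h1, neg_one_mul]
      intro h2
      exact hc (by simpa using h2.neg)

theorem no_split_of_traces {g h : Matrix (Fin 3) (Fin 3) ℝ}
    (hg : g ∈ Matrix.orthogonalGroup (Fin 3) ℝ) (hh : h ∈ Matrix.orthogonalGroup (Fin 3) ℝ)
    (hc : TraceCond g.trace h.trace (g.transpose * h).trace ∨
      TraceCond g.trace (g.transpose * h).trace h.trace ∨
      TraceCond h.trace (g.transpose * h).trace g.trace) (A : Set S2) :
    ¬ AESplit g h A := by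
  intro hA
  rcases hc with hc | hc | hc
  · exact no_split_of_cond hg hh hc A hA
  · have h1 := AESplit.relabel hg hh hA
    refine no_split_of_cond (transpose_mem hg) (Submonoid.mul_mem _ hh (transpose_mem hg)) ?_ _ h1
    have e1 : (h * g.transpose).trace = (g.transpose * h).trace := trace_mul_comm _ _
    have e2 : (g.transpose.transpose * (h * g.transpose)).trace = h.trace := by
      rw [transpose_transpose, trace_mul_comm, mul_assoc]
      have h2 : g.transpose * g = 1 := (Matrix.mem_orthogonalGroup_iff' (Fin 3) ℝ).1 hg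
      rw [h2, mul_one]
    rw [trace_transpose, e1, e2]
    exact hc
  · have h1 := AESplit.relabel hh hg (AESplit.swap hA)
    refine no_split_of_cond (transpose_mem hh) (Submonoid.mul_mem _ hg (transpose_mem hh)) ?_ _ h1
    have e1 : (g * h.transpose).trace = (g.transpose * h).trace := by
      rw [← trace_transpose, transpose_mul, transpose_transpose, trace_mul_comm]
    have e2 : (h.transpose.transpose * (g * h.transpose)).trace = g.trace := by
      rw [transpose_transpose, trace_mul_comm, mul_assoc]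
      have h2 : h.transpose * h = 1 := (Matrix.mem_orthogonalGroup_iff' (Fin 3) ℝ).1 hh
      rw [h2, mul_one]
    rw [trace_transpose, e1, e2]
    exact hc

end Pool.Agent.TTr
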