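import Pool.Agent.Lib_MP_8c2fb0_tt.E4
import Pool.Agent.Lib_MP_8c2fb0_lc.Transc

/-!
# The final statement
-/

namespace Pool.Agent.TTr

open Pool.Agent.Sph

theorem no_split_final {g h : Matrix (Fin 3) (Fin 3) ℝ}
    (hg : g ∈ Matrix.orthogonalGroup (Fin 3) ℝ) (hh : h ∈ Matrix.orthogonalGroup (Fin 3) ℝ)
    (hc : AlgebraicIndependent ℚ ![g.trace, h.trace] ∨
      AlgebraicIndependent ℚ ![g.trace, (g.transpose * h).trace] ∨
      AlgebraicIndependent ℚ ![h.trace, (g.transpose * h).trace] ∨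
      ∃ (F : Subfield ℝ) (B : Matrix (Fin 3) (Fin 3) ℝ) (s α : ℝ),
        B ∈ Matrix.orthogonalGroup (Fin 3) ℝ ∧ (∀ i j, B i j ∈ F) ∧ (∀ i j, h i j ∈ F) ∧
        (s = 1 ∨ s = -1) ∧ Transcendental F (Real.cos α) ∧ g = s • (B * rot α * B.transpose))
    (A : Set S2) : ¬ AESplit g h A := by
  rcases hc with hc | hc | hc | ⟨F, B, s, α, hB, hBF, hhF, hs, hα, rfl⟩
  · exact no_split_of_traces hg hh (Or.inl (Or.inl hc)) A
  · exact no_split_of_traces hg hh (Or.inr (Or.inl (Or.inl hc))) A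
  · exact no_split_of_traces hg hh (Or.inr (Or.inr (Or.inl hc))) A
  · exact transcendental hs hB hh hBF hhF hα A

end Pool.Agent.TTr
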