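import Mathlib

set_option autoImplicit false

/-!
# Kernel vectors of perturbed triangular matrices over a local ring

`N` is a square matrix of size `n` (entries `N i j`, `i, j < n`) over a local ring, `z` a kernel
vector. If `N` is upper triangular modulo the maximal ideal with units on the diagonal then `z`
is zero modulo the maximal ideal (`all_mem`). If the entries below the diagonal are divisible by
`s ^ (i - j)`, `s` in the maximal ideal, and all diagonal entries except the one at `i0` are
units, then a kernel vector with a unit coordinate gives the value of `N i0 i0` modulo `s ^ 2`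
(`pert`).
-/

namespace Pool.Agent.Lib_MP_8c2fb0_tt

open Finset

variable {V : Type*} [CommRing V]

/-- Downward induction in a linear system that is triangular modulo the ideal `I`. -/
theorem down (I : Ideal V) (n a b : ℕ) (N : ℕ → ℕ → V) (z dinv : ℕ → V) (hb : b ≤ n)
    (hN : ∀ i, a ≤ i → i < b → ∑ j ∈ range n, N i j * z j = 0)
    (hd : ∀ i, a ≤ i → i < b → N i i * dinv i = 1)
    (hlow : ∀ i, a ≤ i → i < b → ∀ j, j < i → N i j * z j ∈ I)
    (hup : ∀ j, b ≤ j → j < n → z j ∈ I) :
    ∀ i, a ≤ i → i < b → z i ∈ I := by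
  suffices h : ∀ k i, a ≤ i → i < b → b - i = k → z i ∈ I from fun i h1 h2 => h _ i h1 h2 rfl
  intro k
  induction k using Nat.strong_induction_on with
  | _ k ih =>
    intro i hai hib hk
    have hsum := hN i hai hib
    have hin : i ∈ range n := mem_range.2 (by omega)
    rw [← add_sum_erase _ _ hin] at hsum
    have hrest : ∑ j ∈ (range n).erase i, N i j * z j ∈ I := by
      refine I.sum_mem fun j hj => ?_
      obtain ⟨hji, hjn⟩ := mem_erase.1 hj
      have hjn' := mem_range.1 hjn
      rcases lt_or_gt_of_ne hji with h | h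
      · exact hlow i hai hib j h
      · refine I.mul_mem_left _ ?_
        by_cases hjb : j < b
        · exact ih (b - j) (by omega) j (by omega) hjb rfl
        · exact hup j (by omega) hjn'
    have h1 : N i i * z i ∈ I := by
      have : N i i * z i = -∑ j ∈ (range n).erase i, N i j * z j := eq_neg_of_add_eq_zero_left hsum
      rw [this]
      exact I.neg_mem hrest
    have h2 : z i = dinv i * (N i i * z i) := by
      calc z i = (N i i * dinv i) * z i := by rw [hd i hai hib, one_mul]
        _ = dinv i * (N i i * z i) := by ring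
    rw [h2]
    exact I.mul_mem_left _ h1

/-- The three relevant terms of a sum that vanishes. -/
theorem three (I : Ideal V) (n i0 : ℕ) (f : ℕ → V) (hi0 : i0 < n)
    (hsum : ∑ j ∈ range n, f j = 0)
    (hI : ∀ j, j < n → j ≠ i0 → j ≠ i0 + 1 → j + 1 ≠ i0 → f j ∈ I) :
    f i0 + (if i0 + 1 < n then f (i0 + 1) else 0) + (if 0 < i0 then f (i0 - 1) else 0) ∈ I := by
  have h : ∑ j ∈ range n, (f j - (if j = i0 then f i0 else 0) -
      (if j = i0 + 1 then f (i0 + 1) else 0) - (if j + 1 = i0 then f (i0 - 1) else 0)) ∈ I := by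
    refine I.sum_mem fun j hj => ?_
    have hjn := mem_range.1 hj
    by_cases h1 : j = i0
    · subst h1
      have h2 : ¬ (j = j + 1) := by omega
      have h3 : ¬ (j + 1 = j) := by omega
      simp
    · by_cases h2 : j = i0 + 1
      · subst h2
        have h3 : ¬ (i0 + 1 + 1 = i0) := by omega
        simp [h3]
      · by_cases h3 : j + 1 = i0
        · subst h3
          simp [h2]
        · simp only [h1, h2, h3, if_false, sub_zero]
          exact hI j hjn h1 h2 h3
  have e1 : ∑ j ∈ range n, (if j = i0 then f i0 else 0) = f i0 := by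
    rw [sum_ite_eq' (range n) i0 (fun _ => f i0)]
    simp [hi0]
  have e2 : ∑ j ∈ range n, (if j = i0 + 1 then f (i0 + 1) else 0) =
      if i0 + 1 < n then f (i0 + 1) else 0 := by
    rw [sum_ite_eq' (range n) (i0 + 1) (fun _ => f (i0 + 1))]
    simp
  have e3 : ∑ j ∈ range n, (if j + 1 = i0 then f (i0 - 1) else 0) =
      if 0 < i0 then f (i0 - 1) else 0 := by
    rcases Nat.eq_zero_or_pos i0 with h0 | h0
    · subst h0
      simp
    · obtain ⟨k, rfl⟩ : ∃ k, i0 = k + 1 := ⟨i0 - 1, by omega⟩
      have : ∀ j, (if j + 1 = k + 1 then f (k + 1 - 1) else 0) = if j = k then f k else 0 := by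
        intro j
        simp
      rw [sum_congr rfl fun j _ => this j, sum_ite_eq' (range n) k (fun _ => f k)]
      have hk : k < n := by omega
      simp [hk]
  rw [sum_sub_distrib, sum_sub_distrib, sum_sub_distrib, hsum, e1, e2, e3] at h
  have h' := I.neg_mem h
  convert h' using 1
  ring

/-- If the matrix is upper triangular modulo `I` with units on the diagonal then every kernel
vector is zero modulo `I`. -/
theorem all_mem (I : Ideal V) (n : ℕ) (N : ℕ → ℕ → V) (z : ℕ → V)
    (hN : ∀ i, i < n → ∑ j ∈ range n, N i j * z j = 0)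
    (hd : ∀ i, i < n → IsUnit (N i i))
    (hlow : ∀ i, i < n → ∀ j, j < i → N i j ∈ I) :
    ∀ i, i < n → z i ∈ I := by
  classical
  have hdi : ∃ dinv : ℕ → V, ∀ i, i < n → N i i * dinv i = 1 := by
    refine ⟨fun i => if h : i < n then ((hd i h).unit⁻¹ : Vˣ) else 0, fun i hi => ?_⟩
    simp [hi]
  obtain ⟨dinv, hdinv⟩ := hdi
  intro i hi
  exact down I n 0 n N z dinv le_rfl (fun i _ h => hN i h) (fun i _ h => hdinv i h)
    (fun i _ h j hj => I.mul_mem_right _ (hlow i h j hj)) (fun j h1 h2 => absurd h1 (by omega))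
    i (Nat.zero_le _) hi

/-- The perturbation lemma. -/
theorem pert [IsLocalRing V] (n i0 : ℕ) (hi0 : i0 < n) (s : V)
    (hs : s ∈ IsLocalRing.maximalIdeal V) (N : ℕ → ℕ → V) (z dinv : ℕ → V)
    (hN : ∀ i, i < n → ∑ j ∈ range n, N i j * z j = 0)
    (hd : ∀ i, i < n → i ≠ i0 → N i i * dinv i = 1)
    (hlow : ∀ i, i < n → ∀ j, j < i → s ^ (i - j) ∣ N i j)
    (hz : ∃ i, i < n ∧ IsUnit (z i)) :
    s ^ 2 ∣ N i0 i0 - (if i0 + 1 < n then N i0 (i0 + 1) * N (i0 + 1) i0 * dinv (i0 + 1) else 0) -
      (if 0 < i0 then N i0 (i0 - 1) * N (i0 - 1) i0 * dinv (i0 - 1) else 0) := by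
  classical
  have hlow1 : ∀ i, i < n → ∀ j, j < i → s ∣ N i j := fun i hi j hj =>
    (dvd_pow_self s (by omega)).trans (hlow i hi j hj)
  have hlow2 : ∀ i, i < n → ∀ j, j + 1 < i → s ^ 2 ∣ N i j := fun i hi j hj =>
    (pow_dvd_pow s (by omega)).trans (hlow i hi j (by omega))
  -- the coordinates after `i0`
  have hA : ∀ i, i0 + 1 ≤ i → i < n → z i ∈ Ideal.span {s} :=
    down (Ideal.span {s}) n (i0 + 1) n N z dinv le_rfl (fun i _ h => hN i h)
      (fun i h1 h => hd i h (by omega))
      (fun i _ h j hj => Ideal.mem_span_singleton.2 ((hlow1 i h j hj).mul_right _))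
      (fun j h1 h2 => absurd h1 (by omega))
  have hA2 : ∀ i, i0 + 2 ≤ i → i < n → z i ∈ Ideal.span {s ^ 2} := by
    refine down (Ideal.span {s ^ 2}) n (i0 + 2) n N z dinv le_rfl (fun i _ h => hN i h)
      (fun i h1 h => hd i h (by omega)) (fun i h1 h j hj => ?_)
      (fun j h1 h2 => absurd h1 (by omega))
    refine Ideal.mem_span_singleton.2 ?_
    by_cases hji : j + 1 < i
    · exact (hlow2 i h j hji).mul_right _
    · have hs1 := hlow1 i h j hj
      have hs2 := Ideal.mem_span_singleton.1 (hA j (by omega) (by omega))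
      rw [pow_two]
      exact mul_dvd_mul hs1 hs2
  -- the coordinate `i0` is a unit
  have hu : IsUnit (z i0) := by
    by_contra hnu
    have hm : z i0 ∈ IsLocalRing.maximalIdeal V := (IsLocalRing.mem_maximalIdeal _).2 hnu
    have hspan : ∀ x, x ∈ Ideal.span {s} → x ∈ IsLocalRing.maximalIdeal V := fun x hx =>
      (Ideal.span_singleton_le_iff_mem (I := IsLocalRing.maximalIdeal V)).2 hs hx
    have hall : ∀ i, 0 ≤ i → i < i0 → z i ∈ IsLocalRing.maximalIdeal V := by
      refine down (IsLocalRing.maximalIdeal V) n 0 i0 N z dinv hi0.le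
        (fun i _ h => hN i (by omega)) (fun i _ h => hd i (by omega) (by omega))
        (fun i _ h j hj => ?_) (fun j h1 h2 => ?_)
      · exact hspan _ (Ideal.mem_span_singleton.2 ((hlow1 i (by omega) j hj).mul_right _))
      · rcases Nat.eq_or_lt_of_le h1 with h | h
        · exact h ▸ hm
        · exact hspan _ (hA j h h2)
    obtain ⟨i, hi, hzi⟩ := hz
    have : z i ∈ IsLocalRing.maximalIdeal V := by
      rcases lt_trichotomy i i0 with h | h | h
      · exact hall i (Nat.zero_le _) h
      · exact h ▸ hm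
      · exact hspan _ (hA i h hi)
    exact (IsLocalRing.mem_maximalIdeal _).1 this hzi
  obtain ⟨u, hu'⟩ := hu
  set w : ℕ → V := fun i => z i * ((u⁻¹ : Vˣ) : V) with hw
  have hw0 : w i0 = 1 := by
    rw [hw]
    simp only
    rw [← hu']
    exact u.mul_inv
  have hNw : ∀ i, i < n → ∑ j ∈ range n, N i j * w j = 0 := by
    intro i hi
    have : ∑ j ∈ range n, N i j * w j = (∑ j ∈ range n, N i j * z j) * ((u⁻¹ : Vˣ) : V) := by
      rw [sum_mul]
      exact sum_congr rfl fun j _ => by rw [hw]; ring
    rw [this, hN i hi, zero_mul]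
  have hw1 : ∀ i, i0 + 1 ≤ i → i < n → s ∣ w i := fun i h1 h2 =>
    (Ideal.mem_span_singleton.1 (hA i h1 h2)).mul_right _
  have hw2 : ∀ i, i0 + 2 ≤ i → i < n → s ^ 2 ∣ w i := fun i h1 h2 =>
    (Ideal.mem_span_singleton.1 (hA2 i h1 h2)).mul_right _
  -- the row `i0`
  have hrow := three (Ideal.span {s ^ 2}) n i0 (fun j => N i0 j * w j) hi0 (hNw i0 hi0)
    (fun j hj h1 h2 h3 => by
      refine Ideal.mem_span_singleton.2 ?_
      rcases lt_or_gt_of_ne h1 with h | h
      · exact (hlow2 i0 hi0 j (by omega)).mul_right _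
      · exact (hw2 j (by omega) hj).mul_left _)
  simp only [hw0, mul_one] at hrow
  -- the next row
  have hnext : i0 + 1 < n → s ^ 2 ∣ w (i0 + 1) + N (i0 + 1) i0 * dinv (i0 + 1) := by
    intro hn
    have h := three (Ideal.span {s ^ 2}) n (i0 + 1) (fun j => N (i0 + 1) j * w j) hn
      (hNw _ hn) (fun j hj h1 h2 h3 => by
        refine Ideal.mem_span_singleton.2 ?_
        rcases lt_or_gt_of_ne h1 with h | h
        · exact (hlow2 (i0 + 1) hn j (by omega)).mul_right _
        · exact (hw2 j (by omega) hj).mul_left _)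
    simp only [Nat.succ_pos', if_true, Nat.add_sub_cancel, hw0, mul_one] at h
    have h' : s ^ 2 ∣ N (i0 + 1) (i0 + 1) * w (i0 + 1) + N (i0 + 1) i0 := by
      have h1 := Ideal.mem_span_singleton.1 h
      by_cases hn2 : i0 + 1 + 1 < n
      · rw [if_pos hn2] at h1
        have h2 : s ^ 2 ∣ N (i0 + 1) (i0 + 1 + 1) * w (i0 + 1 + 1) :=
          (hw2 (i0 + 1 + 1) (by omega) hn2).mul_left _
        have h3 := dvd_sub h1 h2
        convert h3 using 1
        ring
      · rw [if_neg hn2, add_zero] at h1
        exact h1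
    have h4 : w (i0 + 1) + N (i0 + 1) i0 * dinv (i0 + 1) =
        dinv (i0 + 1) * (N (i0 + 1) (i0 + 1) * w (i0 + 1) + N (i0 + 1) i0) := by
      have := hd (i0 + 1) hn (by omega)
      linear_combination (-w (i0 + 1)) * this
    rw [h4]
    exact h'.mul_left _
  -- the previous row
  have hprev : 0 < i0 → s ∣ w (i0 - 1) + N (i0 - 1) i0 * dinv (i0 - 1) := by
    intro hpos
    obtain ⟨k, rfl⟩ : ∃ k, i0 = k + 1 := ⟨i0 - 1, by omega⟩
    simp only [Nat.add_sub_cancel]
    have hk : k < n := by omega
    have h := three (Ideal.span {s}) n k (fun j => N k j * w j) hk (hNw _ hk)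
      (fun j hj h1 h2 h3 => by
        refine Ideal.mem_span_singleton.2 ?_
        rcases lt_or_gt_of_ne h1 with h | h
        · exact (hlow1 k hk j h).mul_right _
        · exact (hw1 j (by omega) hj).mul_left _)
    simp only [hi0, if_true, hw0, mul_one] at h
    have h' : s ∣ N k k * w k + N k (k + 1) := by
      have h1 := Ideal.mem_span_singleton.1 h
      by_cases hk0 : 0 < k
      · rw [if_pos hk0] at h1
        have h2 : s ∣ N k (k - 1) * w (k - 1) := (hlow1 k hk (k - 1) (by omega)).mul_right _
        have h3 := dvd_sub h1 h2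
        convert h3 using 1
        ring
      · rw [if_neg hk0, add_zero] at h1
        exact h1
    have h4 : w k + N k (k + 1) * dinv k = dinv k * (N k k * w k + N k (k + 1)) := by
      have := hd k hk (by omega)
      linear_combination (-w k) * this
    rw [h4]
    exact h'.mul_left _
  -- assembly
  have h1 := Ideal.mem_span_singleton.1 hrow
  have h2 : s ^ 2 ∣ (if i0 + 1 < n then
      N i0 (i0 + 1) * (w (i0 + 1) + N (i0 + 1) i0 * dinv (i0 + 1)) else 0) := by
    split_ifs with h
    · exact (hnext h).mul_left _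
    · exact dvd_zero _
  have h3 : s ^ 2 ∣ (if 0 < i0 then
      N i0 (i0 - 1) * (w (i0 - 1) + N (i0 - 1) i0 * dinv (i0 - 1)) else 0) := by
    split_ifs with h
    · rw [pow_two]
      exact mul_dvd_mul (hlow1 i0 hi0 (i0 - 1) (by omega)) (hprev h)
    · exact dvd_zero _
  have h4 := dvd_sub (dvd_sub h1 h2) h3
  convert h4 using 1
  split_ifs <;> ring

end Pool.Agent.Lib_MP_8c2fb0_tt
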